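import Pool.Agent.TH450.PC.F4

/-!
# Pairs of binary forms given by their coefficients, and heights of preperiodic points
-/

set_option autoImplicit false

namespace Pool.Agent.R323

open Polynomial Pool.Agent.H951R3.PB Pool.Agent.TH450.PC

section ac

variable {R S : Type*} [CommRing R] [CommRing S] {d : ℕ}

/-- the pair of forms with the coefficients `c i j` of `x ^ j y ^ (d - j)` -/
def ac (c : Fin 2 → Fin (d + 1) → R) (v : Fin 2 → R) : Fin 2 → R :=
  fun i => ∑ j : Fin (d + 1), c i j * v 0 ^ (j : ℕ) * v 1 ^ (d - (j : ℕ))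

/-- the wedge product -/
def wg (x y : Fin 2 → R) : R := x 0 * y 1 - x 1 * y 0

theorem ac_map (φ : R →+* S) (c : Fin 2 → Fin (d + 1) → R) (v : Fin 2 → R) :
    (fun i => φ (ac c v i)) = ac (fun i j => φ (c i j)) (fun i => φ (v i)) := by
  funext i
  simp [ac, map_sum]

theorem ac_iter_map (φ : R →+* S) (c : Fin 2 → Fin (d + 1) → R) (v : Fin 2 → R) (n : ℕ) :
    (fun i => φ ((ac c)^[n] v i)) = (ac (fun i j => φ (c i j)))^[n] (fun i => φ (v i)) := by
  induction n with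
  | zero => rfl
  | succ n ih =>
    simp only [Function.iterate_succ_apply']
    rw [ac_map, ih]

theorem ac_smul (c : Fin 2 → Fin (d + 1) → R) (a : R) (v : Fin 2 → R) :
    ac c (a • v) = a ^ d • ac c v := by
  funext i
  simp only [ac, Pi.smul_apply, smul_eq_mul, Finset.mul_sum]
  refine Finset.sum_congr rfl fun j _ => ?_
  have : a ^ d = a ^ (j : ℕ) * a ^ (d - (j : ℕ)) := by
    rw [← pow_add]
    congr 1
    have := j.2
    omega
  rw [this]
  ring

theorem ac_iter_smul (c : Fin 2 → Fin (d + 1) → R) (a : R) (v : Fin 2 → R) (n : ℕ) :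
    (ac c)^[n] (a • v) = a ^ (d ^ n) • (ac c)^[n] v := by
  induction n with
  | zero => simp
  | succ n ih =>
    rw [Function.iterate_succ_apply', Function.iterate_succ_apply', ih, ac_smul, ← pow_mul,
      ← pow_succ]

/-- the coefficients with the variables exchanged -/
def rv (c : Fin 2 → Fin (d + 1) → R) : Fin 2 → Fin (d + 1) → R := fun i j => c i (Fin.rev j)

theorem ac_rv (c : Fin 2 → Fin (d + 1) → R) (v : Fin 2 → R) :
    ac (rv c) ![v 1, v 0] = ac c v := by
  funext i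
  simp only [ac, rv, Matrix.cons_val_zero, Matrix.cons_val_one]
  rw [← Equiv.sum_comp Fin.revPerm]
  refine Finset.sum_congr rfl fun j _ => ?_
  simp only [Fin.revPerm_apply, Fin.rev_rev, Fin.val_rev]
  have h1 := j.2
  have h2 : d + 1 - ((j : ℕ) + 1) = d - (j : ℕ) := by omega
  have h3 : d - (d - (j : ℕ)) = (j : ℕ) := by omega
  rw [h2, h3]
  ring

/-- the polynomial with the coefficients `c` -/
noncomputable def pc (c : Fin (d + 1) → R) : R[X] := ∑ j : Fin (d + 1), C (c j) * X ^ (j : ℕ)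

theorem pc_map (φ : R →+* S) (c : Fin (d + 1) → R) : (pc c).map φ = pc (fun j => φ (c j)) := by
  simp [pc, Polynomial.map_sum]

theorem pc_coeff (c : Fin (d + 1) → R) (j : ℕ) :
    (pc c).coeff j = if h : j < d + 1 then c ⟨j, h⟩ else 0 := by
  unfold pc
  rw [Polynomial.finsetSum_coeff]
  simp only [Polynomial.coeff_C_mul, Polynomial.coeff_X_pow, mul_ite, mul_one, mul_zero]
  split_ifs with h
  · rw [Finset.sum_eq_single ⟨j, h⟩]
    · simp
    · intro b _ hb
      rw [if_neg]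
      rintro rfl
      exact hb rfl
    · intro h'
      exact absurd (Finset.mem_univ _) h'
  · refine Finset.sum_eq_zero fun b _ => if_neg ?_
    rintro rfl
    exact h b.2

theorem pc_natDegree (c : Fin (d + 1) → R) : (pc c).natDegree ≤ d := by
  unfold pc
  refine Polynomial.natDegree_sum_le_of_forall_le _ _ fun j _ => ?_
  exact (Polynomial.natDegree_C_mul_X_pow_le _ _).trans (by have := j.2; omega)

/-- homogeneous evaluation -/
def he (P : R[X]) (m : ℕ) (z : Fin 2 → R) : R :=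
  ∑ j ∈ Finset.range (m + 1), P.coeff j * z 0 ^ j * z 1 ^ (m - j)

theorem he_pc (c : Fin 2 → Fin (d + 1) → R) (z : Fin 2 → R) (i : Fin 2) :
    he (pc (c i)) d z = ac c z i := by
  unfold he ac
  rw [Finset.sum_range]
  refine Finset.sum_congr rfl fun j _ => ?_
  rw [pc_coeff, dif_pos j.2]

theorem he_map (φ : R →+* S) (P : R[X]) (m : ℕ) (z : Fin 2 → R) :
    φ (he P m z) = he (P.map φ) m (fun i => φ (z i)) := by
  simp [he, map_sum, Polynomial.coeff_map]

end ac

theorem he_eval {K : Type*} [Field K] {P : K[X]} {m : ℕ} (hP : P.natDegree ≤ m) (z : Fin 2 → K)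
    (hz : z 1 ≠ 0) : P.eval (z 0 / z 1) * z 1 ^ m = he P m z := by
  unfold he
  rw [Polynomial.eval_eq_sum_range' (by omega : P.natDegree < m + 1), Finset.sum_mul]
  refine Finset.sum_congr rfl fun j hj => ?_
  rw [Finset.mem_range] at hj
  have : z 1 ^ m = z 1 ^ j * z 1 ^ (m - j) := by
    rw [← pow_add]
    congr 1
    omega
  rw [this, div_pow]
  field_simp

/-- the forms as polynomials -/
noncomputable def fm {K : Type*} [Field K] {d : ℕ} (c : Fin 2 → Fin (d + 1) → K) :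
    Fin 2 → MvPolynomial (Fin 2) K :=
  fun i => ∑ j : Fin (d + 1), MvPolynomial.C (c i j) * MvPolynomial.X 0 ^ (j : ℕ) *
    MvPolynomial.X 1 ^ (d - (j : ℕ))

section fm

variable {K : Type*} [Field K] {d : ℕ} (c : Fin 2 → Fin (d + 1) → K)

theorem fm_hom (i : Fin 2) : (fm c i).IsHomogeneous d := by
  unfold fm
  refine MvPolynomial.IsHomogeneous.sum _ _ _ fun j _ => ?_
  have h1 := ((MvPolynomial.isHomogeneous_C (Fin 2) (c i j)).mul
    (MvPolynomial.isHomogeneous_X_pow (R := K) (0 : Fin 2) (j : ℕ))).mul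
    (MvPolynomial.isHomogeneous_X_pow (R := K) (1 : Fin 2) (d - (j : ℕ)))
  have h2 : 0 + (j : ℕ) + (d - (j : ℕ)) = d := by
    have := j.2
    omega
  rwa [h2] at h1

theorem ev_fm (v : Fin 2 → K) : ev (fm c) v = ac c v := by
  funext i
  simp [ev, fm, ac, map_sum]

theorem dh_fm (i : Fin 2) : dh (fm c i) = pc (c i) := by
  unfold dh fm pc
  rw [map_sum]
  refine Finset.sum_congr rfl fun j _ => ?_
  rw [map_mul, map_mul, map_pow, map_pow, MvPolynomial.aeval_X, MvPolynomial.aeval_X,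
    MvPolynomial.aeval_C]
  simp [Polynomial.algebraMap_eq]

theorem rs_fm : rs (fm c) d = resultant (pc (c 0)) (pc (c 1)) d d := by
  unfold rs
  rw [dh_fm, dh_fm]

end fm

/-- no common zero -/
def NZ {d : ℕ} (c : Fin 2 → Fin (d + 1) → ℤ) : Prop :=
  ∀ v : Fin 2 → ℂ, ac (fun i j => (c i j : ℂ)) v = 0 → v = 0

/-- the resultant -/
noncomputable def rsZ {R : Type*} [CommRing R] {d : ℕ} (c : Fin 2 → Fin (d + 1) → R) : R :=
  resultant (pc (c 0)) (pc (c 1)) d d

theorem rsZ_map {R S : Type*} [CommRing R] [CommRing S] (φ : R →+* S) {d : ℕ}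
    (c : Fin 2 → Fin (d + 1) → R) : φ (rsZ c) = rsZ (fun i j => φ (c i j)) := by
  unfold rsZ
  rw [← Polynomial.resultant_map_map, pc_map, pc_map]

theorem rsZ_ne {d : ℕ} (hd : 1 ≤ d) {c : Fin 2 → Fin (d + 1) → ℤ} (h : NZ c) : rsZ c ≠ 0 := by
  have h1 : rs (fm (fun i j => (c i j : ℂ))) d ≠ 0 := by
    refine (rs_ne_zero_iff hd fun i => fm_hom _ i).2 fun v hv => ?_
    rw [ev_fm] at hv
    exact h v hv
  rw [rs_fm] at h1
  have h2 := rsZ_map (Int.castRingHom ℂ) c
  intro h3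
  rw [h3, map_zero] at h2
  exact h1 h2.symm

theorem rv_NZ {d : ℕ} {c : Fin 2 → Fin (d + 1) → ℤ} (h : NZ c) : NZ (rv c) := by
  intro v hv
  have h1 := ac_rv (fun i j => (c i j : ℂ)) ![v 1, v 0]
  have h2 : (![(![v 1, v 0] : Fin 2 → ℂ) 1, (![v 1, v 0] : Fin 2 → ℂ) 0] : Fin 2 → ℂ) = v := by
    funext i
    fin_cases i <;> simp
  rw [h2] at h1
  have h3 := h ![v 1, v 0] (by rw [← h1]; exact hv)
  funext i
  fin_cases i
  · exact congrFun h3 1
  · exact congrFun h3 0

theorem NZ_ne {d : ℕ} {c : Fin 2 → Fin (d + 1) → ℤ} (h : NZ c) {z : Fin 2 → ℤ} (hz : z ≠ 0) :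
    ac c z ≠ 0 := by
  intro h0
  apply hz
  have h1 := ac_map (Int.castRingHom ℂ) c z
  rw [h0] at h1
  have h2 := h (fun i => (z i : ℂ)) (by
    refine (h1.symm).trans ?_
    funext i
    simp)
  funext i
  have := congrFun h2 i
  simpa using this

theorem ev_bound {σ : Type*} (P : MvPolynomial σ ℤ) : ∃ C A : ℕ, ∀ X : ℕ, 1 ≤ X →
    ∀ s : σ → ℤ, (∀ i, |s i| ≤ (X : ℤ)) → |MvPolynomial.eval s P| ≤ (C : ℤ) * (X : ℤ) ^ A := by
  induction P using MvPolynomial.induction_on with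
  | C a =>
    refine ⟨a.natAbs, 0, fun X _ s _ => ?_⟩
    simp
  | add p q hp hq =>
    obtain ⟨C1, A1, h1⟩ := hp
    obtain ⟨C2, A2, h2⟩ := hq
    refine ⟨C1 + C2, max A1 A2, fun X hX s hs => ?_⟩
    have hX' : (1 : ℤ) ≤ X := by exact_mod_cast hX
    rw [map_add]
    refine (abs_add_le _ _).trans ?_
    have e1 : (X : ℤ) ^ A1 ≤ (X : ℤ) ^ max A1 A2 := pow_le_pow_right₀ hX' (le_max_left _ _)
    have e2 : (X : ℤ) ^ A2 ≤ (X : ℤ) ^ max A1 A2 := pow_le_pow_right₀ hX' (le_max_right _ _)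
    have e3 := h1 X hX s hs
    have e4 := h2 X hX s hs
    push_cast
    nlinarith [(by positivity : (0 : ℤ) ≤ C1), (by positivity : (0 : ℤ) ≤ C2)]
  | mul_X p i hp =>
    obtain ⟨C1, A1, h1⟩ := hp
    refine ⟨C1, A1 + 1, fun X hX s hs => ?_⟩
    rw [map_mul, MvPolynomial.eval_X, abs_mul, pow_succ, ← mul_assoc]
    exact mul_le_mul (h1 X hX s hs) (hs i) (abs_nonneg _) (by positivity)

/-- a common bound for finitely many polynomials -/
theorem ev_bound_fin {σ ι : Type*} [Fintype ι] (P : ι → MvPolynomial σ ℤ) : ∃ C A : ℕ,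
    ∀ X : ℕ, 1 ≤ X → ∀ s : σ → ℤ, (∀ i, |s i| ≤ (X : ℤ)) → ∀ k,
      |MvPolynomial.eval s (P k)| ≤ (C : ℤ) * (X : ℤ) ^ A := by
  classical
  choose C A h using fun k => ev_bound (P k)
  refine ⟨∑ k, C k, ∑ k, A k, fun X hX s hs k => (h k X hX s hs).trans ?_⟩
  have hX' : (1 : ℤ) ≤ X := by exact_mod_cast hX
  have e1 : C k ≤ ∑ k, C k := Finset.single_le_sum (fun _ _ => Nat.zero_le _) (Finset.mem_univ k)
  have e2 : A k ≤ ∑ k, A k := Finset.single_le_sum (fun _ _ => Nat.zero_le _) (Finset.mem_univ k)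
  refine mul_le_mul (by exact_mod_cast e1) (pow_le_pow_right₀ hX' e2) (by positivity)
    (by positivity)

theorem he_bound {P : ℤ[X]} {m : ℕ} {z : Fin 2 → ℤ} {H : ℕ} (hz : ∀ i, |z i| ≤ (H : ℤ)) {B : ℤ}
    (hP : ∀ j, j ≤ m → |P.coeff j| ≤ B) : |he P m z| ≤ (m + 1) * B * (H : ℤ) ^ m := by
  have hB : 0 ≤ B := (abs_nonneg _).trans (hP 0 (Nat.zero_le _))
  unfold he
  refine (Finset.abs_sum_le_sum_abs _ _).trans ?_
  calc ∑ j ∈ Finset.range (m + 1), |P.coeff j * z 0 ^ j * z 1 ^ (m - j)| ≤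
        ∑ _j ∈ Finset.range (m + 1), B * (H : ℤ) ^ m := by
        refine Finset.sum_le_sum fun j hj => ?_
        rw [Finset.mem_range] at hj
        rw [abs_mul, abs_mul, abs_pow, abs_pow]
        have e1 : (H : ℤ) ^ m = (H : ℤ) ^ j * (H : ℤ) ^ (m - j) := by
          rw [← pow_add]
          congr 1
          omega
        rw [e1, ← mul_assoc]
        exact mul_le_mul (mul_le_mul (hP j (by omega)) (pow_le_pow_left₀ (abs_nonneg _) (hz 0) _)
          (by positivity) hB) (pow_le_pow_left₀ (abs_nonneg _) (hz 1) _) (by positivity)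
          (by positivity)
    _ = _ := by
        rw [Finset.sum_const, Finset.card_range, nsmul_eq_mul]
        push_cast
        ring

/-- the resultant as a combination of the values -/
theorem bez (d : ℕ) (hd : 1 ≤ d) : ∃ C A : ℕ, 1 ≤ C ∧ ∀ X : ℕ, 1 ≤ X →
    ∀ c : Fin 2 → Fin (d + 1) → ℤ, (∀ i j, |c i j| ≤ (X : ℤ)) →
    |rsZ c| ≤ (C : ℤ) * (X : ℤ) ^ A ∧
    ∀ (z : Fin 2 → ℤ) (H : ℕ), (∀ i, |z i| ≤ (H : ℤ)) → z 1 ≠ 0 → ∃ g h : ℤ,
      |g| ≤ (C : ℤ) * (X : ℤ) ^ A * (H : ℤ) ^ (d - 1) ∧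
      |h| ≤ (C : ℤ) * (X : ℤ) ^ A * (H : ℤ) ^ (d - 1) ∧
      ac c z 0 * g + ac c z 1 * h = rsZ c * z 1 ^ (2 * d - 1) := by
  classical
  set u : Fin 2 → Fin (d + 1) → MvPolynomial (Fin 2 × Fin (d + 1)) ℤ :=
    fun i j => MvPolynomial.X (i, j) with hu
  obtain ⟨p, q, hp, hq, hpq⟩ := Polynomial.exists_mul_add_mul_eq_C_resultant
    (pc (u 0)) (pc (u 1)) (m := d) (n := d) (pc_natDegree _) (pc_natDegree _) (Or.inl (by omega))
  obtain ⟨C1, A1, hC1⟩ := ev_bound_fin (fun k : Option (Bool × Fin (d + 1)) =>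
    k.elim (rsZ u) (fun k => if k.1 then p.coeff k.2 else q.coeff k.2))
  refine ⟨(d + 1) * (C1 + 1), A1, Nat.succ_le_of_lt (by positivity), fun X hX c hc => ?_⟩
  have hX' : (1 : ℤ) ≤ X := by exact_mod_cast hX
  set φ : MvPolynomial (Fin 2 × Fin (d + 1)) ℤ →+* ℤ :=
    MvPolynomial.eval (fun k : Fin 2 × Fin (d + 1) => c k.1 k.2) with hφ
  have hφu : ∀ i j, φ (u i j) = c i j := by
    intro i j
    simp [hφ, hu]
  have hb := hC1 X hX (fun k : Fin 2 × Fin (d + 1) => c k.1 k.2) (fun k => hc _ _)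
  have hC1' : (C1 : ℤ) * (X : ℤ) ^ A1 ≤ (((d + 1) * (C1 + 1) : ℕ) : ℤ) * (X : ℤ) ^ A1 := by
    refine mul_le_mul_of_nonneg_right ?_ (by positivity)
    have : C1 ≤ (d + 1) * (C1 + 1) := by nlinarith
    exact_mod_cast this
  have hres : φ (rsZ u) = rsZ c := by
    rw [rsZ_map]
    congr 1
    funext i j
    exact hφu i j
  refine ⟨?_, fun z H hz hz1 => ?_⟩
  · have h1 := hb none
    simp only [Option.elim] at h1
    rw [← hres]
    exact h1.trans hC1'
  · have hdeg : ∀ (r : (MvPolynomial (Fin 2 × Fin (d + 1)) ℤ)[X]), r.degree < (d : ℕ) →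
        (r.map φ).natDegree ≤ d - 1 := by
      intro r hr
      have h1 : (r.map φ).natDegree ≤ r.natDegree := Polynomial.natDegree_map_le
      by_cases hr0 : r = 0
      · rw [hr0]; simp
      · have h2 := (Polynomial.natDegree_lt_iff_degree_lt hr0).2 hr
        omega
    refine ⟨he (p.map φ) (d - 1) z, he (q.map φ) (d - 1) z, ?_, ?_, ?_⟩
    · have h1 := he_bound (P := p.map φ) (m := d - 1) hz (B := (C1 : ℤ) * (X : ℤ) ^ A1) (by
        intro j hj
        rw [Polynomial.coeff_map]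
        have := hb (some (true, ⟨j, by omega⟩))
        simpa using this)
      refine h1.trans ?_
      refine mul_le_mul_of_nonneg_right ?_ (by positivity)
      rw [← mul_assoc]
      refine mul_le_mul_of_nonneg_right ?_ (by positivity)
      have e1 : ((d - 1 : ℕ) : ℤ) + 1 = d := by
        have : d - 1 + 1 = d := by omega
        exact_mod_cast this
      rw [e1]
      have : d * C1 ≤ (d + 1) * (C1 + 1) := by nlinarith
      exact_mod_cast this
    · have h1 := he_bound (P := q.map φ) (m := d - 1) hz (B := (C1 : ℤ) * (X : ℤ) ^ A1) (by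
        intro j hj
        rw [Polynomial.coeff_map]
        have := hb (some (false, ⟨j, by omega⟩))
        simpa using this)
      refine h1.trans ?_
      refine mul_le_mul_of_nonneg_right ?_ (by positivity)
      rw [← mul_assoc]
      refine mul_le_mul_of_nonneg_right ?_ (by positivity)
      have e1 : ((d - 1 : ℕ) : ℤ) + 1 = d := by
        have : d - 1 + 1 = d := by omega
        exact_mod_cast this
      rw [e1]
      have : d * C1 ≤ (d + 1) * (C1 + 1) := by nlinarith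
      exact_mod_cast this
    · -- the identity over the rationals
      have hz1' : ((z 1 : ℤ) : ℚ) ≠ 0 := by exact_mod_cast hz1
      have h1 := congrArg (Polynomial.map φ) hpq
      rw [Polynomial.map_add, Polynomial.map_mul, Polynomial.map_mul, Polynomial.map_C, pc_map,
        pc_map] at h1
      have h2 : φ (resultant (pc (u 0)) (pc (u 1)) d d) = rsZ c := hres
      rw [h2] at h1
      have h3 : ∀ i, (fun j => φ (u i j)) = c i := fun i => funext fun j => hφu i j
      rw [h3, h3] at h1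
      have h4 := congrArg (Polynomial.map (Int.castRingHom ℚ)) h1
      rw [Polynomial.map_add, Polynomial.map_mul, Polynomial.map_mul, Polynomial.map_C] at h4
      have h5 := congrArg (Polynomial.eval ((z 0 : ℚ) / (z 1 : ℚ))) h4
      rw [Polynomial.eval_add, Polynomial.eval_mul, Polynomial.eval_mul, Polynomial.eval_C] at h5
      have k1 := he_eval (P := (pc (c 0)).map (Int.castRingHom ℚ)) (m := d)
        (Polynomial.natDegree_map_le.trans (pc_natDegree _)) (fun i => (z i : ℚ)) hz1'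
      have k2 := he_eval (P := (pc (c 1)).map (Int.castRingHom ℚ)) (m := d)
        (Polynomial.natDegree_map_le.trans (pc_natDegree _)) (fun i => (z i : ℚ)) hz1'
      have k3 := he_eval (P := (p.map φ).map (Int.castRingHom ℚ)) (m := d - 1)
        (Polynomial.natDegree_map_le.trans (hdeg p hp)) (fun i => (z i : ℚ)) hz1'
      have k4 := he_eval (P := (q.map φ).map (Int.castRingHom ℚ)) (m := d - 1)
        (Polynomial.natDegree_map_le.trans (hdeg q hq)) (fun i => (z i : ℚ)) hz1'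
      have j1 := he_map (Int.castRingHom ℚ) (pc (c 0)) d z
      have j2 := he_map (Int.castRingHom ℚ) (pc (c 1)) d z
      have j3 := he_map (Int.castRingHom ℚ) (p.map φ) (d - 1) z
      have j4 := he_map (Int.castRingHom ℚ) (q.map φ) (d - 1) z
      simp only [eq_intCast] at j1 j2 j3 j4 h5
      rw [← j1, he_pc] at k1
      rw [← j2, he_pc] at k2
      rw [← j3] at k3
      rw [← j4] at k4
      have e1 : (z 1 : ℚ) ^ (2 * d - 1) = (z 1 : ℚ) ^ d * (z 1 : ℚ) ^ (d - 1) := by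
        rw [← pow_add]
        congr 1
        omega
      have h6 : ((ac c z 0 * he (p.map φ) (d - 1) z + ac c z 1 * he (q.map φ) (d - 1) z : ℤ) : ℚ) =
          ((rsZ c * z 1 ^ (2 * d - 1) : ℤ) : ℚ) := by
        push_cast
        rw [← k1, ← k2, ← k3, ← k4, e1, ← h5]
        ring
      exact_mod_cast h6

/-- the height of an integral vector -/
def mx (z : Fin 2 → ℤ) : ℕ := max (z 0).natAbs (z 1).natAbs

theorem le_mx (z : Fin 2 → ℤ) (i : Fin 2) : |z i| ≤ (mx z : ℤ) := by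
  unfold mx
  fin_cases i
  · simp only [Fin.zero_eta]
    rw [Int.abs_eq_natAbs]
    exact_mod_cast le_max_left _ _
  · simp only [Fin.mk_one]
    rw [Int.abs_eq_natAbs]
    exact_mod_cast le_max_right _ _

theorem mx_pos {z : Fin 2 → ℤ} (hz : z ≠ 0) : 1 ≤ mx z := by
  by_contra hcon
  apply hz
  have h1 : mx z = 0 := by omega
  funext i
  have := le_mx z i
  rw [h1] at this
  simpa using this

theorem coprime_ne {z : Fin 2 → ℤ} (hz : IsCoprime (z 0) (z 1)) : z ≠ 0 := by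
  rintro rfl
  exact not_isCoprime_zero_zero hz

/-- one step of the dynamics in lowest terms -/
theorem step (d : ℕ) (hd : 1 ≤ d) : ∃ C A : ℕ, 1 ≤ C ∧ ∀ X : ℕ, 1 ≤ X →
    ∀ c : Fin 2 → Fin (d + 1) → ℤ, (∀ i j, |c i j| ≤ (X : ℤ)) → NZ c →
    ∀ z : Fin 2 → ℤ, IsCoprime (z 0) (z 1) → ∃ (g : ℤ) (z' : Fin 2 → ℤ), g ≠ 0 ∧
      IsCoprime (z' 0) (z' 1) ∧ ac c z = g • z' ∧ (mx z) ^ d ≤ C * X ^ A * mx z' := by
  obtain ⟨C, A, hC, H⟩ := bez d hd
  have hC0 : 0 < C := hC
  refine ⟨2 * C ^ 3, 3 * A, Nat.succ_le_of_lt (by positivity), fun X hX c hc hNZ z hz => ?_⟩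
  have hz0 := coprime_ne hz
  have hw := NZ_ne hNZ hz0
  set w := ac c z with hwdef
  have hgcd : Int.gcd (w 0) (w 1) ≠ 0 := by
    intro h
    rw [Int.gcd_eq_zero_iff] at h
    apply hw
    funext i
    fin_cases i
    · exact h.1
    · exact h.2
  obtain ⟨g, hg⟩ : ∃ g : ℤ, g = (Int.gcd (w 0) (w 1) : ℤ) := ⟨_, rfl⟩
  have hg0 : g ≠ 0 := by rw [hg]; exact_mod_cast hgcd
  have hgpos : 0 < g := by
    rw [hg]
    exact_mod_cast Nat.pos_of_ne_zero hgcd
  obtain ⟨a, ha⟩ : g ∣ w 0 := by rw [hg]; exact Int.gcd_dvd_left ..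
  obtain ⟨b, hb⟩ : g ∣ w 1 := by rw [hg]; exact Int.gcd_dvd_right ..
  have hco : IsCoprime a b := by
    rw [Int.isCoprime_iff_gcd_eq_one]
    have h1 : Int.gcd (w 0) (w 1) = g.natAbs * Int.gcd a b := by
      rw [ha, hb, Int.gcd_mul_left]
    have h2 : g.natAbs = Int.gcd (w 0) (w 1) := by rw [hg, Int.natAbs_natCast]
    rw [h2] at h1
    exact Nat.eq_of_mul_eq_mul_left (Nat.pos_of_ne_zero hgcd) (by omega)
  have hwe : w = g • ![a, b] := by
    funext i
    fin_cases i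
    · simpa using ha
    · simpa using hb
  refine ⟨g, ![a, b], hg0, by simpa using hco, hwe, ?_⟩
  -- the two resultants
  have hr := rsZ_ne hd hNZ
  have hr' := rsZ_ne hd (rv_NZ hNZ)
  have hcr : ∀ i j, |rv c i j| ≤ (X : ℤ) := fun i j => hc _ _
  obtain ⟨b1, b2⟩ := H X hX c hc
  obtain ⟨b1', b2'⟩ := H X hX (rv c) hcr
  set P : ℤ := (C : ℤ) * (X : ℤ) ^ A with hP
  have hP1 : 1 ≤ P := by
    have h1 : (1 : ℤ) ≤ C := by exact_mod_cast hC
    have h2 : (1 : ℤ) ≤ (X : ℤ) ^ A := one_le_pow₀ (by exact_mod_cast hX)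
    nlinarith
  obtain ⟨zs, hzs⟩ : ∃ zs : Fin 2 → ℤ, zs = ![z 1, z 0] := ⟨_, rfl⟩
  have hzs0 : zs 0 = z 1 := by rw [hzs]; rfl
  have hzs1 : zs 1 = z 0 := by rw [hzs]; rfl
  have hacs : ac (rv c) zs = w := by rw [hzs]; exact ac_rv c z
  have hmxs : ∀ i, |zs i| ≤ (mx z : ℤ) := by
    intro i
    fin_cases i
    · show |zs 0| ≤ _
      rw [hzs0]; exact le_mx z 1
    · show |zs 1| ≤ _
      rw [hzs1]; exact le_mx z 0
  -- divisibility
  have d1 : g ∣ rsZ c * z 1 ^ (2 * d - 1) := by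
    by_cases h0 : z 1 = 0
    · rw [h0, zero_pow (by omega), mul_zero]
      exact dvd_zero _
    · obtain ⟨g1, g2, -, -, h3⟩ := b2 z (mx z) (le_mx z) h0
      rw [← h3, ← hwdef, ha, hb]
      exact dvd_add (Dvd.intro _ (by ring : g * (a * g1) = g * a * g1))
        (Dvd.intro _ (by ring : g * (b * g2) = g * b * g2))
  have d2 : g ∣ rsZ (rv c) * z 0 ^ (2 * d - 1) := by
    by_cases h0 : z 0 = 0
    · rw [h0, zero_pow (by omega), mul_zero]
      exact dvd_zero _
    · obtain ⟨g1, g2, -, -, h3⟩ := b2' zs (mx z) hmxs (by rw [hzs1]; exact h0)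
      rw [hzs1, hacs] at h3
      rw [← h3, ha, hb]
      exact dvd_add (Dvd.intro _ (by ring : g * (a * g1) = g * a * g1))
        (Dvd.intro _ (by ring : g * (b * g2) = g * b * g2))
  have d3 : g ∣ rsZ c * rsZ (rv c) := by
    obtain ⟨u, v, huv⟩ := (hz.pow (m := 2 * d - 1) (n := 2 * d - 1))
    have e1 : rsZ c * rsZ (rv c) = u * rsZ c * (rsZ (rv c) * z 0 ^ (2 * d - 1)) +
        v * rsZ (rv c) * (rsZ c * z 1 ^ (2 * d - 1)) := by
      linear_combination (-(rsZ c * rsZ (rv c))) * huv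
    rw [e1]
    exact dvd_add (Dvd.dvd.mul_left d2 _) (Dvd.dvd.mul_left d1 _)
  have hgle : g ≤ P * P := by
    have h1 : g ≤ |rsZ c * rsZ (rv c)| :=
      Int.le_of_dvd (abs_pos.2 (mul_ne_zero hr hr')) ((dvd_abs _ _).2 d3)
    rw [abs_mul] at h1
    exact h1.trans (mul_le_mul b1 b1' (abs_nonneg _) (by linarith))
  -- the size
  have hmw : ∀ i, |w i| ≤ g * mx ![a, b] := by
    intro i
    have h1 : w i = g * (![a, b] : Fin 2 → ℤ) i := by
      rw [hwe]
      simp
    rw [h1, abs_mul, abs_of_pos hgpos]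
    exact mul_le_mul_of_nonneg_left (le_mx _ i) hgpos.le
  have hkey : ∀ (r x g1 g2 : ℤ), r ≠ 0 → |x| = mx z →
      |g1| ≤ P * (mx z : ℤ) ^ (d - 1) → |g2| ≤ P * (mx z : ℤ) ^ (d - 1) →
      w 0 * g1 + w 1 * g2 = r * x ^ (2 * d - 1) →
      ((mx z ^ d : ℕ) : ℤ) ≤ ((2 * C ^ 3 * X ^ (3 * A) * mx ![a, b] : ℕ) : ℤ) := by
    intro r x g1 g2 hr0 hx hg1 hg2 he
    have m1 : (1 : ℤ) ≤ mx z := by exact_mod_cast mx_pos hz0
    have h1 : (1 : ℤ) ≤ |r| := Int.one_le_abs hr0
    have h2 : |r * x ^ (2 * d - 1)| = |r| * (mx z : ℤ) ^ (2 * d - 1) := by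
      rw [abs_mul, abs_pow, hx]
    have h3 : |r| * (mx z : ℤ) ^ (2 * d - 1) ≤
        2 * (g * mx ![a, b]) * (P * (mx z : ℤ) ^ (d - 1)) := by
      rw [← h2, ← he]
      refine (abs_add_le _ _).trans ?_
      rw [abs_mul, abs_mul]
      have e1 := mul_le_mul (hmw 0) hg1 (abs_nonneg _) (by positivity)
      have e2 := mul_le_mul (hmw 1) hg2 (abs_nonneg _) (by positivity)
      linarith
    have h4 : (mx z : ℤ) ^ (2 * d - 1) = (mx z : ℤ) ^ d * (mx z : ℤ) ^ (d - 1) := by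
      rw [← pow_add]
      congr 1
      omega
    have h5 : (mx z : ℤ) ^ d * (mx z : ℤ) ^ (d - 1) ≤
        (2 * (g * mx ![a, b]) * P) * (mx z : ℤ) ^ (d - 1) := by
      have e1 : (mx z : ℤ) ^ (2 * d - 1) ≤ |r| * (mx z : ℤ) ^ (2 * d - 1) :=
        le_mul_of_one_le_left (by positivity) h1
      rw [← h4]
      linarith
    have h6 : (mx z : ℤ) ^ d ≤ 2 * (g * mx ![a, b]) * P :=
      le_of_mul_le_mul_right h5 (by positivity)
    have h7 : 2 * (g * mx ![a, b]) * P ≤ 2 * ((P * P) * mx ![a, b]) * P := by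
      refine mul_le_mul_of_nonneg_right ?_ (by linarith)
      refine mul_le_mul_of_nonneg_left ?_ (by norm_num)
      exact mul_le_mul_of_nonneg_right hgle (by positivity)
    have h8 : ((2 * C ^ 3 * X ^ (3 * A) * mx ![a, b] : ℕ) : ℤ) =
        2 * ((P * P) * mx ![a, b]) * P := by
      rw [hP]
      push_cast
      ring
    rw [h8]
    push_cast
    linarith
  rcases le_total (z 0).natAbs (z 1).natAbs with hle | hle
  · have hmx : |z 1| = mx z := by
      unfold mx
      rw [max_eq_right hle, Int.abs_eq_natAbs]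
    have hz1 : z 1 ≠ 0 := by
      intro h0
      rw [h0, abs_zero] at hmx
      have := mx_pos hz0
      omega
    obtain ⟨g1, g2, h1, h2, h3⟩ := b2 z (mx z) (le_mx z) hz1
    have := hkey (rsZ c) (z 1) g1 g2 hr hmx h1 h2 h3
    exact_mod_cast this
  · have hmx : |z 0| = mx z := by
      unfold mx
      rw [max_eq_left hle, Int.abs_eq_natAbs]
    have hz1 : z 0 ≠ 0 := by
      intro h0
      rw [h0, abs_zero] at hmx
      have := mx_pos hz0
      omega
    obtain ⟨g1, g2, h1, h2, h3⟩ := b2' zs (mx z) hmxs (by rw [hzs1]; exact hz1)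
    rw [hzs1, hacs] at h3
    have := hkey (rsZ (rv c)) (z 0) g1 g2 hr' hmx h1 h2 h3
    exact_mod_cast this

end Pool.Agent.R323
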