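import Pool.Agent.R323.Ar

/-!
# Orbits of integral vectors
-/

set_option autoImplicit false

namespace Pool.Agent.R323

open Polynomial

theorem wg_smul {R : Type*} [CommRing R] (a b : R) (x y : Fin 2 → R) :
    wg (a • x) (b • y) = a * b * wg x y := by
  simp only [wg, Pi.smul_apply, smul_eq_mul]
  ring

theorem wg_self {R : Type*} [CommRing R] (x : Fin 2 → R) : wg x x = 0 := by
  simp only [wg]
  ring

theorem wg_comm {R : Type*} [CommRing R] (x y : Fin 2 → R) : wg x y = -wg y x := by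
  simp only [wg]
  ring

/-- parallel coprime vectors -/
theorem par {x y : Fin 2 → ℤ} (hx : IsCoprime (x 0) (x 1)) (hy : IsCoprime (y 0) (y 1))
    (h : wg x y = 0) : ∃ u : ℤ, (u = 1 ∨ u = -1) ∧ y = u • x := by
  unfold wg at h
  have h1 : x 0 * y 1 = x 1 * y 0 := by linarith
  obtain ⟨a, b, hab⟩ := hx
  -- `y = (a y 0 + b y 1) x`
  have e : y = (a * y 0 + b * y 1) • x := by
    funext i
    fin_cases i
    · simp only [Fin.zero_eta, Pi.smul_apply, smul_eq_mul]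
      linear_combination (-y 0) * hab - b * h1
    · simp only [Fin.mk_one, Pi.smul_apply, smul_eq_mul]
      linear_combination (-y 1) * hab + a * h1
  refine ⟨a * y 0 + b * y 1, ?_, e⟩
  obtain ⟨a', b', hab'⟩ := hy
  have h2 : (a * y 0 + b * y 1) * (a' * x 0 + b' * x 1) = 1 := by
    have e0 : y 0 = (a * y 0 + b * y 1) * x 0 := by
      conv_lhs => rw [e]
      simp
    have e1 : y 1 = (a * y 0 + b * y 1) * x 1 := by
      conv_lhs => rw [e]
      simp
    calc (a * y 0 + b * y 1) * (a' * x 0 + b' * x 1) =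
        a' * ((a * y 0 + b * y 1) * x 0) + b' * ((a * y 0 + b * y 1) * x 1) := by ring
      _ = a' * y 0 + b' * y 1 := by rw [← e0, ← e1]
      _ = 1 := hab'
  exact Int.eq_one_or_neg_one_of_mul_eq_one h2

theorem mx_par {x y : Fin 2 → ℤ} (hx : IsCoprime (x 0) (x 1)) (hy : IsCoprime (y 0) (y 1))
    (h : wg x y = 0) : mx x = mx y := by
  obtain ⟨u, hu, rfl⟩ := par hx hy h
  unfold mx
  rcases hu with rfl | rfl <;> simp

section orb

variable {d : ℕ} {c : Fin 2 → Fin (d + 1) → ℤ}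

/-- orbits in lowest terms -/
structure Sq (c : Fin 2 → Fin (d + 1) → ℤ) (B : ℕ) (z : Fin 2 → ℤ) (Z : ℕ → Fin 2 → ℤ)
    (g : ℕ → ℤ) : Prop where
  zero : Z 0 = z
  co : ∀ n, IsCoprime (Z n 0) (Z n 1)
  gne : ∀ n, g n ≠ 0
  eq : ∀ n, ac c (Z n) = g n • Z (n + 1)
  le : ∀ n, (mx (Z n)) ^ d ≤ B * mx (Z (n + 1))

theorem Sq.ex (hd : 1 ≤ d) : ∃ C A : ℕ, 1 ≤ C ∧ ∀ X : ℕ, 1 ≤ X →
    ∀ c : Fin 2 → Fin (d + 1) → ℤ, (∀ i j, |c i j| ≤ (X : ℤ)) → NZ c →
    ∀ z : Fin 2 → ℤ, IsCoprime (z 0) (z 1) → ∃ Z g, Sq c (C * X ^ A) z Z g := by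
  obtain ⟨C, A, hC, H⟩ := step d hd
  refine ⟨C, A, hC, fun X hX c hc hNZ z hz => ?_⟩
  choose g z' hg hz' he hm using H X hX c hc hNZ
  let T := {z : Fin 2 → ℤ // IsCoprime (z 0) (z 1)}
  let nx : T → T := fun t => ⟨z' t.1 t.2, hz' t.1 t.2⟩
  refine ⟨fun n => (nx^[n] ⟨z, hz⟩).1, fun n => g (nx^[n] ⟨z, hz⟩).1 (nx^[n] ⟨z, hz⟩).2,
    ⟨rfl, fun n => (nx^[n] ⟨z, hz⟩).2, fun n => hg _ _, fun n => ?_, fun n => ?_⟩⟩
  · rw [Function.iterate_succ_apply']
    exact he _ _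
  · rw [Function.iterate_succ_apply']
    exact hm _ _

variable {B : ℕ} {z : Fin 2 → ℤ} {Z : ℕ → Fin 2 → ℤ} {g : ℕ → ℤ}

theorem Sq.iter (h : Sq c B z Z g) (n : ℕ) : ∃ G : ℤ, G ≠ 0 ∧ (ac c)^[n] z = G • Z n := by
  induction n with
  | zero => exact ⟨1, one_ne_zero, by rw [one_smul, h.zero]; rfl⟩
  | succ n ih =>
    obtain ⟨G, hG, hGe⟩ := ih
    refine ⟨G ^ d * g n, mul_ne_zero (pow_ne_zero _ hG) (h.gne n), ?_⟩
    rw [Function.iterate_succ_apply', hGe, ac_smul, h.eq, smul_smul]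

theorem Sq.wg_iff (h : Sq c B z Z g) (m n : ℕ) :
    wg ((ac c)^[m] z) ((ac c)^[n] z) = 0 ↔ wg (Z m) (Z n) = 0 := by
  obtain ⟨G, hG, e⟩ := h.iter m
  obtain ⟨G', hG', e'⟩ := h.iter n
  rw [e, e', wg_smul]
  constructor
  · intro h1
    exact (mul_eq_zero.1 h1).resolve_left (mul_ne_zero hG hG')
  · intro h1
    rw [h1, mul_zero]

theorem Sq.shift (h : Sq c B z Z g) {m n : ℕ} (h0 : wg (Z m) (Z n) = 0) (j : ℕ) :
    wg (Z (m + j)) (Z (n + j)) = 0 := by
  induction j with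
  | zero => exact h0
  | succ j ih =>
    obtain ⟨u, -, hu⟩ := par (h.co _) (h.co _) ih
    have h1 := h.eq (m + j)
    have h2 := h.eq (n + j)
    rw [hu, ac_smul, h1] at h2
    have h3 : wg (g (m + j) • Z (m + j + 1)) (g (n + j) • Z (n + j + 1)) = 0 := by
      rw [← h2, smul_smul, wg_smul, wg_self, mul_zero]
    rw [wg_smul] at h3
    exact (mul_eq_zero.1 h3).resolve_left (mul_ne_zero (h.gne _) (h.gne _))

theorem Sq.grow (h : Sq c B z Z g) (hd : 2 ≤ d) {n : ℕ} (hn : B < mx (Z n)) (j : ℕ) :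
    B < mx (Z (n + j)) ∧ mx (Z n) + j ≤ mx (Z (n + j)) := by
  induction j with
  | zero => exact ⟨hn, le_rfl⟩
  | succ j ih =>
    obtain ⟨h1, h2⟩ := ih
    have h3 := h.le (n + j)
    have h4 : (mx (Z (n + j))) ^ 2 ≤ (mx (Z (n + j))) ^ d :=
      Nat.pow_le_pow_right (by omega) hd
    have h5 : mx (Z (n + j)) < mx (Z (n + j + 1)) := by
      by_contra hcon
      push Not at hcon
      have h6 : B * mx (Z (n + j + 1)) ≤ B * mx (Z (n + j)) := Nat.mul_le_mul_left _ hcon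
      have h7 : B * mx (Z (n + j)) < mx (Z (n + j)) * mx (Z (n + j)) :=
        Nat.mul_lt_mul_of_pos_right h1 (by omega)
      rw [sq] at h4
      omega
    have e : n + (j + 1) = n + j + 1 := rfl
    rw [e]
    exact ⟨by omega, by omega⟩

/-- points of large height have infinite orbits -/
theorem Sq.inf (h : Sq c B z Z g) (hd : 2 ≤ d) (hn : B < mx z) {m n : ℕ} (hmn : m < n) :
    wg (Z m) (Z n) ≠ 0 := by
  intro h0
  have h1 := mx_par (h.co _) (h.co _) h0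
  have h2 : B < mx (Z 0) := by rw [h.zero]; exact hn
  have h3 := (h.grow hd h2 m).1
  rw [zero_add] at h3
  have h4 := (h.grow hd h3 (n - m)).2
  rw [show m + (n - m) = n by omega] at h4
  omega

/-- the orbit of a preperiodic point is bounded -/
theorem Sq.bdd (h : Sq c B z Z g) (hd : 2 ≤ d) {m n : ℕ} (hmn : m < n)
    (h0 : wg (Z m) (Z n) = 0) (k : ℕ) : mx (Z k) ≤ B := by
  by_contra hcon
  push Not at hcon
  have h1 := mx_par (h.co _) (h.co _) (h.shift h0 k)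
  have h2 := (h.grow hd hcon m).1
  have h3 := (h.grow hd h2 (n - m)).2
  rw [show k + m + (n - m) = n + k by omega] at h3
  rw [show m + k = k + m by omega] at h1
  omega

end orb

/-- **The orbit of a preperiodic point in lowest terms.** -/
theorem pre_orb (d : ℕ) (hd : 2 ≤ d) : ∃ C A : ℕ, 1 ≤ C ∧ ∀ X : ℕ, 1 ≤ X →
    ∀ c : Fin 2 → Fin (d + 1) → ℤ, (∀ i j, |c i j| ≤ (X : ℤ)) → NZ c →
    ∀ z : Fin 2 → ℤ, IsCoprime (z 0) (z 1) →
    (∃ m n, m < n ∧ wg ((ac c)^[m] z) ((ac c)^[n] z) = 0) → ∀ k, ∃ (G : ℤ) (z' : Fin 2 → ℤ),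
      G ≠ 0 ∧ IsCoprime (z' 0) (z' 1) ∧ (ac c)^[k] z = G • z' ∧ mx z' ≤ C * X ^ A := by
  obtain ⟨C, A, hC, H⟩ := Sq.ex (d := d) (by omega)
  refine ⟨C, A, hC, fun X hX c hc hNZ z hz hpre k => ?_⟩
  obtain ⟨Z, g, h⟩ := H X hX c hc hNZ z hz
  obtain ⟨m, n, hmn, h0⟩ := hpre
  rw [h.wg_iff] at h0
  obtain ⟨G, hG, he⟩ := h.iter k
  exact ⟨G, Z k, hG, h.co k, he, h.bdd hd hmn h0 k⟩

/-- degrees of the values of the forms -/
theorem ac_deg {R : Type*} [CommRing R] {d : ℕ} (c : Fin 2 → Fin (d + 1) → R)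
    (v : Fin 2 → R[X]) {e : ℕ} (hv : ∀ i, (v i).natDegree ≤ e) (i : Fin 2) :
    (ac (fun i j => C (c i j)) v i).natDegree ≤ e * d := by
  unfold ac
  refine Polynomial.natDegree_sum_le_of_forall_le _ _ fun j _ => ?_
  refine Polynomial.natDegree_mul_le.trans ?_
  show (C (c i j) * v 0 ^ (j : ℕ)).natDegree + (v 1 ^ (d - (j : ℕ))).natDegree ≤ e * d
  have h1 : (C (c i j) * v 0 ^ (j : ℕ)).natDegree ≤ e * (j : ℕ) := by
    refine (Polynomial.natDegree_C_mul_le _ _).trans ?_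
    refine Polynomial.natDegree_pow_le.trans ?_
    rw [mul_comm]
    exact Nat.mul_le_mul_right _ (hv 0)
  have h2 : (v 1 ^ (d - (j : ℕ))).natDegree ≤ e * (d - (j : ℕ)) := by
    refine Polynomial.natDegree_pow_le.trans ?_
    rw [mul_comm]
    exact Nat.mul_le_mul_right _ (hv 1)
  have h3 : e * (j : ℕ) + e * (d - (j : ℕ)) = e * d := by
    rw [← mul_add]
    congr 1
    have := j.2
    omega
  omega

theorem ac_iter_deg {R : Type*} [CommRing R] {d : ℕ} (c : Fin 2 → Fin (d + 1) → R)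
    (v : Fin 2 → R[X]) (hv : ∀ i, (v i).natDegree ≤ 1) (n : ℕ) (i : Fin 2) :
    ((ac (fun i j => C (c i j)))^[n] v i).natDegree ≤ d ^ n := by
  induction n generalizing i with
  | zero => simpa using hv i
  | succ n ih =>
    rw [Function.iterate_succ_apply', pow_succ]
    exact ac_deg c _ ih i

theorem wg_deg {R : Type*} [CommRing R] {x y : Fin 2 → R[X]} {a b : ℕ}
    (hx : ∀ i, (x i).natDegree ≤ a) (hy : ∀ i, (y i).natDegree ≤ b) :
    (wg x y).natDegree ≤ a + b := by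
  unfold wg
  refine (Polynomial.natDegree_sub_le _ _).trans (max_le ?_ ?_)
  · exact Polynomial.natDegree_mul_le.trans (Nat.add_le_add (hx 0) (hy 1))
  · exact Polynomial.natDegree_mul_le.trans (Nat.add_le_add (hx 1) (hy 0))

theorem wg_map {R S : Type*} [CommRing R] [CommRing S] (φ : R →+* S) (x y : Fin 2 → R) :
    φ (wg x y) = wg (fun i => φ (x i)) (fun i => φ (y i)) := by
  simp [wg]

/-- the number of points with short orbits -/
theorem short_card {d : ℕ} (hd : 2 ≤ d) {c : Fin 2 → Fin (d + 1) → ℤ} (hNZ : NZ c) {i j : ℕ}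
    (hij : i < j) (P : Finset (Fin 2 → ℤ)) (hco : ∀ z ∈ P, IsCoprime (z 0) (z 1))
    (hP : ∀ z ∈ P, ∀ z' ∈ P, z ≠ z' → wg z z' ≠ 0) (h1 : ∀ z ∈ P, z 1 ≠ 0)
    (h0 : ∀ z ∈ P, wg ((ac c)^[i] z) ((ac c)^[j] z) = 0) : P.card ≤ d ^ i + d ^ j := by
  classical
  -- the polynomial
  set c' : Fin 2 → Fin (d + 1) → ℚ := fun i j => (c i j : ℚ) with hc'
  set Pn : ℕ → Fin 2 → ℚ[X] := fun n => (ac (fun i j => C (c' i j)))^[n] ![X, 1] with hPn
  have hv : ∀ i, ((![X, 1] : Fin 2 → ℚ[X]) i).natDegree ≤ 1 := by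
    intro i
    fin_cases i <;> simp
  have hev : ∀ (t : ℚ) (n : ℕ), (fun i => (Pn n i).eval t) = (ac c')^[n] ![t, 1] := by
    intro t n
    have h2 := ac_iter_map (Polynomial.evalRingHom t) (fun i j => C (c' i j))
      (![X, 1] : Fin 2 → ℚ[X]) n
    simp only [Polynomial.coe_evalRingHom, Polynomial.eval_C] at h2
    have e : (fun i => Polynomial.eval t ((![X, 1] : Fin 2 → ℚ[X]) i)) = ![t, 1] := by
      funext i
      fin_cases i <;> simp
    rw [e] at h2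
    exact h2
  have hz : ∀ (z : Fin 2 → ℤ) (n : ℕ), z 1 ≠ 0 → (fun i => (((ac c)^[n] z i : ℤ) : ℚ)) =
      (z 1 : ℚ) ^ (d ^ n) • (ac c')^[n] ![(z 0 : ℚ) / z 1, 1] := by
    intro z n hz1
    have h2 := ac_iter_map (Int.castRingHom ℚ) c z n
    simp only [eq_intCast] at h2
    rw [h2, ← ac_iter_smul]
    congr 1
    funext i
    have hz1' : (z 1 : ℚ) ≠ 0 := by exact_mod_cast hz1
    fin_cases i
    · simp [mul_div_cancel₀, hz1']
    · simp
  set Φ : ℚ[X] := wg (Pn i) (Pn j) with hΦ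
  have hΦdeg : Φ.natDegree ≤ d ^ i + d ^ j :=
    wg_deg (fun k => ac_iter_deg c' _ hv i k) (fun k => ac_iter_deg c' _ hv j k)
  have hΦz : ∀ z : Fin 2 → ℤ, z 1 ≠ 0 →
      ((wg ((ac c)^[i] z) ((ac c)^[j] z) : ℤ) : ℚ) =
      (z 1 : ℚ) ^ (d ^ i) * (z 1 : ℚ) ^ (d ^ j) * Φ.eval ((z 0 : ℚ) / z 1) := by
    intro z hz1
    have h2 := wg_map (Int.castRingHom ℚ) ((ac c)^[i] z) ((ac c)^[j] z)
    simp only [eq_intCast] at h2
    rw [h2, hz z i hz1, hz z j hz1, wg_smul, ← hev, ← hev]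
    congr 1
    have h3 := wg_map (Polynomial.evalRingHom ((z 0 : ℚ) / z 1)) (Pn i) (Pn j)
    simp only [Polynomial.coe_evalRingHom] at h3
    exact h3.symm
  have hΦ0 : Φ ≠ 0 := by
    intro hcon
    obtain ⟨C0, A0, -, H⟩ := Sq.ex (d := d) (by omega)
    obtain ⟨X0, hX0, hcX⟩ : ∃ X0 : ℕ, 1 ≤ X0 ∧ ∀ i j, |c i j| ≤ (X0 : ℤ) := by
      refine ⟨(∑ i, ∑ j, (c i j).natAbs) + 1, by omega, fun i j => ?_⟩
      have e1 : (c i j).natAbs ≤ ∑ j, (c i j).natAbs :=
        Finset.single_le_sum (f := fun j => (c i j).natAbs) (fun _ _ => Nat.zero_le _)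
          (Finset.mem_univ j)
      have e2 : ∑ j, (c i j).natAbs ≤ ∑ i, ∑ j, (c i j).natAbs :=
        Finset.single_le_sum (f := fun i => ∑ j, (c i j).natAbs) (fun _ _ => Nat.zero_le _)
          (Finset.mem_univ i)
      rw [Int.abs_eq_natAbs]
      exact_mod_cast (by omega : (c i j).natAbs ≤ (∑ i, ∑ j, (c i j).natAbs) + 1)
    obtain ⟨z, hz⟩ : ∃ z : Fin 2 → ℤ, z = ![((C0 * X0 ^ A0 + 1 : ℕ) : ℤ), 1] := ⟨_, rfl⟩
    have hz0' : z 0 = ((C0 * X0 ^ A0 + 1 : ℕ) : ℤ) := by rw [hz]; rfl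
    have hz1' : z 1 = 1 := by rw [hz]; rfl
    have hzc : IsCoprime (z 0) (z 1) := by rw [hz1']; exact isCoprime_one_right
    obtain ⟨Z, g, h⟩ := H X0 hX0 c hcX hNZ z hzc
    have hmz : C0 * X0 ^ A0 < mx z := by
      unfold mx
      refine lt_of_lt_of_le ?_ (le_max_left _ _)
      rw [hz0', Int.natAbs_natCast]
      omega
    have h2 := h.inf hd hmz hij
    have h3 := hΦz z (by rw [hz1']; exact one_ne_zero)
    rw [hcon, Polynomial.eval_zero, mul_zero] at h3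
    have h4 : wg ((ac c)^[i] z) ((ac c)^[j] z) = 0 := by exact_mod_cast h3
    rw [h.wg_iff] at h4
    exact h2 h4
  have hinj : Set.InjOn (fun z : Fin 2 → ℤ => (z 0 : ℚ) / z 1) (P : Set (Fin 2 → ℤ)) := by
    intro z hz z' hz' he
    by_contra hne
    apply hP z hz z' hz' hne
    have a1 : (z 1 : ℚ) ≠ 0 := by exact_mod_cast h1 z hz
    have a2 : (z' 1 : ℚ) ≠ 0 := by exact_mod_cast h1 z' hz'
    simp only at he
    rw [div_eq_div_iff a1 a2] at he
    have he' : z 0 * z' 1 = z' 0 * z 1 := by exact_mod_cast he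
    unfold wg
    linarith
  calc P.card = (P.image fun z : Fin 2 → ℤ => (z 0 : ℚ) / z 1).card :=
        (Finset.card_image_of_injOn hinj).symm
    _ ≤ Φ.roots.toFinset.card := by
        refine Finset.card_le_card fun t ht => ?_
        obtain ⟨z, hz, rfl⟩ := Finset.mem_image.1 ht
        rw [Multiset.mem_toFinset, Polynomial.mem_roots hΦ0, Polynomial.IsRoot.def]
        have h2 := hΦz z (h1 z hz)
        rw [h0 z hz] at h2
        have a1 : (z 1 : ℚ) ≠ 0 := by exact_mod_cast h1 z hz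
        have h3 := h2.symm
        push_cast at h3
        exact (mul_eq_zero.1 h3).resolve_left (mul_ne_zero (pow_ne_zero _ a1) (pow_ne_zero _ a1))
    _ ≤ Multiset.card Φ.roots := Multiset.toFinset_card_le _
    _ ≤ Φ.natDegree := Polynomial.card_roots' _
    _ ≤ _ := hΦdeg

/-- **Points with long orbits.** -/
theorem long {d : ℕ} (hd : 2 ≤ d) (L : ℕ) {c : Fin 2 → Fin (d + 1) → ℤ} (hNZ : NZ c)
    (P : Finset (Fin 2 → ℤ)) (hco : ∀ z ∈ P, IsCoprime (z 0) (z 1))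
    (hP : ∀ z ∈ P, ∀ z' ∈ P, z ≠ z' → wg z z' ≠ 0)
    (hcard : (L + 1) * ((L + 1) * (2 * d ^ L)) + 1 < P.card) :
    ∃ z ∈ P, ∀ i j, i < j → j ≤ L → wg ((ac c)^[i] z) ((ac c)^[j] z) ≠ 0 := by
  classical
  by_contra hcon
  push Not at hcon
  have hcov : P ⊆ (P.filter fun z => z 1 = 0) ∪
      ((Finset.range (L + 1)).biUnion fun i => (Finset.range (L + 1)).biUnion fun j =>
        P.filter fun z => z 1 ≠ 0 ∧ i < j ∧ wg ((ac c)^[i] z) ((ac c)^[j] z) = 0) := by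
    intro z hz
    by_cases h1 : z 1 = 0
    · exact Finset.mem_union_left _ (Finset.mem_filter.2 ⟨hz, h1⟩)
    · obtain ⟨i, j, hij, hj, h⟩ := hcon z hz
      refine Finset.mem_union_right _ ?_
      rw [Finset.mem_biUnion]
      refine ⟨i, Finset.mem_range.2 (by omega), ?_⟩
      rw [Finset.mem_biUnion]
      exact ⟨j, Finset.mem_range.2 (by omega), Finset.mem_filter.2 ⟨hz, h1, hij, h⟩⟩
  have h1 : (P.filter fun z => z 1 = 0).card ≤ 1 := by
    rw [Finset.card_le_one]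
    intro z hz z' hz'
    rw [Finset.mem_filter] at hz hz'
    by_contra hne
    apply hP z hz.1 z' hz'.1 hne
    unfold wg
    rw [hz.2, hz'.2]
    ring
  have h2 : ((Finset.range (L + 1)).biUnion fun i => (Finset.range (L + 1)).biUnion fun j =>
        P.filter fun z => z 1 ≠ 0 ∧ i < j ∧ wg ((ac c)^[i] z) ((ac c)^[j] z) = 0).card ≤
      (L + 1) * ((L + 1) * (2 * d ^ L)) := by
    refine (Finset.card_biUnion_le_card_mul _ _ ((L + 1) * (2 * d ^ L)) fun i hi => ?_).trans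
      (by rw [Finset.card_range])
    refine (Finset.card_biUnion_le_card_mul _ _ (2 * d ^ L) fun j hj => ?_).trans
      (by rw [Finset.card_range])
    rw [Finset.mem_range] at hi hj
    by_cases hij : i < j
    · refine (short_card hd hNZ hij _ (fun z hz => hco z (Finset.mem_filter.1 hz).1)
        (fun z hz z' hz' => hP z (Finset.mem_filter.1 hz).1 z' (Finset.mem_filter.1 hz').1)
        (fun z hz => (Finset.mem_filter.1 hz).2.1)
        (fun z hz => (Finset.mem_filter.1 hz).2.2.2)).trans ?_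
      have e1 : d ^ i ≤ d ^ L := Nat.pow_le_pow_right (by omega) (by omega)
      have e2 : d ^ j ≤ d ^ L := Nat.pow_le_pow_right (by omega) (by omega)
      omega
    · rw [Finset.filter_false_of_mem]
      · simp
      · intro z _ h
        exact hij h.2.1
  have h3 := (Finset.card_le_card hcov).trans (Finset.card_union_le _ _)
  omega

end Pool.Agent.R323
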