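import Pool.Agent.R323.Ar2

/-!
# Maps with an orbit with the same cross ratios are conjugate
-/

set_option autoImplicit false

namespace Pool.Agent.R323

open Polynomial

section

variable {K : Type*} [Field K] {d : ℕ}

theorem par_field {x y : Fin 2 → K} (hx : x ≠ 0) (h : wg x y = 0) : ∃ s : K, y = s • x := by
  have h1 : x 0 * y 1 = x 1 * y 0 := by
    unfold wg at h
    linear_combination h
  by_cases h0 : x 0 = 0
  · have hx1 : x 1 ≠ 0 := by
      intro h2
      apply hx
      funext i
      fin_cases i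
      · exact h0
      · exact h2
    have hy0 : y 0 = 0 := by
      rw [h0, zero_mul] at h1
      exact (mul_eq_zero.1 h1.symm).resolve_left hx1
    refine ⟨y 1 / x 1, ?_⟩
    funext i
    fin_cases i
    · simp [h0, hy0]
    · simp [hx1]
  · refine ⟨y 0 / x 0, ?_⟩
    funext i
    fin_cases i
    · simp [h0]
    · simp only [Fin.mk_one, Pi.smul_apply, smul_eq_mul]
      field_simp
      linear_combination h1

/-- the defect of conjugacy -/
def Psi (A : Matrix (Fin 2) (Fin 2) K) (c c' : Fin 2 → Fin (d + 1) → K) (v : Fin 2 → K) : K :=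
  wg (ac c' (A.mulVec v)) (A.mulVec (ac c v))

theorem Psi_smul (A : Matrix (Fin 2) (Fin 2) K) (c c' : Fin 2 → Fin (d + 1) → K) (s : K)
    (v : Fin 2 → K) : Psi A c c' (s • v) = s ^ d * s ^ d * Psi A c c' v := by
  unfold Psi
  rw [Matrix.mulVec_smul, ac_smul, ac_smul, Matrix.mulVec_smul, wg_smul]

theorem mulVec_two {R : Type*} [CommRing R] (A : Matrix (Fin 2) (Fin 2) R) (v : Fin 2 → R)
    (i : Fin 2) : A.mulVec v i = A i 0 * v 0 + A i 1 * v 1 := by
  simp [Matrix.mulVec, dotProduct, Fin.sum_univ_two]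

theorem chart (A : Matrix (Fin 2) (Fin 2) K) (c c' : Fin 2 → Fin (d + 1) → K)
    (u : Fin 2 → K[X]) (hu : ∀ i, (u i).natDegree ≤ 1) (s τ : (Fin 2 → K) → K)
    (hs : ∀ v, s v ≠ 0 → v = s v • (fun i => (u i).eval (τ v)))
    (hs0 : ∀ v v', s v = 0 → s v' = 0 → wg v v' = 0)
    (x : ℕ → Fin 2 → K) (hx : ∀ i j, i < j → j < 2 * d + 2 → wg (x i) (x j) ≠ 0)
    (h0 : ∀ i, i < 2 * d + 2 → Psi A c c' (x i) = 0) :
    ∀ v, s v ≠ 0 → Psi A c c' v = 0 := by
  classical
  set p : K[X] := wg (ac (fun i j => C (c' i j)) (fun i => C (A i 0) * u 0 + C (A i 1) * u 1))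
    (fun i => C (A i 0) * ac (fun i j => C (c i j)) u 0 +
      C (A i 1) * ac (fun i j => C (c i j)) u 1) with hp
  have hev : ∀ t : K, p.eval t = Psi A c c' (fun i => (u i).eval t) := by
    intro t
    have h1 := wg_map (Polynomial.evalRingHom t)
      (ac (fun i j => C (c' i j)) (fun i => C (A i 0) * u 0 + C (A i 1) * u 1))
      (fun i => C (A i 0) * ac (fun i j => C (c i j)) u 0 +
      C (A i 1) * ac (fun i j => C (c i j)) u 1)
    have h2 := ac_map (Polynomial.evalRingHom t) (fun i j => C (c' i j))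
      (fun i => C (A i 0) * u 0 + C (A i 1) * u 1)
    have h3 := ac_map (Polynomial.evalRingHom t) (fun i j => C (c i j)) u
    simp only [Polynomial.coe_evalRingHom, Polynomial.eval_C, Polynomial.eval_add,
      Polynomial.eval_mul] at h1 h2 h3
    rw [hp, h1]
    unfold Psi
    congr 1
    · rw [h2]
      congr 1
      funext i
      rw [mulVec_two]
    · funext i
      rw [mulVec_two, ← h3]
  have hdeg : p.natDegree ≤ d + d := by
    refine wg_deg (fun i => ?_) (fun i => ?_)
    · have h1 := ac_deg c' (fun i => C (A i 0) * u 0 + C (A i 1) * u 1) (e := 1) (fun i => ?_) i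
      · rwa [one_mul] at h1
      · refine (Polynomial.natDegree_add_le _ _).trans (max_le ?_ ?_)
        · exact (Polynomial.natDegree_C_mul_le _ _).trans (hu 0)
        · exact (Polynomial.natDegree_C_mul_le _ _).trans (hu 1)
    · have h1 := fun i => ac_deg c u (e := 1) hu i
      refine (Polynomial.natDegree_add_le _ _).trans (max_le ?_ ?_)
      · refine (Polynomial.natDegree_C_mul_le _ _).trans ((h1 0).trans (by omega))
      · refine (Polynomial.natDegree_C_mul_le _ _).trans ((h1 1).trans (by omega))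
  have hp0 : p = 0 := by
    set T := (Finset.range (2 * d + 2)).filter fun n => s (x n) ≠ 0 with hT
    have hTc : 2 * d + 1 ≤ T.card := by
      have h1 : ((Finset.range (2 * d + 2)).filter fun n => ¬ s (x n) ≠ 0).card ≤ 1 := by
        rw [Finset.card_le_one]
        intro i hi j hj
        rw [Finset.mem_filter, Finset.mem_range, not_not] at hi hj
        by_contra hne
        rcases Nat.lt_or_gt_of_ne hne with h | h
        · exact hx i j h hj.1 (hs0 _ _ hi.2 hj.2)
        · exact hx j i h hi.1 (hs0 _ _ hj.2 hi.2)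
      have h2 := Finset.card_filter_add_card_filter_not (s := Finset.range (2 * d + 2))
        (fun n => s (x n) ≠ 0)
      rw [Finset.card_range, ← hT] at h2
      omega
    have hinj : Set.InjOn (fun n => τ (x n)) (T : Set ℕ) := by
      intro i hi j hj hij
      rw [Finset.mem_coe, hT, Finset.mem_filter, Finset.mem_range] at hi hj
      simp only at hij
      by_contra hne
      have e1 := hs (x i) hi.2
      have e2 := hs (x j) hj.2
      rw [hij] at e1
      have h3 : wg (x i) (x j) = 0 := by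
        refine (congrArg₂ wg e1 e2).trans ?_
        rw [wg_smul, wg_self, mul_zero]
      rcases Nat.lt_or_gt_of_ne hne with h | h
      · exact hx i j h hj.1 h3
      · refine hx j i h hi.1 ?_
        rw [wg_comm, h3, neg_zero]
    refine Polynomial.eq_zero_of_natDegree_lt_card_of_eval_eq_zero' p (T.image fun n => τ (x n))
      (fun t ht => ?_) ?_
    · obtain ⟨n, hn, rfl⟩ := Finset.mem_image.1 ht
      rw [hT, Finset.mem_filter, Finset.mem_range] at hn
      rw [hev]
      have h1 := h0 n hn.1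
      rw [hs (x n) hn.2, Psi_smul] at h1
      have h2 : s (x n) ^ d * s (x n) ^ d ≠ 0 :=
        mul_ne_zero (pow_ne_zero _ hn.2) (pow_ne_zero _ hn.2)
      exact (mul_eq_zero.1 h1).resolve_left h2
    · rw [Finset.card_image_of_injOn hinj]
      omega
  intro v hv
  rw [hs v hv, Psi_smul, ← hev, hp0, Polynomial.eval_zero, mul_zero]

/-- **Conjugacy from cross ratios.** -/
theorem conj_of_cross (c c' : Fin 2 → Fin (d + 1) → K) (hc : ∀ v, v ≠ 0 → ac c v ≠ 0)
    (hc' : ∀ v, v ≠ 0 → ac c' v ≠ 0) (x x' : ℕ → Fin 2 → K) (hx : ∀ n, x (n + 1) = ac c (x n))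
    (hx' : ∀ n, x' (n + 1) = ac c' (x' n))
    (hxx : ∀ i j, i < j → j ≤ 2 * d + 2 → wg (x i) (x j) ≠ 0)
    (hxx' : ∀ i j, i < j → j ≤ 2 * d + 2 → wg (x' i) (x' j) ≠ 0)
    (hχ : ∀ n, 3 ≤ n → n ≤ 2 * d + 2 →
      wg (x n) (x 1) * wg (x 0) (x 2) * (wg (x' 0) (x' n) * wg (x' 2) (x' 1)) =
      wg (x' n) (x' 1) * wg (x' 0) (x' 2) * (wg (x 0) (x n) * wg (x 2) (x 1))) :
    ∃ A : Matrix (Fin 2) (Fin 2) K, A.det ≠ 0 ∧
      ∀ v, v ≠ 0 → ∃ s : K, s ≠ 0 ∧ ac c' (A.mulVec v) = s • A.mulVec (ac c v) := by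
  have h01 := hxx 0 1 (by omega) (by omega)
  have h02 := hxx 0 2 (by omega) (by omega)
  have h12 := hxx 1 2 (by omega) (by omega)
  have h21 : wg (x 2) (x 1) ≠ 0 := by
    rw [wg_comm]
    exact neg_ne_zero.2 h12
  have h01' := hxx' 0 1 (by omega) (by omega)
  have h02' := hxx' 0 2 (by omega) (by omega)
  have h12' := hxx' 1 2 (by omega) (by omega)
  have h21' : wg (x' 2) (x' 1) ≠ 0 := by
    rw [wg_comm]
    exact neg_ne_zero.2 h12'
  set a := wg (x 2) (x 1) • x 0 with ha
  set b := wg (x 0) (x 2) • x 1 with hb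
  set a' := wg (x' 2) (x' 1) • x' 0 with ha'
  set b' := wg (x' 0) (x' 2) • x' 1 with hb'
  set A : Matrix (Fin 2) (Fin 2) K := Matrix.of ![![b 1 * a' 0 - a 1 * b' 0, a 0 * b' 0 - b 0 * a' 0],
    ![b 1 * a' 1 - a 1 * b' 1, a 0 * b' 1 - b 0 * a' 1]] with hA
  have hAv : ∀ v, A.mulVec v = wg v b • a' + wg a v • b' := by
    intro v
    funext i
    rw [mulVec_two]
    fin_cases i
    · simp only [hA, Matrix.of_apply, Fin.zero_eta, Matrix.cons_val_zero, Matrix.cons_val_one,
        Pi.add_apply, Pi.smul_apply, smul_eq_mul, wg]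
      ring
    · simp only [hA, Matrix.of_apply, Fin.mk_one, Matrix.cons_val_zero, Matrix.cons_val_one,
        Pi.add_apply, Pi.smul_apply, smul_eq_mul, wg]
      ring
  have hWab : wg a b ≠ 0 := by
    rw [ha, hb, wg_smul]
    exact mul_ne_zero (mul_ne_zero h21 h02) h01
  have hWab' : wg a' b' ≠ 0 := by
    rw [ha', hb', wg_smul]
    exact mul_ne_zero (mul_ne_zero h21' h02') h01'
  have hdet : A.det = wg a b * wg a' b' := by
    rw [Matrix.det_fin_two]
    simp only [hA, Matrix.of_apply, Matrix.cons_val_zero, Matrix.cons_val_one, wg]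
    ring
  have hdet0 : A.det ≠ 0 := by
    rw [hdet]
    exact mul_ne_zero hWab hWab'
  have hA0 : ∀ v, v ≠ 0 → A.mulVec v ≠ 0 := by
    intro v hv h
    apply hv
    exact Matrix.eq_zero_of_mulVec_eq_zero hdet0 h
  -- the images of the points
  have hpar : ∀ n, n ≤ 2 * d + 2 → wg (x' n) (A.mulVec (x n)) = 0 := by
    intro n hn
    have e1 : wg (x' n) (A.mulVec (x n)) =
        -(wg (x n) b * wg a' (x' n) - wg a (x n) * wg (x' n) b') := by
      rw [hAv]
      simp only [wg, Pi.add_apply, Pi.smul_apply, smul_eq_mul]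
      ring
    have e2 : wg (x n) b = wg (x 0) (x 2) * wg (x n) (x 1) := by
      rw [hb]
      simp only [wg, Pi.smul_apply, smul_eq_mul]
      ring
    have e3 : wg a (x n) = wg (x 2) (x 1) * wg (x 0) (x n) := by
      rw [ha]
      simp only [wg, Pi.smul_apply, smul_eq_mul]
      ring
    have e4 : wg (x' n) b' = wg (x' 0) (x' 2) * wg (x' n) (x' 1) := by
      rw [hb']
      simp only [wg, Pi.smul_apply, smul_eq_mul]
      ring
    have e5 : wg a' (x' n) = wg (x' 2) (x' 1) * wg (x' 0) (x' n) := by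
      rw [ha']
      simp only [wg, Pi.smul_apply, smul_eq_mul]
      ring
    rw [e1, e2, e3, e4, e5, neg_eq_zero]
    rcases Nat.lt_or_ge n 3 with h | h
    · interval_cases n
      · rw [wg_self, wg_self]
        ring
      · rw [wg_self, wg_self]
        ring
      · ring
    · have := hχ n h hn
      linear_combination this
  have hxne : ∀ n, n ≤ 2 * d + 1 → x n ≠ 0 := by
    intro n hn h
    apply hxx n (n + 1) (by omega) (by omega)
    rw [h]
    simp [wg]
  have hxne' : ∀ n, n ≤ 2 * d + 1 → x' n ≠ 0 := by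
    intro n hn h
    apply hxx' n (n + 1) (by omega) (by omega)
    rw [h]
    simp [wg]
  have hxne2 : x' (2 * d + 2) ≠ 0 := by
    intro h
    apply hxx' (2 * d + 1) (2 * d + 2) (by omega) (by omega)
    rw [h]
    simp [wg]
  have hPsi : ∀ i, i < 2 * d + 2 → Psi A c c' (x i) = 0 := by
    intro i hi
    have hn1 : x' i ≠ 0 := hxne' i (by omega)
    have hn2 : x' (i + 1) ≠ 0 := by
      rcases Nat.lt_or_ge (i + 1) (2 * d + 2) with h | h
      · exact hxne' (i + 1) (by omega)
      · rw [show i + 1 = 2 * d + 2 by omega]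
        exact hxne2
    obtain ⟨s, hs⟩ := par_field hn1 (hpar i (by omega))
    obtain ⟨s', hs'⟩ := par_field hn2 (hpar (i + 1) (by omega))
    unfold Psi
    rw [hs, ac_smul, ← hx', ← hx, hs', wg_smul, wg_self, mul_zero]
  have hPsi0 : ∀ v, v ≠ 0 → Psi A c c' v = 0 := by
    intro v hv
    by_cases h1 : v 1 = 0
    · have h0 : v 0 ≠ 0 := by
        intro h0
        apply hv
        funext i
        fin_cases i
        · exact h0
        · exact h1
      refine chart A c c' ![1, X] ?_ (fun v => v 0) (fun v => v 1 / v 0) ?_ ?_ x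
        (fun i j hij hj => hxx i j hij (by omega)) hPsi v h0
      · intro i
        fin_cases i <;> simp
      · intro v hv
        funext i
        fin_cases i
        · simp
        · simp [mul_div_cancel₀, hv]
      · intro v v' h h'
        simp [wg, h, h']
    · refine chart A c c' ![X, 1] ?_ (fun v => v 1) (fun v => v 0 / v 1) ?_ ?_ x
        (fun i j hij hj => hxx i j hij (by omega)) hPsi v h1
      · intro i
        fin_cases i <;> simp
      · intro v hv
        funext i
        fin_cases i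
        · simp [mul_div_cancel₀, hv]
        · simp
      · intro v v' h h'
        simp [wg, h, h']
  refine ⟨A, hdet0, fun v hv => ?_⟩
  have h1 := hPsi0 v hv
  unfold Psi at h1
  rw [wg_comm, neg_eq_zero] at h1
  obtain ⟨s, hs⟩ := par_field (hA0 _ (hc v hv)) h1
  refine ⟨s, ?_, hs⟩
  rintro rfl
  rw [zero_smul] at hs
  exact hc' _ (hA0 v hv) hs

end

end Pool.Agent.R323
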