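import Pool.Agent.R323.Few

/-!
# The core theorem: two conjugate maps in a large family
-/

set_option autoImplicit false

namespace Pool.Agent.R323

open Filter MvPolynomial Pool.Agent.Y902.GN

/-- conjugacy over `ℚ` -/
def CjQ {d : ℕ} (c c' : Fin 2 → Fin (d + 1) → ℤ) : Prop :=
  ∃ A : Matrix (Fin 2) (Fin 2) ℚ, A.det ≠ 0 ∧ ∀ v : Fin 2 → ℚ, v ≠ 0 → ∃ s : ℚ, s ≠ 0 ∧
    ac (fun i j => (c' i j : ℚ)) (A.mulVec v) = s • A.mulVec (ac (fun i j => (c i j : ℚ)) v)

/-- the index type -/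
abbrev Ix (d : ℕ) : Type := (Fin 2 × Fin (d + 1)) ⊕ Fin 2

/-- the number of parameters -/
abbrev Nd (d : ℕ) : ℕ := Fintype.card (Ix d)

/-- the numbering -/
noncomputable def ee (d : ℕ) : Ix d ≃ Fin (Nd d) := Fintype.equivFin (Ix d)

section gen

variable {d : ℕ} {R : Type*} [CommRing R]

/-- the coefficients -/
noncomputable def cfo (t : Fin (Nd d) → R) : Fin 2 → Fin (d + 1) → R :=
  fun i j => t (ee d (Sum.inl (i, j)))

/-- the point -/
noncomputable def zfo (t : Fin (Nd d) → R) : Fin 2 → R := fun i => t (ee d (Sum.inr i))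

/-- the parameter -/
noncomputable def enc (c : Fin 2 → Fin (d + 1) → R) (z : Fin 2 → R) : Fin (Nd d) → R :=
  fun q => Sum.elim (fun k => c k.1 k.2) z ((ee d).symm q)

theorem cfo_enc (c : Fin 2 → Fin (d + 1) → R) (z : Fin 2 → R) : cfo (enc c z) = c := by
  funext i j
  simp [cfo, enc]

theorem zfo_enc (c : Fin 2 → Fin (d + 1) → R) (z : Fin 2 → R) : zfo (enc c z) = z := by
  funext i
  simp [zfo, enc]

end gen

/-- the orbit of the generic point -/
noncomputable def wZ (d n : ℕ) : Fin 2 → MvPolynomial (Fin (Nd d)) ℤ :=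
  (ac (cfo X))^[n] (zfo X)

theorem wZ_succ (d n : ℕ) : wZ d (n + 1) = ac (cfo X) (wZ d n) :=
  Function.iterate_succ_apply' _ _ _

theorem eval_wZ {d : ℕ} (t : Fin (Nd d) → ℤ) (n : ℕ) :
    (fun i => eval t (wZ d n i)) = (ac (cfo t))^[n] (zfo t) := by
  have h := ac_iter_map (eval t) (cfo X) (zfo X) n
  have e1 : (fun i j => eval t (cfo X i j)) = cfo (d := d) t := by
    funext i j
    simp [cfo]
  have e2 : (fun i => eval t (zfo X i)) = zfo (d := d) t := by
    funext i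
    simp [zfo]
  rw [e1, e2] at h
  exact h

theorem eval_wg {d : ℕ} (t : Fin (Nd d) → ℤ) (m n : ℕ) :
    eval t (wg (wZ d m) (wZ d n)) = wg ((ac (cfo t))^[m] (zfo t)) ((ac (cfo t))^[n] (zfo t)) := by
  rw [wg_map, eval_wZ, eval_wZ]

theorem core {d : ℕ} (hd : 2 ≤ d) {Y : ℕ → ℕ} (hY : ∀ m : ℕ, ∀ᶠ ν in (Uf : Filter ℕ), m ≤ Y ν)
    {Om₀ : ℕ → Finset (Fin (Nd d) → ℤ)} (hbig : Big Y Om₀) (hb₀ : Bd Y Om₀)
    (hNZ₀ : ∀ᶠ ν in (Uf : Filter ℕ), ∀ t ∈ Om₀ ν, NZ (cfo t))
    (hlong₀ : ∀ L, ∀ᶠ ν in (Uf : Filter ℕ), ∀ t ∈ Om₀ ν, ∀ i j, i < j → j ≤ L →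
      wg ((ac (cfo t))^[i] (zfo t)) ((ac (cfo t))^[j] (zfo t)) ≠ 0)
    (horb₀ : ∀ k, ∀ᶠ ν in (Uf : Filter ℕ), ∀ t ∈ Om₀ ν, ∃ (G : ℤ) (z' : Fin 2 → ℤ), G ≠ 0 ∧
      IsCoprime (z' 0) (z' 1) ∧ (ac (cfo t))^[k] (zfo t) = G • z' ∧ ∀ i, |z' i| ≤ (Y ν : ℤ)) :
    ∀ᶠ ν in (Uf : Filter ℕ), ∃ t ∈ Om₀ ν, ∃ t' ∈ Om₀ ν, t ≠ t' ∧ CjQ (cfo t) (cfo t') := by
  classical
  obtain ⟨Om, hsub, hG⟩ := Gen.ex hbig
  obtain ⟨F⟩ := FF.ex Pool.Agent.Y394.GN.t hY hG
  have hprime := hG.isPrime hY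
  have hb : Bd Y Om := by
    filter_upwards [hb₀, hsub] with ν h1 h2 t ht
    exact h1 t (h2 ht)
  have hNZ : ∀ᶠ ν in (Uf : Filter ℕ), ∀ t ∈ Om ν, NZ (cfo t) := by
    filter_upwards [hNZ₀, hsub] with ν h1 h2 t ht
    exact h1 t (h2 ht)
  have hlong : ∀ L, ∀ᶠ ν in (Uf : Filter ℕ), ∀ t ∈ Om ν, ∀ i j, i < j → j ≤ L →
      wg ((ac (cfo t))^[i] (zfo t)) ((ac (cfo t))^[j] (zfo t)) ≠ 0 := by
    intro L
    filter_upwards [hlong₀ L, hsub] with ν h1 h2 t ht
    exact h1 t (h2 ht)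
  have horb : ∀ k, ∀ᶠ ν in (Uf : Filter ℕ), ∀ t ∈ Om ν, ∃ (G : ℤ) (z' : Fin 2 → ℤ), G ≠ 0 ∧
      IsCoprime (z' 0) (z' 1) ∧ (ac (cfo t))^[k] (zfo t) = G • z' ∧
      ∀ i, |z' i| ≤ (Y ν : ℤ) := by
    intro k
    filter_upwards [horb₀ k, hsub] with ν h1 h2 t ht
    exact h1 t (h2 ht)
  obtain ⟨D, hD⟩ := relation hY hG F hb
  -- the generic objects
  let φ : MvPolynomial (Fin (Nd d)) ℤ →+* MvPolynomial (Fin (Nd d)) (OO Y) :=
    MvPolynomial.map (Int.castRingHom (OO Y))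
  have hwne : ∀ m n, m ≠ n → φ (wg (wZ d m) (wZ d n)) ∉ JI Y Om := by
    intro m n hmn
    refine notMem_int hG.1 _ ?_
    filter_upwards [hlong (max m n)] with ν h1 t ht
    rw [eval_wg]
    rcases Nat.lt_or_gt_of_ne hmn with h | h
    · exact h1 t ht m n h (le_max_right _ _)
    · rw [wg_comm]
      exact neg_ne_zero.2 (h1 t ht n m h (le_max_left _ _))
  obtain ⟨s, hs⟩ : ∃ s, ∀ n, φ (wZ d (n + s) 1) ∉ JI Y Om := by
    by_cases h : ∃ s₀, φ (wZ d s₀ 1) ∈ JI Y Om
    · obtain ⟨s₀, hs₀⟩ := h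
      refine ⟨s₀ + 1, fun n hn => ?_⟩
      apply hwne s₀ (n + (s₀ + 1)) (by omega)
      rw [wg_map]
      unfold wg
      exact sub_mem (Ideal.mul_mem_left _ _ hn) (Ideal.mul_mem_right _ _ hs₀)
    · push Not at h
      exact ⟨0, fun n => h _⟩
  have hLT : ∀ n, LT Y Om (φ (wZ d n 0)) (φ (wZ d n 1)) := by
    intro n
    filter_upwards [horb n, (Re.sq (φ (wZ d n 0))).eq (Re_int (wZ d n 0)),
      (Re.sq (φ (wZ d n 1))).eq (Re_int (wZ d n 1))] with ν h1 h2 h3 t ht
    obtain ⟨G, z', hG0, hco, he, hz'⟩ := h1 t ht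
    refine ⟨z' 0, z' 1, hco, hz' 0, hz' 1, ?_⟩
    rw [h2, h3]
    have e := eval_wZ t n
    rw [he] at e
    have e0 := congrFun e 0
    have e1 := congrFun e 1
    simp only [Pi.smul_apply, smul_eq_mul] at e0 e1
    rw [e0, e1]
    ring
  rcases Nat.eq_zero_or_pos F.d with hF0 | hFpos
  · -- finitely many points
    exfalso
    have hemp : IsEmpty (Fin F.d) := by rw [hF0]; infer_instance
    have hR : ∀ j : Fin (Nd d), ∀ᶠ ν in (Uf : Filter ℕ), ∃ R : Finset ℚ, R.card ≤ D ∧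
        ∀ t ∈ Om ν, (eval t (X j : MvPolynomial (Fin (Nd d)) ℤ) : ℚ) /
          (eval t (1 : MvPolynomial (Fin (Nd d)) ℤ) : ℚ) ∈ R := by
      intro j
      obtain ⟨c, hc0, hc⟩ := hD (X j) 1 (by
        intro h
        exact hprime.ne_top ((Ideal.eq_top_iff_one _).2 h)) (by
        filter_upwards [hb, hY 1, (Re.sq (X j : MvPolynomial (Fin (Nd d)) (OO Y))).eq (Re.X j),
          (Re.sq (1 : MvPolynomial (Fin (Nd d)) (OO Y))).eq Re.one] with ν h1 h2 h3 h4 t ht
        refine ⟨t j, 1, isCoprime_one_right, h1 t ht j, ?_, ?_⟩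
        · rw [abs_one]
          exact_mod_cast h2
        · rw [h3, h4, eval_X, map_one]
          ring)
      let c' : Fin (D + 1) → OO Y := fun i => c (fun b => hemp.elim b, i)
      have hmem : he ((pc c').map C) D ![(X j : MvPolynomial (Fin (Nd d)) (OO Y)), 1] ∈
          JI Y Om := by
        have e1 := he_pc (fun _ : Fin 2 => fun i => (C (c' i) : MvPolynomial (Fin (Nd d)) (OO Y)))
          ![(X j : MvPolynomial (Fin (Nd d)) (OO Y)), 1] 0
        rw [pc_map, e1]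
        convert hc using 1
        rw [Fintype.sum_prod_type]
        have huq : Unique (Fin F.d → Fin (D + 1)) := Pi.uniqueOfIsEmpty _
        rw [Fintype.sum_unique]
        unfold ac
        refine Finset.sum_congr rfl fun i _ => ?_
        have e2 : ∀ q : Fin F.d → Fin (D + 1), c (q, i) = c' i := fun q => by
          show c (q, i) = c (fun b => hemp.elim b, i)
          congr 2
          exact Subsingleton.elim _ _
        rw [e2]
        simp only [Matrix.cons_val_zero, Matrix.cons_val_one, one_pow, mul_one,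
          Finset.univ_eq_empty, Finset.prod_empty, one_mul]
      have hc'0 : pc c' ≠ 0 := by
        obtain ⟨⟨e1, i⟩, hei⟩ := Function.ne_iff.1 hc0
        intro h0
        have h1 := pc_coeff c' (i : ℕ)
        rw [h0, Polynomial.coeff_zero, dif_pos i.2] at h1
        apply hei
        have e3 : e1 = fun b => hemp.elim b := Subsingleton.elim _ _
        rw [e3]
        exact h1.symm
      have hfv := few_vals hc'0 (pc_natDegree c') hmem (Re.X j) Re.one
      filter_upwards [hfv] with ν h1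
      obtain ⟨R, hR1, hR2⟩ := h1
      exact ⟨R, hR1, fun t ht => hR2 t ht (by rw [map_one]; exact one_ne_zero)⟩
    obtain ⟨ν, t, -, t', -, hne, hall⟩ := (two_points hY hG.1 _ _ D hR).exists
    apply hne
    funext j
    have h1 := hall j
    simp only [eval_X, map_one, Int.cast_one, div_one] at h1
    exact_mod_cast h1
  · -- the main case
    have hgen : ∀ i : Fin (2 * d), ∃ p : Polynomial (OO Y), p ≠ 0 ∧
        he (p.map C) p.natDegree
          ![φ (wg (wZ d ((i : ℕ) + 3 + s)) (wZ d (1 + s)) * wg (wZ d (0 + s)) (wZ d (2 + s))),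
            φ (wg (wZ d (0 + s)) (wZ d ((i : ℕ) + 3 + s)) * wg (wZ d (2 + s)) (wZ d (1 + s)))] ∈
          JI Y Om := by
      intro i
      have h := gen_alg (JI Y Om) hprime (fun c hc => C_notMem hG.1 hc) hFpos F.ι F.A F.H F.B₀ F.B
        F.ind F.H0 F.HT F.B00 F.BX hd (fun i j => φ (cfo X i j))
        (fun n i => φ (wZ d (n + s) i))
        (by
          intro n
          have h1 := ac_map φ (cfo X) (wZ d (n + s))
          rw [← h1]
          funext i
          rw [← wZ_succ]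
          congr 2
          omega)
        (by
          rw [← rsZ_map]
          refine notMem_int hG.1 _ ?_
          filter_upwards [hNZ] with ν h1 t ht
          rw [rsZ_map]
          have h2 := rsZ_ne (by omega : 1 ≤ d) (h1 t ht)
          have e1 : (fun i j => eval t (cfo X i j)) = cfo (d := d) t := by
            funext i j
            simp [cfo]
          rw [e1]
          exact h2)
        (by
          intro m n hmn
          have h1 := wg_map φ (wZ d (m + s)) (wZ d (n + s))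
          rw [← h1]
          exact hwne _ _ (by omega))
        (fun n => hs n) D
        (fun n => hD (φ (wZ d (n + s) 0)) (φ (wZ d (n + s) 1)) (hs n) (hLT (n + s)))
        (a := (i : ℕ) + 3) (b := 1) (c := 0) (e := 2) (by omega) (by omega) (by omega) (by omega)
      obtain ⟨p, hp0, hp⟩ := h
      refine ⟨p, hp0, ?_⟩
      rw [map_mul, map_mul, wg_map φ, wg_map φ, wg_map φ, wg_map φ]
      exact hp
    choose p hp0 hp using hgen
    obtain ⟨m, hm⟩ : ∃ m, m = ∑ i, (p i).natDegree := ⟨_, rfl⟩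
    have hQne : ∀ᶠ ν in (Uf : Filter ℕ), ∀ t ∈ Om ν, ∀ i j, i < j → j ≤ 2 * d + 2 →
        wg ((ac (cfo t))^[i + s] (zfo t)) ((ac (cfo t))^[j + s] (zfo t)) ≠ 0 := by
      filter_upwards [hlong (2 * d + 2 + s)] with ν h1 t ht i j hij hj
      exact h1 t ht _ _ (by omega) (by omega)
    have hQne' : ∀ᶠ ν in (Uf : Filter ℕ), ∀ t ∈ Om ν, ∀ i : Fin (2 * d),
        eval t (wg (wZ d (0 + s)) (wZ d ((i : ℕ) + 3 + s)) * wg (wZ d (2 + s)) (wZ d (1 + s))) ≠
          0 := by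
      filter_upwards [hQne] with ν h1 t ht i
      rw [map_mul, eval_wg, eval_wg]
      refine mul_ne_zero (h1 t ht 0 ((i : ℕ) + 3) (by omega) (by have := i.2; omega)) ?_
      rw [wg_comm]
      exact neg_ne_zero.2 (h1 t ht 1 2 (by omega) (by omega))
    have hR : ∀ i : Fin (2 * d), ∀ᶠ ν in (Uf : Filter ℕ), ∃ R : Finset ℚ, R.card ≤ m ∧
        ∀ t ∈ Om ν,
        (eval t (wg (wZ d ((i : ℕ) + 3 + s)) (wZ d (1 + s)) * wg (wZ d (0 + s)) (wZ d (2 + s))) :
          ℚ) /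
        (eval t (wg (wZ d (0 + s)) (wZ d ((i : ℕ) + 3 + s)) * wg (wZ d (2 + s)) (wZ d (1 + s))) :
          ℚ) ∈ R := by
      intro i
      have h1 := few_vals (hp0 i) le_rfl (hp i) (Re_int _) (Re_int _)
      filter_upwards [h1, hQne'] with ν h2 h3
      obtain ⟨R, hR1, hR2⟩ := h2
      refine ⟨R, hR1.trans ?_, fun t ht => hR2 t ht (h3 t ht i)⟩
      rw [hm]
      exact Finset.single_le_sum (f := fun i => (p i).natDegree) (fun _ _ => Nat.zero_le _)
        (Finset.mem_univ i)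
    filter_upwards [two_points hY hG.1 _ _ m hR, hQne, hQne', hNZ, hsub] with ν h1 h2 h3 h4 h5
    obtain ⟨t, ht, t', ht', hne, hall⟩ := h1
    refine ⟨t, h5 ht, t', h5 ht', hne, ?_⟩
    -- nonvanishing over `ℚ`
    have hnz : ∀ c : Fin 2 → Fin (d + 1) → ℤ, NZ c → ∀ v : Fin 2 → ℚ, v ≠ 0 →
        ac (fun i j => (c i j : ℚ)) v ≠ 0 := by
      intro c hc v hv h0
      apply hv
      have e1 := ac_map (algebraMap ℚ ℂ) (fun i j => (c i j : ℚ)) v
      rw [h0] at e1
      have e2 := hc (fun i => algebraMap ℚ ℂ (v i)) (by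
        have e3 : (fun i j => ((c i j : ℤ) : ℂ)) = fun i j => algebraMap ℚ ℂ ((c i j : ℚ)) := by
          funext i j
          simp
        rw [e3, ← e1]
        funext i
        simp)
      funext i
      have e4 := congrFun e2 i
      simpa using e4
    have hcast : ∀ (t : Fin (Nd d) → ℤ) (n : ℕ),
        (fun i => (((ac (cfo t))^[n] (zfo t) i : ℤ) : ℚ)) =
        (ac (fun i j => ((cfo t i j : ℤ) : ℚ)))^[n] (fun i => ((zfo t i : ℤ) : ℚ)) := by
      intro t n
      have := ac_iter_map (Int.castRingHom ℚ) (cfo t) (zfo t) n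
      simpa only [eq_intCast] using this
    have hwgc : ∀ (x y : Fin 2 → ℤ), wg (fun i => (x i : ℚ)) (fun i => (y i : ℚ)) =
        ((wg x y : ℤ) : ℚ) := by
      intro x y
      simp [wg]
    have hxs : ∀ (t : Fin (Nd d) → ℤ) (n : ℕ),
        (fun i => (((ac (cfo t))^[n + 1 + s] (zfo t) i : ℤ) : ℚ)) =
        ac (fun i j => ((cfo t i j : ℤ) : ℚ)) (fun i => (((ac (cfo t))^[n + s] (zfo t) i : ℤ) : ℚ)) := by
      intro t n
      rw [hcast, hcast, ← Function.iterate_succ_apply' (ac (fun i j => ((cfo t i j : ℤ) : ℚ)))]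
      congr 2
      omega
    refine conj_of_cross (K := ℚ) (d := d) _ _ (hnz _ (h4 t ht)) (hnz _ (h4 t' ht'))
      (fun n i => (((ac (cfo t))^[n + s] (zfo t) i : ℤ) : ℚ))
      (fun n i => (((ac (cfo t'))^[n + s] (zfo t') i : ℤ) : ℚ)) (hxs t) (hxs t') ?_ ?_ ?_
    · intro i j hij hj
      rw [hwgc]
      exact_mod_cast h2 t ht i j hij hj
    · intro i j hij hj
      rw [hwgc]
      exact_mod_cast h2 t' ht' i j hij hj
    · intro n hn3 hn
      have e := hall ⟨n - 3, by omega⟩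
      have q1 := h3 t ht ⟨n - 3, by omega⟩
      have q2 := h3 t' ht' ⟨n - 3, by omega⟩
      simp only [show n - 3 + 3 = n by omega] at e q1 q2
      have q1' : ((eval t (wg (wZ d (0 + s)) (wZ d (n + s)) * wg (wZ d (2 + s)) (wZ d (1 + s))) :
        ℤ) : ℚ) ≠ 0 := by exact_mod_cast q1
      have q2' : ((eval t' (wg (wZ d (0 + s)) (wZ d (n + s)) * wg (wZ d (2 + s)) (wZ d (1 + s))) :
        ℤ) : ℚ) ≠ 0 := by exact_mod_cast q2
      rw [div_eq_div_iff q1' q2'] at e
      simp only [map_mul, eval_wg] at e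
      simp only [hwgc]
      push_cast at e ⊢
      linear_combination e

end Pool.Agent.R323
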