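import Pool.Agent.R323.Main

/-!
# From projective points to primitive vectors
-/

set_option autoImplicit false

namespace Pool.Agent.R323

open MvPolynomial

/-- the resultant is nonzero when there is no common zero over some algebraically closed field -/
theorem rsZ_ne_of {L : Type} [Field L] [IsAlgClosed L] {d : ℕ} (hd : 1 ≤ d)
    {c : Fin 2 → Fin (d + 1) → ℤ}
    (h : ∀ v : Fin 2 → L, ac (fun i j => (c i j : L)) v = 0 → v = 0) : rsZ c ≠ 0 := by
  have h1 : Pool.Agent.H951R3.PB.rs (fm (fun i j => (c i j : L))) d ≠ 0 := by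
    refine (Pool.Agent.TH450.PC.rs_ne_zero_iff hd fun i => fm_hom _ i).2 fun v hv => ?_
    rw [ev_fm] at hv
    exact h v hv
  rw [rs_fm] at h1
  have h2 := rsZ_map (Int.castRingHom L) c
  intro h3
  rw [h3, map_zero] at h2
  exact h1 h2.symm

theorem NZ_of {L : Type} [Field L] [IsAlgClosed L] {d : ℕ} (hd : 1 ≤ d)
    {c : Fin 2 → Fin (d + 1) → ℤ}
    (h : ∀ v : Fin 2 → L, ac (fun i j => (c i j : L)) v = 0 → v = 0) : NZ c := by
  have h1 := rsZ_ne_of hd h
  have h2 : Pool.Agent.H951R3.PB.rs (fm (fun i j => (c i j : ℂ))) d ≠ 0 := by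
    rw [rs_fm]
    have h3 := rsZ_map (Int.castRingHom ℂ) c
    intro h4
    apply h1
    have h5 : (Int.castRingHom ℂ) (rsZ c) = 0 := h3.trans h4
    exact (map_eq_zero_iff (Int.castRingHom ℂ) (RingHom.injective_int _)).1 h5
  intro v hv
  refine (Pool.Agent.TH450.PC.rs_ne_zero_iff hd fun i => fm_hom _ i).1 h2 v ?_
  rw [ev_fm]
  exact hv

/-- primitive representatives -/
theorem exists_prim (v : Fin 2 → ℚ) (hv : v ≠ 0) : ∃ (z : Fin 2 → ℤ) (s : ℚ), s ≠ 0 ∧
    IsCoprime (z 0) (z 1) ∧ (fun i => (z i : ℚ)) = s • v := by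
  obtain ⟨a, b, hb, h0⟩ : ∃ a b : ℤ, b ≠ 0 ∧ v 0 * b = a :=
    ⟨(v 0).num, (v 0).den, by exact_mod_cast (v 0).den_ne_zero, by
      exact_mod_cast Rat.mul_den_eq_num (v 0)⟩
  obtain ⟨a', b', hb', h1⟩ : ∃ a b : ℤ, b ≠ 0 ∧ v 1 * b = a :=
    ⟨(v 1).num, (v 1).den, by exact_mod_cast (v 1).den_ne_zero, by
      exact_mod_cast Rat.mul_den_eq_num (v 1)⟩
  have hbq : (b : ℚ) ≠ 0 := by exact_mod_cast hb
  have hbq' : (b' : ℚ) ≠ 0 := by exact_mod_cast hb'
  -- integral representative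
  have e0 : ((a * b' : ℤ) : ℚ) = ((b * b' : ℤ) : ℚ) * v 0 := by
    push_cast
    rw [← h0]
    ring
  have e1 : ((a' * b : ℤ) : ℚ) = ((b * b' : ℤ) : ℚ) * v 1 := by
    push_cast
    rw [← h1]
    ring
  have hne : Int.gcd (a * b') (a' * b) ≠ 0 := by
    intro h
    rw [Int.gcd_eq_zero_iff] at h
    apply hv
    rw [h.1, Int.cast_zero] at e0
    rw [h.2, Int.cast_zero] at e1
    have hbb : ((b * b' : ℤ) : ℚ) ≠ 0 := by
      push_cast
      exact mul_ne_zero hbq hbq'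
    funext i
    fin_cases i
    · exact (mul_eq_zero.1 e0.symm).resolve_left hbb
    · exact (mul_eq_zero.1 e1.symm).resolve_left hbb
  obtain ⟨g, hg⟩ : ∃ g : ℤ, g = (Int.gcd (a * b') (a' * b) : ℤ) := ⟨_, rfl⟩
  have hg0 : g ≠ 0 := by rw [hg]; exact_mod_cast hne
  obtain ⟨x, hx⟩ : g ∣ a * b' := by rw [hg]; exact Int.gcd_dvd_left ..
  obtain ⟨y, hy⟩ : g ∣ a' * b := by rw [hg]; exact Int.gcd_dvd_right ..
  have hco : IsCoprime x y := by
    rw [Int.isCoprime_iff_gcd_eq_one]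
    have h1 : Int.gcd (a * b') (a' * b) = g.natAbs * Int.gcd x y := by
      rw [hx, hy, Int.gcd_mul_left]
    have h2 : g.natAbs = Int.gcd (a * b') (a' * b) := by rw [hg, Int.natAbs_natCast]
    rw [h2] at h1
    exact Nat.eq_of_mul_eq_mul_left (Nat.pos_of_ne_zero hne) (by omega)
  have hgq : (g : ℚ) ≠ 0 := by exact_mod_cast hg0
  refine ⟨![x, y], (b * b' : ℤ) / g, ?_, by simpa using hco, ?_⟩
  · refine div_ne_zero ?_ hgq
    push_cast
    exact mul_ne_zero hbq hbq'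
  · funext i
    fin_cases i
    · simp only [Fin.zero_eta, Matrix.cons_val_zero, Pi.smul_apply, smul_eq_mul]
      rw [div_mul_eq_mul_div, ← e0, eq_div_iff hgq, hx]
      push_cast
      ring
    · simp only [Fin.mk_one, Matrix.cons_val_one, Pi.smul_apply, smul_eq_mul]
      rw [div_mul_eq_mul_div, ← e1, eq_div_iff hgq, hy]
      push_cast
      ring

/-- preperiodic points of the projective line -/
theorem many_of {d : ℕ} (c : Fin 2 → Fin (d + 1) → ℤ) (N : ℕ)
    (h : (N : ℕ∞) < ({p : Projectivization ℚ (Fin 2 → ℚ) | ∃ m n : ℕ, m < n ∧ ∃ s : ℚ, s ≠ 0 ∧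
      (ac (fun i j => (c i j : ℚ)))^[n] p.rep = s • (ac (fun i j => (c i j : ℚ)))^[m] p.rep} :
      Set (Projectivization ℚ (Fin 2 → ℚ))).encard) : Many N c := by
  classical
  obtain ⟨t, hts, htc⟩ := Set.exists_subset_encard_eq (Order.add_one_le_of_lt h)
  have hfin : t.Finite := by
    apply Set.finite_of_encard_eq_coe (k := N + 1)
    rw [htc]
    norm_cast
  have hcard : hfin.toFinset.card = N + 1 := by
    have h1 := hfin.encard_eq_coe_toFinset_card
    rw [htc] at h1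
    exact_mod_cast h1.symm
  choose z s hs hz he using fun p : Projectivization ℚ (Fin 2 → ℚ) => exists_prim p.rep p.rep_nonzero
  have hinj : ∀ p q : Projectivization ℚ (Fin 2 → ℚ), wg (z p) (z q) = 0 → p = q := by
    intro p q h0
    have h1 : wg (fun i => (z p i : ℚ)) (fun i => (z q i : ℚ)) = 0 := by
      have : wg (fun i => (z p i : ℚ)) (fun i => (z q i : ℚ)) = ((wg (z p) (z q) : ℤ) : ℚ) := by
        simp [wg]
      rw [this, h0, Int.cast_zero]
    rw [he p, he q, wg_smul] at h1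
    have h2 := (mul_eq_zero.1 h1).resolve_left (mul_ne_zero (hs p) (hs q))
    obtain ⟨r, hr⟩ := par_field p.rep_nonzero h2
    rw [← p.mk_rep, ← q.mk_rep, Projectivization.mk_eq_mk_iff']
    have hr0 : r ≠ 0 := by
      rintro rfl
      rw [zero_smul] at hr
      exact q.rep_nonzero hr
    refine ⟨r⁻¹, ?_⟩
    rw [hr, smul_smul, inv_mul_cancel₀ hr0, one_smul]
  refine ⟨hfin.toFinset.image z, ?_, ?_, ?_⟩
  · rw [Finset.card_image_of_injective _ (fun p q hpq => hinj p q (by rw [hpq, wg_self])), hcard]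
    omega
  · intro w hw
    obtain ⟨p, hp, rfl⟩ := Finset.mem_image.1 hw
    refine ⟨hz p, ?_⟩
    obtain ⟨m, n, hmn, r, hr, hrr⟩ := hts (hfin.mem_toFinset.1 hp)
    refine ⟨m, n, hmn, ?_⟩
    have h1 : ∀ k, (fun i => (((ac c)^[k] (z p) i : ℤ) : ℚ)) =
        (s p) ^ (d ^ k) • (ac (fun i j => (c i j : ℚ)))^[k] p.rep := by
      intro k
      have h2 := ac_iter_map (Int.castRingHom ℚ) c (z p) k
      simp only [eq_intCast] at h2
      rw [h2, he p, ac_iter_smul]
    have h3 : ((wg ((ac c)^[m] (z p)) ((ac c)^[n] (z p)) : ℤ) : ℚ) = 0 := by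
      have e : ((wg ((ac c)^[m] (z p)) ((ac c)^[n] (z p)) : ℤ) : ℚ) =
          wg (fun i => (((ac c)^[m] (z p) i : ℤ) : ℚ)) (fun i => (((ac c)^[n] (z p) i : ℤ) : ℚ)) := by
        simp [wg]
      rw [e, h1, h1, hrr, smul_smul, wg_smul, wg_self, mul_zero]
    exact_mod_cast h3
  · intro w hw w' hw' hne h0
    obtain ⟨p, hp, rfl⟩ := Finset.mem_image.1 hw
    obtain ⟨q, hq, rfl⟩ := Finset.mem_image.1 hw'
    apply hne
    rw [hinj p q h0]

end Pool.Agent.R323
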