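import Pool.Agent.Y884.GN.A

/-!
# The determinant method for a quotient in lowest terms
-/

set_option autoImplicit false

namespace Pool.Agent.R323

open Finset MvPolynomial Pool.Agent.Y902.FB Pool.Agent.Y902.GN

/-- two equations modulo a power of a prime near a point where the minor is a unit -/
theorem minor' {σ ι : Type*} [Fintype σ] [DecidableEq σ] {q : ℕ} (hq : q.Prime)
    (F H : MvPolynomial σ ℤ) (P : σ → ℤ) {a c : σ} (hac : a ≠ c) (k : ι → σ)
    (hk : ∀ x, x ∉ Set.range k → x = a ∨ x = c) (hka : ∀ y, k y ≠ a) (hkc : ∀ y, k y ≠ c)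
    (hΔ : ¬ (q : ℤ) ∣ (eval P (pderiv a F) * eval P (pderiv c H) -
        eval P (pderiv c F) * eval P (pderiv a H))) (r : ℕ) :
    ∃ p : σ → MvPolynomial ι ℤ, ∀ t : σ → ℤ,
      (∀ i, (q : ℤ) ∣ t i - P i) → (q : ℤ) ^ r ∣ eval t F → (q : ℤ) ^ r ∣ eval t H →
      ∀ i, (q : ℤ) ^ r ∣ t i - eval (fun x => t (k x) - P (k x)) (p i) := by
  obtain ⟨ν, hν⟩ := exists_inv hq hΔ
  set m : σ → Bool → ℤ := fun i s =>
    if i = a then (if s then ν * eval P (pderiv c H) else -(ν * eval P (pderiv c F)))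
      else if i = c then (if s then -(ν * eval P (pderiv a H)) else ν * eval P (pderiv a F))
      else 0 with hm
  have h2a : c ≠ a := Ne.symm hac
  have g1 : ∀ x, x ∉ Set.range k → ∀ d, d ∉ Set.range k →
      (q : ℤ) ∣ (∑ s, m x s * eval P (pderiv d (if s then F else H))) -
        if x = d then 1 else 0 := by
    intro x hcr d hdr
    rcases hk x hcr with hca | hca <;> rcases hk d hdr with hda | hda
    · rw [hca, hda, if_pos rfl]
      have e1 : ∑ s, m a s * eval P (pderiv a (if s then F else H)) - 1 =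
          ν * (eval P (pderiv a F) * eval P (pderiv c H) -
            eval P (pderiv c F) * eval P (pderiv a H)) - 1 := by
        simp only [hm, if_true, Fintype.sum_bool, Bool.false_eq_true, if_false]
        ring
      rw [e1]; exact hν
    · rw [hca, hda, if_neg hac]
      have e1 : ∑ s, m a s * eval P (pderiv c (if s then F else H)) - 0 = 0 := by
        simp only [hm, if_true, Fintype.sum_bool, Bool.false_eq_true, if_false]
        ring
      rw [e1]; exact dvd_zero _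
    · rw [hca, hda, if_neg h2a]
      have e1 : ∑ s, m c s * eval P (pderiv a (if s then F else H)) - 0 = 0 := by
        simp only [hm, if_true, Fintype.sum_bool, Bool.false_eq_true, if_false, if_neg h2a]
        ring
      rw [e1]; exact dvd_zero _
    · rw [hca, hda, if_pos rfl]
      have e1 : ∑ s, m c s * eval P (pderiv c (if s then F else H)) - 1 =
          ν * (eval P (pderiv a F) * eval P (pderiv c H) -
            eval P (pderiv c F) * eval P (pderiv a H)) - 1 := by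
        simp only [hm, if_true, Fintype.sum_bool, Bool.false_eq_true, if_false, if_neg h2a]
        ring
      rw [e1]; exact hν
  have g2 : ∀ x ∈ Set.range k, ∀ s : Bool, m x s = 0 := by
    rintro x ⟨y, rfl⟩ s
    simp only [hm]
    rw [if_neg (hka y), if_neg (hkc y)]
  obtain ⟨p, -, hp⟩ := newton (S := Bool) (q : ℤ) (fun s => if s then F else H) m k P r g1 g2
  refine ⟨p, fun t ht hF hH i => hp t ht (fun s => ?_) i⟩
  cases s
  · simpa using hH
  · simpa using hF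

/-- inverses modulo powers of a prime -/
theorem exists_inv_pow {q : ℕ} (hq : q.Prime) {a : ℤ} (ha : ¬ (q : ℤ) ∣ a) (r : ℕ) :
    ∃ ν : ℤ, (q : ℤ) ^ r ∣ ν * a - 1 := by
  have h1 : IsCoprime (q : ℤ) a := by
    rw [Prime.coprime_iff_not_dvd (Nat.prime_iff_prime_int.1 hq)]
    exact ha
  obtain ⟨u, v, h⟩ := h1.pow_left (m := r)
  exact ⟨v, ⟨-u, by linarith⟩⟩

/-- the points with the extra coordinate -/
def pt {d : ℕ} (y : Option (Fin d) → ℤ) (h : ℤ) : Option (Option (Fin d)) → ℤ :=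
  fun o => o.elim h y

theorem eval_pt {d : ℕ} (y : Option (Fin d) → ℤ) (h : ℤ) (P : MvPolynomial (Option (Fin d)) ℤ) :
    eval (pt y h) (rename some P) = eval y P := by
  rw [eval_rename]
  rfl

theorem pderiv_ren {σ τ : Type*} (f : σ → τ) (hf : Function.Injective f) (i : σ)
    (P : MvPolynomial σ ℤ) : pderiv (f i) (rename f P) = rename f (pderiv i P) := by
  classical
  induction P using MvPolynomial.induction_on with
  | C a => simp
  | add p q hp hq => simp only [map_add, hp, hq]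
  | mul_X p j hp =>
    simp only [map_mul, rename_X, Derivation.leibniz, smul_eq_mul, map_add, hp]
    by_cases hij : j = i
    · subst hij
      simp
    · rw [pderiv_X_of_ne (fun h => hij (hf h)), pderiv_X_of_ne hij]
      simp

theorem pderiv_none_ren {σ : Type*} (P : MvPolynomial σ ℤ) :
    pderiv none (rename some P : MvPolynomial (Option σ) ℤ) = 0 := by
  classical
  induction P using MvPolynomial.induction_on with
  | C a => simp
  | add p q hp hq => simp only [map_add, hp, hq, add_zero]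
  | mul_X p j hp =>
    simp only [map_mul, rename_X, Derivation.leibniz, smul_eq_mul, hp]
    rw [pderiv_X_of_ne (by simp)]
    simp

/-- one residue class -/
theorem cls {d k X Y D ρ q : ℕ} (hD : D = 2 ^ (d + 1) * (k * (d + 1) + 2) ^ (d + 1))
    (hρ : ρ = k * (d + 1) * D + 2)
    (hX : (D + 1) ^ (d + 1) ≤ X) (hY : 1 ≤ Y) (hYX : Y ≤ X ^ k) (hq : q.Prime)
    (hXq : X ≤ q) (H U V : MvPolynomial (Option (Fin d)) ℤ)
    (P : Option (Option (Fin d)) → ℤ)
    (hP : ¬ (q : ℤ) ∣ eval P (rename some (pderiv none H * V)))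
    {α : Type} (T : Set α) (s : α → Option (Fin d) → ℤ) (a b h : α → ℤ)
    (hTP : ∀ t ∈ T, ∀ i, (q : ℤ) ∣ pt (s t) (h t) i - P i)
    (hT : ∀ t ∈ T, eval (s t) H = 0 ∧ (∀ i, |s t (some i)| ≤ (Y : ℤ)) ∧ |a t| ≤ (Y : ℤ) ∧
      |b t| ≤ (Y : ℤ) ∧ (q : ℤ) ^ (2 * ρ) ∣ eval (s t) V * h t - eval (s t) U ∧
      (q : ℤ) ^ (2 * ρ) ∣ b t * h t - a t) :
    ∃ c : (Fin d → Fin (D + 1)) × Fin (D + 1) → ℤ, c ≠ 0 ∧ (∀ e, |c e| ≤ ((q ^ ρ : ℕ) : ℤ)) ∧
      ∀ t ∈ T, ∑ e, c e * ((∏ i, s t (some i) ^ (e.1 i : ℕ)) *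
        (a t ^ (e.2 : ℕ) * b t ^ (D - (e.2 : ℕ)))) = 0 := by
  classical
  have hq2 : 2 ≤ q := hq.two_le
  obtain ⟨p, hp⟩ := minor' hq (rename some H) (rename some V * MvPolynomial.X none - rename some U)
    P (a := some none) (c := none) (by simp)
    (fun i : Fin d => (some (some i) : Option (Option (Fin d))))
    (by
      intro x hx
      rcases x with _ | x
      · exact Or.inr rfl
      · rcases x with _ | x
        · exact Or.inl rfl
        · exact absurd ⟨x, rfl⟩ hx)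
    (by intro y; simp) (by intro y; simp)
    (by
      intro hdv
      apply hP
      have e1 : pderiv none (rename some V * MvPolynomial.X none - rename some U :
          MvPolynomial (Option (Option (Fin d))) ℤ) = rename some V := by
        rw [map_sub, Derivation.leibniz, smul_eq_mul, smul_eq_mul, pderiv_none_ren,
          pderiv_none_ren, pderiv_X_self]
        ring
      rw [e1, pderiv_none_ren, map_zero, zero_mul, sub_zero,
        pderiv_ren _ (Option.some_injective _)] at hdv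
      rwa [map_mul, map_mul]) (2 * ρ)
  have hcM : Fintype.card ((Fin d → Fin (D + 1)) × Fin (D + 1)) = (D + 1) ^ (d + 1) := by
    rw [Fintype.card_prod, Fintype.card_fun, Fintype.card_fin, Fintype.card_fin, pow_succ]
  have hnum := Pool.Agent.Y884.GN.num (d + 1) k D ρ (by omega) hD hρ
  rw [show d + 1 - 1 + 1 = d + 1 by omega] at hnum
  have : Nonempty ((Fin d → Fin (D + 1)) × Fin (D + 1)) := ⟨(fun _ => 0, 0)⟩
  obtain ⟨c, hc0, hc1, hc2⟩ := aux (M := (Fin d → Fin (D + 1)) × Fin (D + 1)) q (2 * ρ) (q ^ ρ)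
    hq2 P (fun i : Fin d => (some (some i) : Option (Option (Fin d)))) p
    ((fun t => pt (s t) (h t)) '' T)
    (by
      rintro _ ⟨t, ht, rfl⟩ i
      exact hTP t ht i)
    (by
      rintro _ ⟨t, ht, rfl⟩
      obtain ⟨h1, -, -, -, h2, -⟩ := hT t ht
      refine hp _ (hTP t ht) ?_ ?_
      · rw [eval_pt, h1]; exact dvd_zero _
      · rw [map_sub, map_mul, eval_pt, eval_pt, eval_X]
        exact h2)
    (fun e => (∏ i, MvPolynomial.X (some (some i)) ^ (e.1 i : ℕ)) *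
      MvPolynomial.X none ^ (e.2 : ℕ))
    (by
      rw [Fintype.card_fin]
      refine card_ineq hq2 Fintype.card_pos ?_
      rw [hcM]
      exact hnum)
  refine ⟨c, hc0, hc1, fun t ht => ?_⟩
  obtain ⟨-, h3, h4, h5, -, h6⟩ := hT t ht
  have h7 := hc2 _ ⟨t, ht, rfl⟩
  simp only [map_mul, map_prod, map_pow, eval_X] at h7
  change (q : ℤ) ^ (2 * ρ) ∣ ∑ e, c e * ((∏ i, s t (some i) ^ (e.1 i : ℕ)) * h t ^ (e.2 : ℕ)) at h7
  refine Int.eq_zero_of_abs_lt_dvd (m := (q : ℤ) ^ (2 * ρ)) ?_ ?_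
  · have h8 : (q : ℤ) ^ (2 * ρ) ∣ b t ^ D *
        ∑ e, c e * ((∏ i, s t (some i) ^ (e.1 i : ℕ)) * h t ^ (e.2 : ℕ)) := Dvd.dvd.mul_left h7 _
    have h9 : (q : ℤ) ^ (2 * ρ) ∣ ∑ e, c e * ((∏ i, s t (some i) ^ (e.1 i : ℕ)) *
        (a t ^ (e.2 : ℕ) * b t ^ (D - (e.2 : ℕ)))) - b t ^ D *
        ∑ e, c e * ((∏ i, s t (some i) ^ (e.1 i : ℕ)) * h t ^ (e.2 : ℕ)) := by
      rw [Finset.mul_sum, ← Finset.sum_sub_distrib]
      refine Finset.dvd_sum fun e _ => ?_
      have e2 : b t ^ D = b t ^ (e.2 : ℕ) * b t ^ (D - (e.2 : ℕ)) := by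
        rw [← pow_add]
        congr 1
        have := e.2.2
        omega
      rw [e2]
      have e3 : c e * ((∏ i, s t (some i) ^ (e.1 i : ℕ)) *
          (a t ^ (e.2 : ℕ) * b t ^ (D - (e.2 : ℕ)))) -
          b t ^ (e.2 : ℕ) * b t ^ (D - (e.2 : ℕ)) *
          (c e * ((∏ i, s t (some i) ^ (e.1 i : ℕ)) * h t ^ (e.2 : ℕ))) =
          (c e * (∏ i, s t (some i) ^ (e.1 i : ℕ)) * b t ^ (D - (e.2 : ℕ))) *
          (a t ^ (e.2 : ℕ) - (b t * h t) ^ (e.2 : ℕ)) := by
        rw [mul_pow]; ring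
      rw [e3]
      refine Dvd.dvd.mul_left ?_ _
      have h10 : (q : ℤ) ^ (2 * ρ) ∣ a t - b t * h t := by
        rw [dvd_sub_comm]; exact h6
      exact h10.trans (sub_dvd_pow_sub_pow _ _ _)
    have := dvd_add h9 h8
    rwa [sub_add_cancel] at this
  · have hV : ∀ e : (Fin d → Fin (D + 1)) × Fin (D + 1), |(∏ i, s t (some i) ^ (e.1 i : ℕ)) *
        (a t ^ (e.2 : ℕ) * b t ^ (D - (e.2 : ℕ)))| ≤ ((Y ^ ((d + 1) * D) : ℕ) : ℤ) := by
      intro e
      have g1 : |∏ i, s t (some i) ^ (e.1 i : ℕ)| ≤ ((Y ^ (d * D) : ℕ) : ℤ) := by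
        rw [Finset.abs_prod]
        calc ∏ i, |s t (some i) ^ (e.1 i : ℕ)| ≤ ∏ _i : Fin d, ((Y ^ D : ℕ) : ℤ) :=
              Finset.prod_le_prod (fun i _ => abs_nonneg _) fun i _ => by
                exact abs_pow_le_pow (h3 i) hY (by have := (e.1 i).2; omega)
          _ = ((Y ^ (d * D) : ℕ) : ℤ) := by
              rw [Finset.prod_const, Finset.card_univ, Fintype.card_fin, mul_comm d D, pow_mul]
              push_cast
              ring
      have g2 : |a t ^ (e.2 : ℕ) * b t ^ (D - (e.2 : ℕ))| ≤ ((Y ^ D : ℕ) : ℤ) := by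
        rw [abs_mul, abs_pow, abs_pow]
        have e2 : ((Y ^ D : ℕ) : ℤ) = (Y : ℤ) ^ (e.2 : ℕ) * (Y : ℤ) ^ (D - (e.2 : ℕ)) := by
          rw [← pow_add]
          push_cast
          congr 1
          have := e.2.2
          omega
        rw [e2]
        exact mul_le_mul (pow_le_pow_left₀ (abs_nonneg _) h4 _)
          (pow_le_pow_left₀ (abs_nonneg _) h5 _) (by positivity) (by positivity)
      rw [abs_mul]
      have e3 : ((Y ^ ((d + 1) * D) : ℕ) : ℤ) = ((Y ^ (d * D) : ℕ) : ℤ) * ((Y ^ D : ℕ) : ℤ) := by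
        rw [← Nat.cast_mul, ← pow_add]
        congr 2
        ring
      rw [e3]
      exact mul_le_mul g1 g2 (abs_nonneg _) (by positivity)
    have h1 : |∑ e, c e * ((∏ i, s t (some i) ^ (e.1 i : ℕ)) *
        (a t ^ (e.2 : ℕ) * b t ^ (D - (e.2 : ℕ))))| ≤
        ∑ _e : (Fin d → Fin (D + 1)) × Fin (D + 1),
          (((q ^ ρ : ℕ) : ℤ) * ((Y ^ ((d + 1) * D) : ℕ) : ℤ)) := by
      refine (Finset.abs_sum_le_sum_abs _ _).trans (Finset.sum_le_sum fun e _ => ?_)
      rw [abs_mul]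
      exact mul_le_mul (hc1 e) (hV e) (abs_nonneg _) (by positivity)
    refine lt_of_le_of_lt h1 ?_
    rw [Finset.sum_const, Finset.card_univ, nsmul_eq_mul, hcM]
    have h2 : (D + 1) ^ (d + 1) * (q ^ ρ * Y ^ ((d + 1) * D)) < q ^ (2 * ρ) := by
      have g1 : Y ^ ((d + 1) * D) ≤ q ^ (k * (d + 1) * D) := by
        calc Y ^ ((d + 1) * D) ≤ (X ^ k) ^ ((d + 1) * D) := Nat.pow_le_pow_left hYX _
          _ = X ^ (k * (d + 1) * D) := by rw [← pow_mul, mul_assoc]
          _ ≤ _ := Nat.pow_le_pow_left hXq _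
      have g2 : (D + 1) ^ (d + 1) * Y ^ ((d + 1) * D) < q ^ ρ := by
        calc (D + 1) ^ (d + 1) * Y ^ ((d + 1) * D) ≤ q * q ^ (k * (d + 1) * D) :=
              Nat.mul_le_mul (hX.trans hXq) g1
          _ = q ^ (k * (d + 1) * D + 1) := by rw [pow_succ]; ring
          _ < q ^ ρ := by
              rw [hρ]
              exact Nat.pow_lt_pow_right (by omega) (Nat.lt_succ_self _)
      have e1 : (D + 1) ^ (d + 1) * (q ^ ρ * Y ^ ((d + 1) * D)) =
          ((D + 1) ^ (d + 1) * Y ^ ((d + 1) * D)) * q ^ ρ := by ring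
      rw [e1, two_mul, pow_add q]
      exact Nat.mul_lt_mul_of_pos_right g2 (Nat.pow_pos (by omega))
    exact_mod_cast h2

/-- **The determinant method for a quotient in lowest terms.** -/
theorem S_P (d k : ℕ) : ∃ D ρ X₀ : ℕ, ∀ X Y : ℕ, X₀ ≤ X → 1 ≤ Y → Y ≤ X ^ k →
    ∀ (H U V : MvPolynomial (Option (Fin d)) ℤ) (α : Type) (T : Finset α)
      (s : α → Option (Fin d) → ℤ) (a b : α → ℤ),
    (∀ t ∈ T, eval (s t) H = 0 ∧ (∀ i, |s t (some i)| ≤ (Y : ℤ)) ∧ |a t| ≤ (Y : ℤ) ∧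
      |b t| ≤ (Y : ℤ) ∧ IsCoprime (a t) (b t) ∧ a t * eval (s t) V = b t * eval (s t) U ∧
      eval (s t) (pderiv none H * V) ≠ 0 ∧ |eval (s t) (pderiv none H * V)| < 2 ^ X) →
    ∃ T' ⊆ T, T.card ≤ X ^ (2 * d + 7) * T'.card ∧
      ∃ c : (Fin d → Fin (D + 1)) × Fin (D + 1) → ℤ, c ≠ 0 ∧
      (∀ e, |c e| ≤ (X : ℤ) ^ ρ) ∧ ∀ t ∈ T', ∑ e, c e * ((∏ i, s t (some i) ^ (e.1 i : ℕ)) *
        (a t ^ (e.2 : ℕ) * b t ^ (D - (e.2 : ℕ)))) = 0 := by
  obtain ⟨D, hD⟩ : ∃ D, D = 2 ^ (d + 1) * (k * (d + 1) + 2) ^ (d + 1) := ⟨_, rfl⟩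
  obtain ⟨ρ, hρ⟩ : ∃ ρ, ρ = k * (d + 1) * D + 2 := ⟨_, rfl⟩
  refine ⟨D, 2 * ρ, max 1000000 ((D + 1) ^ (d + 1)), ?_⟩
  intro X Y hX hY hYX H U V α T s a b hT
  classical
  have hX1 : 1000000 ≤ X := (le_max_left _ _).trans hX
  have hX2 : (D + 1) ^ (d + 1) ≤ X := (le_max_right _ _).trans hX
  rcases T.eq_empty_or_nonempty with rfl | hne
  · refine ⟨∅, subset_rfl, by simp, fun _ => 1, ?_, fun e => ?_, by simp⟩
    · intro h
      have := congrFun h (fun _ => 0, 0)
      simp at this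
    · rw [abs_one]
      have : (1 : ℤ) ≤ (X : ℤ) := by exact_mod_cast (by omega : 1 ≤ X)
      exact one_le_pow₀ this
  obtain ⟨Q, hQ1, hQ2, hQ⟩ := Pool.Agent.Y902.FD.many_primes X hX1
  have hex : ∀ t, ∃ q h, t ∈ T → q ∈ Q ∧ ¬ (q : ℤ) ∣ eval (s t) (pderiv none H * V) ∧
      (q : ℤ) ^ (2 * ρ) ∣ eval (s t) V * h - eval (s t) U ∧
      (q : ℤ) ^ (2 * ρ) ∣ b t * h - a t := by
    intro t
    by_cases ht : t ∈ T
    · obtain ⟨-, -, -, -, hco, hab, h1, h2⟩ := hT t ht
      obtain ⟨q, hq, h⟩ := exists_prime_not_dvd Q (fun q hq => (hQ q hq).1) X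
        (fun q hq => (hQ q hq).2.1) _ h1 (lt_of_lt_of_le h2 (by
          have g1 : (2 : ℤ) ^ X ≤ (X : ℤ) ^ X :=
            pow_le_pow_left₀ (by norm_num) (by exact_mod_cast (by omega : 2 ≤ X)) _
          have g2 : (X : ℤ) ^ X ≤ (X : ℤ) ^ Q.card :=
            pow_le_pow_right₀ (by exact_mod_cast (by omega : 1 ≤ X)) hQ1
          exact g1.trans g2))
      have hb1 : b t ∣ eval (s t) V := by
        have : b t ∣ a t * eval (s t) V := by rw [hab]; exact dvd_mul_right _ _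
        exact hco.symm.dvd_of_dvd_mul_left this
      have hb2 : ¬ (q : ℤ) ∣ b t := by
        intro hcon
        apply h
        rw [map_mul]
        exact Dvd.dvd.mul_left (hcon.trans hb1) _
      obtain ⟨β, hβ⟩ := exists_inv_pow (hQ q hq).1 hb2 (2 * ρ)
      refine ⟨q, a t * β, fun _ => ⟨hq, h, ?_, ?_⟩⟩
      · have e1 : eval (s t) V * (a t * β) - eval (s t) U =
            (β * b t - 1) * eval (s t) U := by
          linear_combination β * hab
        rw [e1]
        exact Dvd.dvd.mul_right hβ _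
      · have e1 : b t * (a t * β) - a t = (β * b t - 1) * a t := by ring
        rw [e1]
        exact Dvd.dvd.mul_right hβ _
    · exact ⟨0, 0, fun h => absurd h ht⟩
  choose qq hh hqq using hex
  have hX0 : 0 < X ^ 2 := by positivity
  -- the classes
  let F : α → ℕ × (Option (Option (Fin d)) → Fin (X ^ 2)) := fun t =>
    (qq t, fun o => ⟨((pt (s t) (hh t) o) % (qq t : ℤ)).toNat % X ^ 2, Nat.mod_lt _ hX0⟩)
  obtain ⟨c0, hc0, hmax⟩ := Finset.exists_max_image (T.image F)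
    (fun c => (T.filter fun t => F t = c).card) (hne.image F)
  have h1 := Finset.card_le_mul_card_image (f := F) T (T.filter fun t => F t = c0).card
    (fun b hb => hmax b hb)
  have h2 : (T.image F).card ≤ X ^ (2 * d + 7) := by
    have h3 : T.image F ⊆ Q ×ˢ (Finset.univ : Finset (Option (Option (Fin d)) → Fin (X ^ 2))) := by
      intro c hc
      obtain ⟨t, ht, rfl⟩ := Finset.mem_image.1 hc
      exact Finset.mem_product.2 ⟨(hqq t ht).1, Finset.mem_univ _⟩
    refine (Finset.card_le_card h3).trans ?_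
    rw [Finset.card_product, Finset.card_univ, Fintype.card_fun, Fintype.card_option,
      Fintype.card_option, Fintype.card_fin, Fintype.card_fin]
    calc Q.card * (X ^ 2) ^ (d + 1 + 1) ≤ X ^ 3 * (X ^ 2) ^ (d + 1 + 1) :=
          Nat.mul_le_mul_right _ hQ2
      _ = X ^ (2 * d + 7) := by
        rw [← pow_mul, ← pow_add]
        congr 1
        ring
  refine ⟨T.filter fun t => F t = c0, Finset.filter_subset _ _, ?_, ?_⟩
  · refine h1.trans ?_
    rw [mul_comm]
    exact Nat.mul_le_mul_right _ h2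
  obtain ⟨t0, ht0, rfl⟩ := Finset.mem_image.1 hc0
  obtain ⟨hq1, hq2, -, -⟩ := hqq t0 ht0
  obtain ⟨hq3, hq4, hq5⟩ := hQ _ hq1
  have hres : ∀ t ∈ T, F t = F t0 → ∀ i, (qq t0 : ℤ) ∣ pt (s t) (hh t) i - pt (s t0) (hh t0) i := by
    intro t ht hF i
    have e1 : qq t = qq t0 := congrArg Prod.fst hF
    have e2 := congrFun (congrArg Prod.snd hF) i
    have e3 : ((pt (s t) (hh t) i) % (qq t : ℤ)).toNat % X ^ 2 =
      ((pt (s t0) (hh t0) i) % (qq t0 : ℤ)).toNat % X ^ 2 :=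
      congrArg Fin.val e2
    rw [e1] at e3
    have hqpos : (0 : ℤ) < (qq t0 : ℤ) := by exact_mod_cast hq3.pos
    have hlt : ∀ x : ℤ, (x % (qq t0 : ℤ)).toNat < X ^ 2 := by
      intro x
      have g1 := Int.emod_lt_of_pos x hqpos
      have g2 := Int.emod_nonneg x hqpos.ne'
      have g3 : (qq t0 : ℤ) ≤ ((X ^ 2 : ℕ) : ℤ) := by exact_mod_cast hq5
      omega
    rw [Nat.mod_eq_of_lt (hlt _), Nat.mod_eq_of_lt (hlt _)] at e3
    have g2 := Int.emod_nonneg (pt (s t) (hh t) i) hqpos.ne'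
    have g3 := Int.emod_nonneg (pt (s t0) (hh t0) i) hqpos.ne'
    have e4 : pt (s t) (hh t) i % (qq t0 : ℤ) = pt (s t0) (hh t0) i % (qq t0 : ℤ) := by omega
    exact (Int.ModEq.symm e4).dvd
  obtain ⟨c, hc1, hc2, hc3⟩ := cls hD hρ hX2 hY hYX hq3 hq4 H U V (pt (s t0) (hh t0))
    (by rw [eval_pt]; exact hq2) {t | t ∈ T ∧ F t = F t0} s a b hh
    (by
      rintro t ⟨ht1, ht2⟩ i
      exact hres t ht1 ht2 i)
    (by
      rintro t ⟨ht1, ht2⟩
      obtain ⟨g1, g2, g3, g4, -⟩ := hT t ht1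
      obtain ⟨-, -, k1, k2⟩ := hqq t ht1
      have e1 : qq t = qq t0 := congrArg Prod.fst ht2
      rw [e1] at k1 k2
      exact ⟨g1, g2, g3, g4, k1, k2⟩)
  refine ⟨c, hc1, fun e => (hc2 e).trans ?_, fun t ht => ?_⟩
  · have g1 : (qq t0) ^ ρ ≤ X ^ (2 * ρ) := by
      rw [pow_mul]
      exact Nat.pow_le_pow_left hq5 _
    exact_mod_cast g1
  · rw [Finset.mem_filter] at ht
    exact hc3 _ ht

end Pool.Agent.R323
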