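import Pool.Agent.R323.DM1
import Pool.Agent.Y902.GN.Core

/-!
# Algebraic relations for quotients of small height on a generic internal set
-/

set_option autoImplicit false

namespace Pool.Agent.R323

open Filter MvPolynomial Pool.Agent.Y902.GN

section

variable {Y : ℕ → ℕ} {N : ℕ} {Om : ℕ → Finset (Fin N → ℤ)}

/-- bounds for the coordinates -/
def Bd (Y : ℕ → ℕ) (Om : ℕ → Finset (Fin N → ℤ)) : Prop :=
  ∀ᶠ ν in (Uf : Filter ℕ), ∀ t ∈ Om ν, ∀ j, |t j| ≤ (Y ν : ℤ)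

theorem sp_bd (F : FF Y Om) (hb : Bd Y Om) : ∃ c : ℕ, ∀ᶠ ν in (Uf : Filter ℕ), ∀ t ∈ Om ν,
    ∀ o, |F.sp ν t o| ≤ ((Y ν : ℤ) + 2) ^ c := by
  obtain ⟨C, hC⟩ := (Re.sq F.A).bd 1
  refine ⟨max C 1, ?_⟩
  filter_upwards [hC, hb] with ν h1 h2 t ht o
  have a0 : (1 : ℤ) ≤ (Y ν : ℤ) + 2 := by omega
  have h3 : ∀ j, |t j| ≤ ((Y ν : ℤ) + 2) ^ 1 := fun j => by
    have := h2 t ht j
    rw [pow_one]; omega
  cases o with
  | none => exact (h1 t h3).trans (pow_le_pow_right₀ a0 (le_max_left _ _))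
  | some b => exact (h3 _).trans (pow_le_pow_right₀ a0 (le_max_right _ _))

theorem val_bd (F : FF Y Om) (hb : Bd Y Om) {P : MvPolynomial (Option (Fin F.d)) (OO Y)}
    {p : ℕ → MvPolynomial (Option (Fin F.d)) ℤ} (hp : Re P p) :
    ∃ C : ℕ, ∀ᶠ ν in (Uf : Filter ℕ), ∀ t ∈ Om ν,
      |eval (F.sp ν t) (p ν)| ≤ ((Y ν : ℤ) + 2) ^ C := by
  obtain ⟨c, hc⟩ := sp_bd F hb
  obtain ⟨C, hC⟩ := hp.bd c
  refine ⟨C, ?_⟩
  filter_upwards [hc, hC] with ν h1 h2 t ht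
  exact h2 _ (h1 t ht)

theorem Re_pow {σ : Type*} {P : MvPolynomial σ (OO Y)} {p : ℕ → MvPolynomial σ ℤ} (hp : Re P p)
    (n : ℕ) : Re (P ^ n) (fun ν => p ν ^ n) := by
  induction n with
  | zero => simpa using Re.one
  | succ n ih =>
    simp only [pow_succ]
    exact ih.mul hp

/-- every polynomial is, up to a power of the denominator, a polynomial in `y` and `Θ` -/
theorem rep_sb (F : FF Y Om) (P : MvPolynomial (Fin N) (OO Y)) :
    ∃ (n : ℕ) (P' : MvPolynomial (Option (Fin F.d)) (OO Y)),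
      rename F.ι F.B₀ ^ n * P - sb F.ι F.A P' ∈ JI Y Om := by
  induction P using MvPolynomial.induction_on with
  | C a =>
    refine ⟨0, C a, ?_⟩
    have : sb F.ι F.A (C a) = C a := by
      unfold sb
      rw [aeval_C]
      rfl
    rw [this]
    simp
  | add P Q hP hQ =>
    obtain ⟨n, P', h1⟩ := hP
    obtain ⟨m, Q', h2⟩ := hQ
    refine ⟨n + m, rename some F.B₀ ^ m * P' + rename some F.B₀ ^ n * Q', ?_⟩
    have e : rename F.ι F.B₀ ^ (n + m) * (P + Q) -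
        sb F.ι F.A (rename some F.B₀ ^ m * P' + rename some F.B₀ ^ n * Q') =
        rename F.ι F.B₀ ^ m * (rename F.ι F.B₀ ^ n * P - sb F.ι F.A P') +
        rename F.ι F.B₀ ^ n * (rename F.ι F.B₀ ^ m * Q - sb F.ι F.A Q') := by
      rw [map_add, map_mul, map_mul, map_pow, map_pow, sb_rename, pow_add]
      ring
    rw [e]
    exact Ideal.add_mem _ (Ideal.mul_mem_left _ _ h1) (Ideal.mul_mem_left _ _ h2)
  | mul_X P i hP =>
    obtain ⟨n, P', h1⟩ := hP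
    refine ⟨n + 1, P' * F.B i, ?_⟩
    have e : rename F.ι F.B₀ ^ (n + 1) * (P * X i) - sb F.ι F.A (P' * F.B i) =
        (rename F.ι F.B₀ * X i) * (rename F.ι F.B₀ ^ n * P - sb F.ι F.A P') +
        sb F.ι F.A P' * (rename F.ι F.B₀ * X i - sb F.ι F.A (F.B i)) := by
      rw [map_mul]
      ring
    rw [e]
    exact Ideal.add_mem _ (Ideal.mul_mem_left _ _ h1) (Ideal.mul_mem_left _ _ (F.BX i))

/-- quotients in lowest terms of small height -/
def LT (Y : ℕ → ℕ) {N : ℕ} (Om : ℕ → Finset (Fin N → ℤ)) (U V : MvPolynomial (Fin N) (OO Y)) :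
    Prop :=
  ∀ᶠ ν in (Uf : Filter ℕ), ∀ t ∈ Om ν, ∃ a b : ℤ, IsCoprime a b ∧ |a| ≤ (Y ν : ℤ) ∧
    |b| ≤ (Y ν : ℤ) ∧ a * eval t (sq V ν) = b * eval t (sq U ν)

/-- **Relations.** Quotients of small height satisfy relations of bounded degree. -/
theorem relation (hY : ∀ m : ℕ, ∀ᶠ ν in (Uf : Filter ℕ), m ≤ Y ν) (hG : Gen Y Om) (F : FF Y Om)
    (hb : Bd Y Om) : ∃ D : ℕ, ∀ U V : MvPolynomial (Fin N) (OO Y), V ∉ JI Y Om → LT Y Om U V →
    ∃ c : (Fin F.d → Fin (D + 1)) × Fin (D + 1) → OO Y, c ≠ 0 ∧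
      ∑ e, C (c e) * ((∏ i, X (F.ι i) ^ (e.1 i : ℕ)) *
        (U ^ (e.2 : ℕ) * V ^ (D - (e.2 : ℕ)))) ∈ JI Y Om := by
  classical
  obtain ⟨m, hm⟩ := hG.1
  have hprime := hG.isPrime hY
  obtain ⟨k, hk⟩ : ∃ k, k = 4 * (2 * F.d + 7) * (2 * m) + 1 := ⟨_, rfl⟩
  have hk1 : 1 ≤ k := by omega
  obtain ⟨D, ρ, X₀, hS⟩ := S_P F.d k
  obtain ⟨xx, hX⟩ := rootX Y k hk1
  refine ⟨D, ?_⟩
  intro U V hV hLT
  -- the representatives
  obtain ⟨nU, U', hU'⟩ := rep_sb F U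
  obtain ⟨nV, V', hV'⟩ := rep_sb F V
  obtain ⟨U1, hU1⟩ : ∃ U1, U1 = rename some F.B₀ ^ nV * U' := ⟨_, rfl⟩
  obtain ⟨V1, hV1⟩ : ∃ V1, V1 = rename some F.B₀ ^ nU * V' := ⟨_, rfl⟩
  have eU : rename F.ι F.B₀ ^ (nU + nV) * U - sb F.ι F.A U1 ∈ JI Y Om := by
    have e : rename F.ι F.B₀ ^ (nU + nV) * U - sb F.ι F.A U1 =
        rename F.ι F.B₀ ^ nV * (rename F.ι F.B₀ ^ nU * U - sb F.ι F.A U') := by
      rw [hU1, map_mul, map_pow, sb_rename, pow_add]
      ring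
    rw [e]
    exact Ideal.mul_mem_left _ _ hU'
  have eV : rename F.ι F.B₀ ^ (nU + nV) * V - sb F.ι F.A V1 ∈ JI Y Om := by
    have e : rename F.ι F.B₀ ^ (nU + nV) * V - sb F.ι F.A V1 =
        rename F.ι F.B₀ ^ nU * (rename F.ι F.B₀ ^ nV * V - sb F.ι F.A V') := by
      rw [hV1, map_mul, map_pow, sb_rename, pow_add]
      ring
    rw [e]
    exact Ideal.mul_mem_left _ _ hV'
  have hB : rename F.ι F.B₀ ∉ JI Y Om := by
    have := F.B0_notMem
    unfold FF.B0 at this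
    rwa [sb_rename] at this
  have hV1n : sb F.ι F.A V1 ∉ JI Y Om := by
    intro h
    have h1 : rename F.ι F.B₀ ^ (nU + nV) * V ∈ JI Y Om := by
      have := Ideal.add_mem _ eV h
      rwa [sub_add_cancel] at this
    rcases hprime.mem_or_mem h1 with h2 | h2
    · exact hB (hprime.mem_of_pow_mem _ h2)
    · exact hV h2
  have hgn : sb F.ι F.A (pderiv none F.H * V1) ∉ JI Y Om := by
    rw [map_mul]
    intro h
    rcases hprime.mem_or_mem h with h2 | h2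
    · exact F.HT h2
    · exact hV1n h2
  -- the polynomial whose zeros are avoided
  obtain ⟨Z, hZ⟩ : ∃ Z : ℕ → Finset (Fin N → ℤ), ∀ ν t, t ∈ Z ν ↔ t ∈ Om ν ∧
      eval (F.sp ν t) (pderiv none (sq F.H ν) * sq V1 ν) ≠ 0 :=
    ⟨fun ν => (Om ν).filter fun t => eval (F.sp ν t) (pderiv none (sq F.H ν) * sq V1 ν) ≠ 0,
      fun ν t => Finset.mem_filter⟩
  have hgr : Re (pderiv none F.H * V1) (fun ν => pderiv none (sq F.H ν) * sq V1 ν) :=
    ((Re.sq F.H).pderiv none).mul (Re.sq V1)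
  have hZm : ∀ᶠ ν in (Uf : Filter ℕ), Y ν + 2 ≤ (Z ν).card ^ (2 * m) := by
    have h1 : ¬ Big Y (fun ν => (Om ν).filter fun t =>
        eval (F.sp ν t) (pderiv none (sq F.H ν) * sq V1 ν) = 0) :=
      F.notBig hG hgr hgn (Filter.Eventually.of_forall fun ν => Finset.filter_subset _ _)
        (Filter.Eventually.of_forall fun ν t ht => (Finset.mem_filter.1 ht).2)
    have h2 : ∀ᶠ ν in (Uf : Filter ℕ), ¬ (Y ν + 2 ≤ ((Om ν).filter fun t =>
        eval (F.sp ν t) (pderiv none (sq F.H ν) * sq V1 ν) = 0).card ^ (2 * m)) := by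
      rw [ev_not]
      intro h
      exact h1 ⟨2 * m, h⟩
    filter_upwards [hm, h2, hY (4 ^ m)] with ν a b c
    have e : (Om ν).card = (Z ν).card + ((Om ν).filter fun t =>
        eval (F.sp ν t) (pderiv none (sq F.H ν) * sq V1 ν) = 0).card := by
      have e1 := Finset.card_filter_add_card_filter_not (s := Om ν)
        (fun t => eval (F.sp ν t) (pderiv none (sq F.H ν) * sq V1 ν) = 0)
      have e2 : Z ν = (Om ν).filter fun t =>
          ¬ eval (F.sp ν t) (pderiv none (sq F.H ν) * sq V1 ν) = 0 := by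
        ext t
        rw [hZ, Finset.mem_filter]
      rw [e2]
      omega
    set A := (Z ν).card with hA
    set B := ((Om ν).filter fun t =>
        eval (F.sp ν t) (pderiv none (sq F.H ν) * sq V1 ν) = 0).card with hB'
    rcases le_total B A with h | h
    · refine half_aux (a.trans (Nat.pow_le_pow_left ?_ m)) (by omega)
      omega
    · exfalso
      apply b
      refine half_aux (a.trans (Nat.pow_le_pow_left ?_ m)) (by omega)
      omega
  obtain ⟨C2, hC2⟩ := val_bd F hb hgr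
  have hrU := (mem_JI ((((Re.sq (rename F.ι F.B₀ ^ (nU + nV)))).mul (Re.sq U)).sub
    (F.sb_re (Re.sq U1)))).1 eU
  have hrV := (mem_JI ((((Re.sq (rename F.ι F.B₀ ^ (nU + nV)))).mul (Re.sq V)).sub
    (F.sb_re (Re.sq V1)))).1 eV
  have key : ∀ᶠ ν in (Uf : Filter ℕ), ∃ (T' : Finset (Fin N → ℤ))
      (c : (Fin F.d → Fin (D + 1)) × Fin (D + 1) → ℤ),
      T' ⊆ Z ν ∧ (Z ν).card ≤ xx ν ^ (2 * F.d + 7) * T'.card ∧ c ≠ 0 ∧
      (∀ e, |c e| ≤ (xx ν : ℤ) ^ ρ) ∧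
      ∀ t ∈ T', ∑ e, c e * ((∏ i, t (F.ι i) ^ (e.1 i : ℕ)) *
        (eval t (sq U ν) ^ (e.2 : ℕ) * eval t (sq V ν) ^ (D - (e.2 : ℕ)))) = 0 := by
    filter_upwards [X_large hY (fun ν => (hX ν).2.1) X₀, hC2, (F.mem (Re.sq F.H)).1 F.H0, hrU, hrV,
      hLT, hb, hY 1, ev_size hY hk1 (fun ν => (hX ν).2.1) (M := fun _ => 0) (w := fun _ => 0)
        (fun c => by
          filter_upwards [hY 1] with ν hν
          rcases Nat.eq_zero_or_pos c with h | h
          · subst h; simpa using hν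
          · rw [zero_pow (by omega)]; omega)
        (fun c => by
          filter_upwards [hY 1] with ν hν
          rcases Nat.eq_zero_or_pos c with h | h
          · subst h; simpa using hν
          · rw [zero_pow (by omega)]; omega) (C2 + 1)] with ν g1 g2 g3 g4 g5 g6 g7 g8 g9
    have hex : ∀ t, ∃ a b : ℤ, t ∈ Om ν → IsCoprime a b ∧ |a| ≤ (Y ν : ℤ) ∧
        |b| ≤ (Y ν : ℤ) ∧ a * eval t (sq V ν) = b * eval t (sq U ν) := by
      intro t
      by_cases ht : t ∈ Om ν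
      · obtain ⟨a, b, h⟩ := g6 t ht
        exact ⟨a, b, fun _ => h⟩
      · exact ⟨0, 0, fun h => absurd h ht⟩
    choose a b hab using hex
    obtain ⟨T', hT', hcard, c, hc0, hcb, hc⟩ := hS (xx ν) (Y ν) g1 g8 (by
      have := (hX ν).2.1
      omega) (sq F.H ν) (sq U1 ν) (sq V1 ν) (Fin N → ℤ) (Z ν) (F.sp ν) a b (by
      intro t ht
      obtain ⟨ht1, ht2⟩ := (hZ ν t).1 ht
      obtain ⟨h1, h2, h3, h4⟩ := hab t ht1
      refine ⟨g3 t ht1, fun i => g7 t ht1 _, h2, h3, h1, ?_, ht2, ?_⟩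
      · have e1 := g4 t ht1
        have e2 := g5 t ht1
        rw [map_sub, map_mul, F.eval_sb, sub_eq_zero] at e1 e2
        rw [← e1, ← e2]
        linear_combination (eval t (sq (rename F.ι F.B₀ ^ (nU + nV)) ν)) * h4
      · refine lt_of_le_of_lt (g2 t ht1) ?_
        have h5 : (Y ν : ℤ) + 2 < 2 ^ (Nat.log 2 (Y ν + 2) + 1) := by
          have := Nat.lt_pow_succ_log_self (by norm_num : 1 < 2) (Y ν + 2)
          exact_mod_cast this
        calc ((Y ν : ℤ) + 2) ^ C2 ≤ (2 ^ (Nat.log 2 (Y ν + 2) + 1)) ^ C2 :=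
              pow_le_pow_left₀ (by positivity) h5.le _
          _ = 2 ^ ((Nat.log 2 (Y ν + 2) + 1) * C2) := by rw [← pow_mul]
          _ < 2 ^ xx ν := by
              apply pow_lt_pow_right₀ (by norm_num)
              nlinarith)
    refine ⟨T', c, hT', hcard, hc0, hcb, fun t ht => ?_⟩
    obtain ⟨ht1, ht2⟩ := (hZ ν t).1 (hT' ht)
    obtain ⟨h1, h2, h3, h4⟩ := hab t ht1
    have h5 := hc t ht
    have hVt : eval t (sq V ν) ≠ 0 := by
      intro h
      apply ht2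
      have e2 := g5 t ht1
      rw [map_sub, map_mul, F.eval_sb, sub_eq_zero, h, mul_zero] at e2
      rw [map_mul, ← e2, mul_zero]
    have hbt : b t ≠ 0 := by
      intro h
      rw [h, zero_mul] at h4
      have h6 : a t = 0 := (mul_eq_zero.1 h4).resolve_right hVt
      rw [h, h6] at h1
      exact not_isCoprime_zero_zero h1
    have h6 : b t ^ D * ∑ e, c e * ((∏ i, t (F.ι i) ^ (e.1 i : ℕ)) *
        (eval t (sq U ν) ^ (e.2 : ℕ) * eval t (sq V ν) ^ (D - (e.2 : ℕ)))) =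
        eval t (sq V ν) ^ D * ∑ e, c e * ((∏ i, F.sp ν t (some i) ^ (e.1 i : ℕ)) *
        (a t ^ (e.2 : ℕ) * b t ^ (D - (e.2 : ℕ)))) := by
      rw [Finset.mul_sum, Finset.mul_sum]
      refine Finset.sum_congr rfl fun e _ => ?_
      have hD : D = (e.2 : ℕ) + (D - (e.2 : ℕ)) := by
        have := e.2.2
        omega
      have e1 : b t ^ D = b t ^ (e.2 : ℕ) * b t ^ (D - (e.2 : ℕ)) := by
        rw [← pow_add, ← hD]
      have e2 : eval t (sq V ν) ^ D = eval t (sq V ν) ^ (e.2 : ℕ) *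
          eval t (sq V ν) ^ (D - (e.2 : ℕ)) := by
        rw [← pow_add, ← hD]
      have e3 : b t ^ (e.2 : ℕ) * eval t (sq U ν) ^ (e.2 : ℕ) =
          a t ^ (e.2 : ℕ) * eval t (sq V ν) ^ (e.2 : ℕ) := by
        rw [← mul_pow, ← mul_pow, h4]
      simp only [F.sp_some]
      rw [e1, e2]
      linear_combination (c e * (∏ i, t (F.ι i) ^ (e.1 i : ℕ)) * b t ^ (D - (e.2 : ℕ)) *
        eval t (sq V ν) ^ (D - (e.2 : ℕ))) * e3
    rw [h5, mul_zero] at h6
    exact (mul_eq_zero.1 h6).resolve_left (pow_ne_zero _ hbt)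
  obtain ⟨Om', hOm'⟩ := key.choice
  obtain ⟨cc, hcc⟩ := hOm'.choice
  have hsub : ∀ᶠ ν in (Uf : Filter ℕ), Om' ν ⊆ Om ν := by
    filter_upwards [hcc] with ν h
    exact h.1.trans fun t ht => ((hZ ν t).1 ht).1
  have hbig : Big Y Om' := by
    refine Big.frac hY (A := Z) (X := xx) (m := 2 * m) (e := 2 * F.d + 7) (k := k) (by omega)
      hZm ?_ ?_
    · filter_upwards [hcc] with ν hν
      exact hν.2.1
    · exact Filter.Eventually.of_forall fun ν => ⟨(hX ν).1, (hX ν).2.2⟩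
  have hmem : ∀ e, ((fun ν => cc ν e : ℕ → ℤ) : ZS) ∈ OO Y := by
    intro e
    rw [mem_OO]
    refine ⟨(k + 1) * ρ, ?_⟩
    filter_upwards [hcc] with ν hν
    refine (hν.2.2.2.1 e).trans ?_
    rw [pow_mul]
    refine pow_le_pow_left₀ (by positivity) ?_ _
    have h1 : xx ν ≤ xx ν ^ k := Nat.le_self_pow (by omega) _
    have h2 := (hX ν).2.2
    have h3 : 2 ^ k * (Y ν + 2) ≤ (Y ν + 2) ^ k * (Y ν + 2) :=
      Nat.mul_le_mul_right _ (Nat.pow_le_pow_left (by omega) _)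
    have h4 : xx ν ≤ (Y ν + 2) ^ (k + 1) := by
      rw [pow_succ]
      omega
    exact_mod_cast h4
  refine ⟨fun e => ⟨_, hmem e⟩, ?_, ?_⟩
  · intro h0
    have h1 : ∀ e, ∀ᶠ ν in (Uf : Filter ℕ), cc ν e = 0 := by
      intro e
      have h2 := congrArg (Subtype.val) (congrFun h0 e)
      exact Filter.Germ.coe_eq.1 h2
    have h2 := (Filter.eventually_all).2 h1
    obtain ⟨ν, h3, h4⟩ := (h2.and hcc).exists
    exact h4.2.2.1 (funext h3)
  · refine hG.2 Om' hsub hbig ?_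
    have hre : Re (∑ e : (Fin F.d → Fin (D + 1)) × Fin (D + 1),
        C (⟨_, hmem e⟩ : OO Y) * ((∏ i, X (F.ι i) ^ (e.1 i : ℕ)) *
        (U ^ (e.2 : ℕ) * V ^ (D - (e.2 : ℕ)))))
        (fun ν => ∑ e : (Fin F.d → Fin (D + 1)) × Fin (D + 1),
          C (cc ν e) * ((∏ i, X (F.ι i) ^ (e.1 i : ℕ)) *
          (sq U ν ^ (e.2 : ℕ) * sq V ν ^ (D - (e.2 : ℕ))))) := by
      refine Re.sum _ fun e _ => (Re.C rfl).mul (Re.mul (Re.prod _ fun i _ => ?_) (Re.mul ?_ ?_))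
      · exact Re_pow (Re.X _) _
      · exact Re_pow (Re.sq U) _
      · exact Re_pow (Re.sq V) _
    rw [mem_JI hre]
    filter_upwards [hcc] with ν hν t ht
    have h1 := hν.2.2.2.2 t ht
    rw [map_sum]
    simp only [map_mul, map_prod, map_pow, eval_C, eval_X]
    exact h1

end

end Pool.Agent.R323
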