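import Pool.Agent.TH450.FG.F

/-!
# Orbits of bounded height over function fields
-/

set_option autoImplicit false

namespace Pool.Agent.R323

open Pool.Agent.H951R3.PB Pool.Agent.TH450.PC Pool.Agent.TH450.FG Real Finset Filter Topology

universe u v w

theorem na_sum_le {L : Type*} [Field L] {w : AbsoluteValue L ℝ} (hna : IsNonarchimedean w)
    {α : Type*} (s : Finset α) (g : α → L) {C : ℝ} (hC : 0 ≤ C) (h : ∀ i ∈ s, w (g i) ≤ C) :
    w (∑ i ∈ s, g i) ≤ C := by
  classical
  induction s using Finset.induction_on with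
  | empty => simpa using hC
  | insert a s ha ih =>
    rw [Finset.sum_insert ha]
    refine (hna _ _).trans (max_le (h _ (Finset.mem_insert_self _ _)) ?_)
    exact ih fun i hi => h i (Finset.mem_insert_of_mem hi)

section local_part

variable {K : Type u} [Field K]

/-- good places: the logarithm of the norm is multiplied by `d` -/
theorem good_ok {d : ℕ} (hd : 2 ≤ d) {f : Fin 2 → MvPolynomial (Fin 2) K}
    (hf : ∀ i, (f i).IsHomogeneous d) (h0 : rs f d ≠ 0) {V : AbsoluteValue K ℝ}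
    {w : AbsoluteValue (AlgebraicClosure K) ℝ} (hw : Ext V w) (hna : IsNonarchimedean w)
    (hc : ∀ i m, V ((f i).coeff m) ≤ 1) (hr : V (rs f d) = 1) :
    D1.Ok w (ev (fL K f)) d 0 0 := by
  have hFib := F4_fib (by omega : 1 ≤ d) hf h0 w
  have hup : ∀ x : Fin 2 → AlgebraicClosure K, nrm w x = 1 → log (nrm w (ev (fL K f) x)) ≤ 0 := by
    intro x hx
    have h1 : ∀ i, w (ev (fL K f) x i) ≤ 1 := by
      intro i
      have h2 : ∀ j, w (x j) ≤ 1 := by
        intro j
        rw [← hx]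
        fin_cases j
        · exact le_max_left _ _
        · exact le_max_right _ _
      unfold ev
      rw [MvPolynomial.eval_eq']
      refine na_sum_le hna _ _ zero_le_one fun m _ => ?_
      rw [map_mul, map_prod]
      have h3 : w ((fL K f i).coeff m) ≤ 1 := by
        unfold fL
        rw [MvPolynomial.coeff_map, hw]
        exact hc i m
      refine mul_le_one₀ h3 (Finset.prod_nonneg fun _ _ => w.nonneg _) ?_
      refine Finset.prod_le_one (fun _ _ => w.nonneg _) fun j _ => ?_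
      rw [map_pow]
      exact pow_le_one₀ (w.nonneg _) (h2 j)
    apply Real.log_nonpos (Pool.Agent.TH450.FG.nrm_nonneg _ _)
    exact max_le (h1 0) (h1 1)
  have hS : Ssup w (ev (fL K f)) ≤ 0 := by
    unfold Ssup
    have : Nonempty {x : Fin 2 → AlgebraicClosure K // nrm w x = 1} := ⟨⟨_, B2_nrm_e0 w⟩⟩
    exact ciSup_le fun x => hup x.1 x.2
  refine ⟨fun a x => fib_homog hFib a x, fun hx => fib_ne_zero hFib hx, hup, ?_⟩
  intro x hx
  have h1 := (fib_bounds_na w hna (by omega : 1 ≤ d) hFib).2 x hx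
  have h2 : log (w (rs (fL K f) d)) = 0 := by
    rw [F4_rs, hw, hr, log_one]
  have h3 : Ssup w (ev (fL K f)) - tt w (ev (fL K f)) d (log (w (rs (fL K f) d))) =
      -(2 * d - 1) * Ssup w (ev (fL K f)) := by
    unfold tt
    rw [h2]
    ring
  rw [h3] at h1
  have h4 : (0 : ℝ) ≤ 2 * d - 1 := by
    have : (2 : ℝ) ≤ d := by exact_mod_cast hd
    linarith
  nlinarith

variable {k : Type v} [Field k] [Algebra k K]

/-- sums of logarithms of nonzero elements vanish -/
theorem sum_log (Q : PF.{u, v, w} k K) (z : K) (hz : z ≠ 0) :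
    ∃ T : Finset Q.Pl, ∀ S, T ⊆ S → ∑ v ∈ S, Q.wt v * log (Q.V v z) = 0 :=
  ⟨(Q.fin z hz).toFinset, fun S hS => Q.prod z hz S fun v hv => by
    by_contra hne
    exact hv (hS (by simpa using hne))⟩

/-- **Orbits of bounded height.** -/
theorem orbit_const (Q : PF.{u, v, w} k K) {d : ℕ} (hd : 2 ≤ d)
    {f : Fin 2 → MvPolynomial (Fin 2) K} (hf : ∀ i, (f i).IsHomogeneous d) (h0 : rs f d ≠ 0)
    (x : ℕ → Fin 2 → K) (hx : ∀ n, x (n + 1) = ev f (x n))
    (hxx : ∀ m n, m ≠ n → wd (x m) (x n) ≠ 0) (S₀ : Finset Q.Pl) (B : ℝ)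
    (hS : ∀ v, v ∉ S₀ → (∀ i m, Q.V v ((f i).coeff m) ≤ 1) ∧ Q.V v (rs f d) = 1 ∧
      nrm (Q.V v) (x 0) = 1)
    (hB : ∀ n, ∑ v ∈ S₀, Q.wt v * log (nrm (Q.V v) (x n)) ≤ B)
    {a b c e : ℕ} (h1 : a ≠ b) (h2 : c ≠ e) (h3 : c ≠ a) (h4 : e ≠ b) :
    IsAlgebraic k ((wd (x a) (x b) * wd (x c) (x e)) / (wd (x c) (x a) * wd (x e) (x b))) := by
  classical
  choose w hw using fun v => exists_ext_gen (Q.V v) (Q.na v)
  have hna : ∀ v, IsNonarchimedean (w v) := fun v => ext_na (Q.na v) (hw v)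
  have hFib := fun v => F4_fib (by omega : 1 ≤ d) hf h0 (w v)
  have hd2 : (2 : ℝ) ≤ d := by exact_mod_cast hd
  have hxne : ∀ n, x n ≠ 0 := fun n => wd_ne_left (hxx n (n + 1) (by omega))
  have hvx : ∀ n, vL K (x n) ≠ 0 := fun n => F4_vL_ne (hxne n)
  have hiter : ∀ n m, (ev (fL K f))^[m] (vL K (x n)) = vL K (x (n + m)) := by
    intro n m
    induction m with
    | zero => rfl
    | succ m ih => rw [Function.iterate_succ_apply', ih, F4_ev, ← hx]; rfl
  -- the Green function as a limit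
  have hGr : ∀ v n, Tendsto (fun m : ℕ => log (nrm (Q.V v) (x (n + m))) / (d : ℝ) ^ m) atTop
      (𝓝 (Gr (w v) (ev (fL K f)) d (vL K (x n)))) := by
    intro v n
    refine (gr_tendsto hd (hFib v) (hvx n)).congr fun m => ?_
    rw [hiter, F4_ext_nrm (hw v)]
  -- outside S₀
  have hnrm : ∀ v, v ∉ S₀ → ∀ n, log (nrm (Q.V v) (x n)) = 0 := by
    intro v hv n
    obtain ⟨k1, k2, k3⟩ := hS v hv
    have hok := good_ok hd hf h0 (hw v) (hna v) k1 k2
    induction n with
    | zero => rw [k3, log_one]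
    | succ n ih =>
      have h5 := hok.step (hvx n)
      rw [F4_ev, ← hx, F4_ext_nrm (hw v), F4_ext_nrm (hw v), ih] at h5
      linarith
  have hGr0 : ∀ v, v ∉ S₀ → ∀ n, Gr (w v) (ev (fL K f)) d (vL K (x n)) = 0 := by
    intro v hv n
    refine tendsto_nhds_unique (hGr v n) ?_
    have : (fun m : ℕ => log (nrm (Q.V v) (x (n + m))) / (d : ℝ) ^ m) = fun _ => 0 := by
      funext m
      rw [hnrm v hv, zero_div]
    rw [this]
    exact tendsto_const_nhds
  -- the sum of the Green functions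
  have hsum : ∀ n, ∀ S, S₀ ⊆ S →
      ∑ v ∈ S, Q.wt v * Gr (w v) (ev (fL K f)) d (vL K (x n)) ≤ 0 := by
    intro n S hSS
    have e1 : ∑ v ∈ S, Q.wt v * Gr (w v) (ev (fL K f)) d (vL K (x n)) =
        ∑ v ∈ S₀, Q.wt v * Gr (w v) (ev (fL K f)) d (vL K (x n)) := by
      symm
      refine Finset.sum_subset hSS fun v _ hv => ?_
      rw [hGr0 v hv, mul_zero]
    rw [e1]
    have h5 : Tendsto (fun m : ℕ => (∑ v ∈ S₀, Q.wt v * log (nrm (Q.V v) (x (n + m)))) /
        (d : ℝ) ^ m) atTop (𝓝 (∑ v ∈ S₀, Q.wt v * Gr (w v) (ev (fL K f)) d (vL K (x n)))) := by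
      have h6 := tendsto_finsetSum S₀ (fun v _ => (hGr v n).const_mul (Q.wt v))
      refine h6.congr fun m => ?_
      rw [Finset.sum_div]
      refine Finset.sum_congr rfl fun v _ => ?_
      ring
    have h6 : Tendsto (fun m : ℕ => B / (d : ℝ) ^ m) atTop (𝓝 0) :=
      (tendsto_pow_atTop_atTop_of_one_lt (by linarith)).const_div_atTop B
    refine le_of_tendsto_of_tendsto' h5 h6 fun m => ?_
    exact div_le_div_of_nonneg_right (hB _) (by positivity)
  -- the pairing
  have hG : ∀ v m n, G d f (w v) (x m) (x n) = -log (Q.V v (wd (x m) (x n))) +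
      Gr (w v) (ev (fL K f)) d (vL K (x m)) + Gr (w v) (ev (fL K f)) d (vL K (x n)) +
      ta d (log (Q.V v (rs f d))) := by
    intro v m n
    unfold G gg
    rw [F4_wd, hw v, F4_rs, hw v]
  have hglob : ∀ m n, m ≠ n → ∃ T : Finset Q.Pl, ∀ S, T ⊆ S →
      ∑ v ∈ S, Q.wt v * G d f (w v) (x m) (x n) ≤ 0 := by
    intro m n hmn
    obtain ⟨T1, hT1⟩ := sum_log Q _ (hxx m n hmn)
    obtain ⟨T2, hT2⟩ := sum_log Q _ h0
    refine ⟨S₀ ∪ (T1 ∪ T2), fun S hSS => ?_⟩
    have k1 := hT1 S ((Finset.subset_union_left.trans Finset.subset_union_right).trans hSS)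
    have k2 := hT2 S ((Finset.subset_union_right.trans Finset.subset_union_right).trans hSS)
    have k3 := hsum m S (Finset.subset_union_left.trans hSS)
    have k4 := hsum n S (Finset.subset_union_left.trans hSS)
    have e1 : ∑ v ∈ S, Q.wt v * G d f (w v) (x m) (x n) =
        -(∑ v ∈ S, Q.wt v * log (Q.V v (wd (x m) (x n)))) +
        (∑ v ∈ S, Q.wt v * Gr (w v) (ev (fL K f)) d (vL K (x m))) +
        (∑ v ∈ S, Q.wt v * Gr (w v) (ev (fL K f)) d (vL K (x n))) -
        1 / (d * (d - 1)) * (∑ v ∈ S, Q.wt v * log (Q.V v (rs f d))) := by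
      rw [Finset.mul_sum, ← Finset.sum_neg_distrib, ← Finset.sum_add_distrib,
        ← Finset.sum_add_distrib, ← Finset.sum_sub_distrib]
      refine Finset.sum_congr rfl fun v _ => ?_
      rw [hG]
      unfold ta
      ring
    rw [e1, k1, k2]
    linarith
  have hout : ∀ v, v ∉ S₀ → ∀ m n, m ≠ n → 0 ≤ G d f (w v) (x m) (x n) := by
    intro v hv m n hmn
    rw [hG, hGr0 v hv, hGr0 v hv, (hS v hv).2.1]
    have e1 : ta d (log (1 : ℝ)) = 0 := by
      unfold ta
      simp
    rw [e1]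
    have k1 := A2_wd_le_na (Q.V v) (Q.na v) (x m) (x n)
    have k2 : log (Q.V v (wd (x m) (x n))) ≤ log (nrm (Q.V v) (x m) * nrm (Q.V v) (x n)) :=
      log_le_log ((Q.V v).pos (hxx m n hmn)) k1
    rw [log_mul (B1_nrm_pos _ (hxne m)).ne' (B1_nrm_pos _ (hxne n)).ne', hnrm v hv,
      hnrm v hv] at k2
    linarith
  by_cases hbad : ∃ v₀ ∈ S₀, 0 < msz d f (w v₀)
  · exfalso
    obtain ⟨v₀, hv₀, hm₀⟩ := hbad
    obtain ⟨I, hI⟩ : ∃ I : Finset Q.Pl, I = S₀.filter fun v => 0 < msz d f (w v) := ⟨_, rfl⟩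
    have hImem : ∀ v, v ∈ I ↔ v ∈ S₀ ∧ 0 < msz d f (w v) := by
      intro v
      rw [hI, Finset.mem_filter]
    have hpos : ∀ v, v ∉ I → ∀ m n, m ≠ n → 0 ≤ G d f (w v) (x m) (x n) := by
      intro v hv m n hmn
      by_cases hvS : v ∈ S₀
      · have hm : msz d f (w v) ≤ 0 := by
          by_contra hcon
          exact hv ((hImem v).2 ⟨hvS, not_le.1 hcon⟩)
        refine gg_nonneg d hd _ (w v) (hna v) _ _ (hFib v) hm ?_
        rw [F4_wd]
        simpa using hxx m n hmn
      · exact hout v hvS m n hmn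
    have hglobI : ∀ m n, m ≠ n → ∑ v : {v // v ∈ I}, Q.wt v.1 * G d f (w v.1) (x m) (x n) ≤ 0 := by
      intro m n hmn
      obtain ⟨T, hT⟩ := hglob m n hmn
      have k1 := hT (T ∪ I) Finset.subset_union_left
      have k2 : ∑ v ∈ I, Q.wt v * G d f (w v) (x m) (x n) ≤
          ∑ v ∈ T ∪ I, Q.wt v * G d f (w v) (x m) (x n) :=
        Finset.sum_le_sum_of_subset_of_nonneg Finset.subset_union_right fun v _ hv =>
          mul_nonneg (Q.wt_pos v).le (hpos v hv m n hmn)
      have k3 := Finset.sum_coe_sort I (fun v => Q.wt v * G d f (w v) (x m) (x n))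
      rw [k3]
      linarith
    have : Nonempty {v // v ∈ I} := ⟨⟨v₀, (hImem _).2 ⟨hv₀, hm₀⟩⟩⟩
    obtain ⟨M, c0, hc0, Hgain⟩ := gainNA.{u} d hd
    obtain ⟨C', hC', Hsolve⟩ := solve_bound (C := M * d + 2 / c0 + 1) (by positivity) 1 le_rfl
    -- the count
    have hcount : ∀ X : Finset ℕ, (X.card : ℝ) ≤
        M * d * (1 + 2 / c0 * Fintype.card {v // v ∈ I} * Nat.log d X.card) := by
      intro X
      refine count_zero hd (fun t : {v // v ∈ I} => Q.wt t.1 * msz d f (w t.1))
        (fun t => mul_pos (Q.wt_pos _) ((hImem _).1 t.2).2)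
        (fun t m n => Q.wt t.1 * G d f (w t.1) (x m) (x n)) hc0 X ?_ (M := M) ?_ ?_
      · intro t n y hyinj _
        have h1 := lossNA d hd _ (w t.1) (hna _) (fL K f) (fun i => (hf i).map _)
          (F4_rs_ne h0) n (fun j => vL K (x (y j))) (fun j => hvx _) (by
            intro i j hij
            rw [F4_wd]
            simpa using hxx _ _ (fun h => hij (hyinj h)))
        have h2 := mul_le_mul_of_nonneg_left h1 (Q.wt_pos t.1).le
        rw [Finset.mul_sum] at h2
        simp_rw [Finset.mul_sum] at h2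
        refine le_trans (le_of_eq ?_) h2
        unfold msz
        ring
      · intro t
        obtain ⟨cell, hcell⟩ := Hgain _ (w t.1) (hna _) _ _ (hFib t.1) ((hImem _).1 t.2).2
        refine ⟨fun n => cell (vL K (x n)), ?_⟩
        intro m _ n _ hmn hcmn
        have h1 := hcell (vL K (x m)) (vL K (x n)) (by
          rw [F4_wd]
          simpa using hxx m n hmn) hcmn
        have h2 := mul_le_mul_of_nonneg_left h1 (Q.wt_pos t.1).le
        refine le_trans (le_of_eq ?_) h2
        unfold msz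
        ring
      · intro m _ n _ hmn
        exact hglobI m n hmn
    set R : ℝ := (Fintype.card {v // v ∈ I} : ℝ) with hR
    have hR0 : 0 ≤ R := by positivity
    have hall : ∀ n : ℕ, (n : ℝ) ≤ C' * (R + 1) * log (1 + (R + 1)) := by
      intro n
      refine Hsolve d n (R + 1) R hd (by linarith) (by linarith) hR0 ?_
      have k1 := hcount (Finset.range n)
      rw [Finset.card_range] at k1
      refine k1.trans ?_
      have e1 : (M * d : ℝ) ≤ M * d + 2 / c0 + 1 := by
        have : 0 < 2 / c0 := by positivity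
        linarith
      have e2 : 2 / c0 ≤ M * d + 2 / c0 + 1 := by
        have : (0 : ℝ) ≤ M * d := by positivity
        linarith
      gcongr
    obtain ⟨n, hn⟩ := exists_nat_gt (C' * (R + 1) * log (1 + (R + 1)))
    exact absurd (hall n) (not_le.2 hn)
  · push Not at hbad
    have hpos : ∀ v, ∀ m n, m ≠ n → 0 ≤ G d f (w v) (x m) (x n) := by
      intro v m n hmn
      by_cases hvS : v ∈ S₀
      · refine gg_nonneg d hd _ (w v) (hna v) _ _ (hFib v) (hbad v hvS) ?_
        rw [F4_wd]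
        simpa using hxx m n hmn
      · exact hout v hvS m n hmn
    have hzero : ∀ v, ∀ m n, m ≠ n → G d f (w v) (x m) (x n) = 0 := by
      intro v m n hmn
      obtain ⟨T, hT⟩ := hglob m n hmn
      have k1 := hT (insert v T) (Finset.subset_insert _ _)
      have k2 : Q.wt v * G d f (w v) (x m) (x n) ≤
          ∑ v ∈ insert v T, Q.wt v * G d f (w v) (x m) (x n) :=
        Finset.single_le_sum (f := fun v => Q.wt v * G d f (w v) (x m) (x n))
          (fun v' _ => mul_nonneg (Q.wt_pos v').le (hpos v' m n hmn)) (Finset.mem_insert_self _ _)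
      have k3 := hpos v m n hmn
      have k4 := Q.wt_pos v
      by_contra hne
      have k5 : 0 < G d f (w v) (x m) (x n) := lt_of_le_of_ne k3 (Ne.symm hne)
      have := mul_pos k4 k5
      linarith
    have n1 := hxx a b h1
    have n2 := hxx c e h2
    have n3 := hxx c a h3
    have n4 := hxx e b h4
    have hne : (wd (x a) (x b) * wd (x c) (x e)) / (wd (x c) (x a) * wd (x e) (x b)) ≠ 0 :=
      div_ne_zero (mul_ne_zero n1 n2) (mul_ne_zero n3 n4)
    refine Q.const _ hne fun v => ?_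
    have c1 := cross_log (d := d) (f := f) (hw v) (hzero v a b h1) (hzero v c e h2)
      (hzero v c a h3) (hzero v e b h4)
    have m1 : Q.V v (wd (x a) (x b)) ≠ 0 := (Q.V v).ne_zero n1
    have m2 : Q.V v (wd (x c) (x e)) ≠ 0 := (Q.V v).ne_zero n2
    have m3 : Q.V v (wd (x c) (x a)) ≠ 0 := (Q.V v).ne_zero n3
    have m4 : Q.V v (wd (x e) (x b)) ≠ 0 := (Q.V v).ne_zero n4
    have c2 : log (Q.V v ((wd (x a) (x b) * wd (x c) (x e)) /
        (wd (x c) (x a) * wd (x e) (x b)))) = 0 := by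
      rw [map_div₀, map_mul, map_mul, log_div (mul_ne_zero m1 m2) (mul_ne_zero m3 m4),
        log_mul m1 m2, log_mul m3 m4]
      linarith
    have c3 : 0 < Q.V v ((wd (x a) (x b) * wd (x c) (x e)) /
        (wd (x c) (x a) * wd (x e) (x b))) := (Q.V v).pos hne
    have c4 := congrArg Real.exp c2
    rwa [Real.exp_log c3, Real.exp_zero] at c4

end local_part

end Pool.Agent.R323
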