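import Pool.Agent.R323.FN1
import Pool.Agent.TH450.FG.G
import Pool.Agent.Z864.UB.Alg

/-!
# Orbits satisfying relations of bounded degree
-/

set_option autoImplicit false

namespace Pool.Agent.R323

open Pool.Agent.H951R3.PB Pool.Agent.TH450.PC Pool.Agent.TH450.FG Real Finset Filter Topology

universe u v w

section ht

variable {k : Type v} {K : Type u} [Field k] [Field K] [Algebra k K]

/-- heights of the roots of polynomials with coefficients of bounded height -/
theorem ht_le (Q : PF.{u, v, w} k K) (y : K) (D : ℕ) : ∃ B : ℝ, ∀ (z : K) (A : Fin (D + 1) → K),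
    (∃ i, A i ≠ 0) → ∑ i, A i * z ^ (i : ℕ) = 0 →
    (∀ v i, Q.V v (A i) ≤ (max 1 (Q.V v y)) ^ D) →
    ∃ T : Finset Q.Pl, ∀ S, T ⊆ S → ∑ v ∈ S, Q.wt v * log (max 1 (Q.V v z)) ≤ B := by
  classical
  obtain ⟨Sy, hSy⟩ : ∃ Sy : Finset Q.Pl, ∀ v, v ∉ Sy → log (max 1 (Q.V v y)) = 0 := by
    by_cases hy : y = 0
    · exact ⟨∅, fun v _ => by simp [hy]⟩
    · refine ⟨(Q.fin y hy).toFinset, fun v hv => ?_⟩
      have : Q.V v y = 1 := by
        by_contra hne
        exact hv (by simpa using hne)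
      simp [this]
  have hl0 : ∀ v (z : K), 0 ≤ log (max 1 (Q.V v z)) := fun v z => log_nonneg (le_max_left _ _)
  refine ⟨D * ∑ v ∈ Sy, Q.wt v * log (max 1 (Q.V v y)), ?_⟩
  intro z A hA hsum hbd
  obtain ⟨i₀, hi₀, hmax⟩ : ∃ i₀, A i₀ ≠ 0 ∧ ∀ i, i₀ < i → A i = 0 := by
    obtain ⟨i, hi⟩ := hA
    obtain ⟨i₀, h1, h2⟩ := Finset.exists_max_image (Finset.univ.filter fun i => A i ≠ 0) id
      ⟨i, by simpa using hi⟩
    refine ⟨i₀, (Finset.mem_filter.1 h1).2, fun j hj => ?_⟩
    by_contra hne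
    exact absurd (h2 j (by simpa using hne)) (not_le.2 hj)
  have hloc : ∀ v, log (max 1 (Q.V v z)) ≤ D * log (max 1 (Q.V v y)) - log (Q.V v (A i₀)) := by
    intro v
    set M := max 1 (Q.V v y) with hM
    have hM1 : 1 ≤ M := le_max_left _ _
    have hM0 : 0 < M := by linarith
    have hpos : 0 < Q.V v (A i₀) := (Q.V v).pos hi₀
    have hMD : log (M ^ D) = D * log M := log_pow _ _
    by_cases hz : Q.V v z ≤ 1
    · rw [max_eq_left hz, log_one]
      have := log_le_log hpos (hbd v i₀)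
      linarith
    · push Not at hz
      rw [max_eq_right hz.le]
      have hz0 : 0 < Q.V v z := by linarith
      have h0 : (i₀ : ℕ) ≠ 0 := by
        intro h0
        apply hi₀
        have h1 : ∑ i, A i * z ^ (i : ℕ) = A i₀ := by
          rw [Finset.sum_eq_single i₀]
          · rw [h0, pow_zero, mul_one]
          · intro j _ hj
            have : i₀ < j := by
              rw [Fin.lt_def, h0]
              have : (j : ℕ) ≠ (i₀ : ℕ) := fun h => hj (Fin.ext h)
              omega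
            rw [hmax j this, zero_mul]
          · intro h
            exact absurd (Finset.mem_univ _) h
        rw [← h1, hsum]
      have h1 : A i₀ * z ^ (i₀ : ℕ) = -∑ i ∈ Finset.univ.erase i₀, A i * z ^ (i : ℕ) := by
        rw [← Finset.add_sum_erase _ _ (Finset.mem_univ i₀)] at hsum
        linear_combination hsum
      have h2 : Q.V v (∑ i ∈ Finset.univ.erase i₀, A i * z ^ (i : ℕ)) ≤
          M ^ D * (Q.V v z) ^ ((i₀ : ℕ) - 1) := by
        refine na_sum_le (Q.na v) _ _ (by positivity) fun i hi => ?_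
        rw [map_mul, map_pow]
        rcases lt_trichotomy i i₀ with h3 | h3 | h3
        · have h4 : (i : ℕ) ≤ (i₀ : ℕ) - 1 := by
            rw [Fin.lt_def] at h3
            omega
          exact mul_le_mul (hbd v i) (pow_le_pow_right₀ hz.le h4) (by positivity) (by positivity)
        · exact absurd h3 (Finset.ne_of_mem_erase hi)
        · rw [hmax i h3, map_zero, zero_mul]
          positivity
      have h3 : Q.V v (A i₀) * (Q.V v z) ^ (i₀ : ℕ) ≤ M ^ D * (Q.V v z) ^ ((i₀ : ℕ) - 1) := by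
        rw [← map_pow, ← map_mul, h1, map_neg_eq_map]
        exact h2
      have h4 : (Q.V v z) ^ (i₀ : ℕ) = (Q.V v z) ^ ((i₀ : ℕ) - 1) * Q.V v z := by
        rw [← pow_succ]
        congr 1
        omega
      rw [h4] at h3
      have h5 : 0 < (Q.V v z) ^ ((i₀ : ℕ) - 1) := by positivity
      have h6 : Q.V v (A i₀) * Q.V v z ≤ M ^ D := by
        have h7 : (Q.V v (A i₀) * Q.V v z) * (Q.V v z) ^ ((i₀ : ℕ) - 1) ≤
            M ^ D * (Q.V v z) ^ ((i₀ : ℕ) - 1) := by
          linarith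
        exact le_of_mul_le_mul_right h7 h5
      have h7 := log_le_log (by positivity) h6
      rw [log_mul hpos.ne' hz0.ne', hMD] at h7
      linarith
  refine ⟨(Q.fin (A i₀) hi₀).toFinset, fun S hS => ?_⟩
  have h1 : ∑ v ∈ S, Q.wt v * log (Q.V v (A i₀)) = 0 := Q.prod _ hi₀ S fun v hv => by
    by_contra hne
    exact hv (hS (by simpa using hne))
  calc ∑ v ∈ S, Q.wt v * log (max 1 (Q.V v z)) ≤
        ∑ v ∈ S, Q.wt v * (D * log (max 1 (Q.V v y)) - log (Q.V v (A i₀))) :=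
        Finset.sum_le_sum fun v _ => mul_le_mul_of_nonneg_left (hloc v) (Q.wt_pos v).le
    _ = D * ∑ v ∈ S, Q.wt v * log (max 1 (Q.V v y)) -
        ∑ v ∈ S, Q.wt v * log (Q.V v (A i₀)) := by
        rw [Finset.mul_sum, ← Finset.sum_sub_distrib]
        refine Finset.sum_congr rfl fun v _ => ?_
        ring
    _ = D * ∑ v ∈ S, Q.wt v * log (max 1 (Q.V v y)) := by rw [h1, sub_zero]
    _ ≤ D * ∑ v ∈ Sy, Q.wt v * log (max 1 (Q.V v y)) := by
        refine mul_le_mul_of_nonneg_left ?_ (Nat.cast_nonneg _)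
        have h2 : ∑ v ∈ S, Q.wt v * log (max 1 (Q.V v y)) =
            ∑ v ∈ S ∩ Sy, Q.wt v * log (max 1 (Q.V v y)) := by
          symm
          refine Finset.sum_subset Finset.inter_subset_left fun v hv hv' => ?_
          rw [hSy v fun h => hv' (Finset.mem_inter.2 ⟨hv, h⟩), mul_zero]
        rw [h2]
        exact Finset.sum_le_sum_of_subset_of_nonneg Finset.inter_subset_right fun v _ _ =>
          mul_nonneg (Q.wt_pos v).le (hl0 v y)

/-- the finite set of places outside of which everything is good -/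
theorem exists_S0 (Q : PF.{u, v, w} k K) {d : ℕ} {f : Fin 2 → MvPolynomial (Fin 2) K}
    (h0 : rs f d ≠ 0) {x : Fin 2 → K} (hx : x ≠ 0) : ∃ S₀ : Finset Q.Pl,
    ∀ v, v ∉ S₀ → (∀ i m, Q.V v ((f i).coeff m) ≤ 1) ∧ Q.V v (rs f d) = 1 ∧
      nrm (Q.V v) x = 1 := by
  classical
  have hfin : ∀ z : K, ∃ T : Finset Q.Pl, ∀ v, v ∉ T → z = 0 ∨ Q.V v z = 1 := by
    intro z
    by_cases hz : z = 0
    · exact ⟨∅, fun _ _ => Or.inl hz⟩
    · refine ⟨(Q.fin z hz).toFinset, fun v hv => Or.inr ?_⟩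
      by_contra hne
      exact hv (by simpa using hne)
  choose T hT using hfin
  refine ⟨(Finset.univ.biUnion fun i => (f i).support.biUnion fun m => T ((f i).coeff m)) ∪
    (T (rs f d) ∪ (T (x 0) ∪ T (x 1))), fun v hv => ?_⟩
  simp only [Finset.mem_union, not_or] at hv
  obtain ⟨h1, h2, h3, h4⟩ := hv
  refine ⟨fun i m => ?_, ?_, ?_⟩
  · by_cases hm : m ∈ (f i).support
    · have h5 : v ∉ T ((f i).coeff m) := by
        intro h
        apply h1
        rw [Finset.mem_biUnion]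
        exact ⟨i, Finset.mem_univ _, Finset.mem_biUnion.2 ⟨m, hm, h⟩⟩
      rcases hT _ v h5 with h | h
      · rw [h]; simp
      · exact h.le
    · rw [MvPolynomial.notMem_support_iff.1 hm]
      simp
  · exact (hT _ v h2).resolve_left h0
  · unfold nrm
    rcases hT _ v h3 with h | h <;> rcases hT _ v h4 with h' | h'
    · exfalso
      apply hx
      funext i
      fin_cases i
      · exact h
      · exact h'
    · rw [h, h']; simp
    · rw [h, h']; simp
    · rw [h, h']; simp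

/-- orbits with a bound for the heights -/
theorem orbit_const' (Q : PF.{u, v, w} k K) {d : ℕ} (hd : 2 ≤ d)
    {f : Fin 2 → MvPolynomial (Fin 2) K} (hf : ∀ i, (f i).IsHomogeneous d) (h0 : rs f d ≠ 0)
    (x : ℕ → Fin 2 → K) (hx : ∀ n, x (n + 1) = ev f (x n))
    (hxx : ∀ m n, m ≠ n → wd (x m) (x n) ≠ 0) (hx1 : ∀ n, x n 1 ≠ 0) (B : ℝ)
    (hB : ∀ n, ∃ T : Finset Q.Pl, ∀ S, T ⊆ S →
      ∑ v ∈ S, Q.wt v * log (max 1 (Q.V v (x n 0 / x n 1))) ≤ B)
    {a b c e : ℕ} (h1 : a ≠ b) (h2 : c ≠ e) (h3 : c ≠ a) (h4 : e ≠ b) :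
    IsAlgebraic k ((wd (x a) (x b) * wd (x c) (x e)) / (wd (x c) (x a) * wd (x e) (x b))) := by
  classical
  have hxne : ∀ n, x n ≠ 0 := fun n => wd_ne_left (hxx n (n + 1) (by omega))
  obtain ⟨S₀, hS₀⟩ := exists_S0 Q h0 (hxne 0)
  refine orbit_const Q hd hf h0 x hx hxx S₀ B hS₀ (fun n => ?_) h1 h2 h3 h4
  obtain ⟨T, hT⟩ := hB n
  obtain ⟨T1, hT1⟩ := sum_log Q _ (hx1 n)
  obtain ⟨S, hS⟩ : ∃ S, S = S₀ ∪ (T ∪ T1) := ⟨_, rfl⟩
  have k1 := hT S (by rw [hS]; exact Finset.subset_union_left.trans Finset.subset_union_right)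
  have k2 := hT1 S (by rw [hS]; exact Finset.subset_union_right.trans Finset.subset_union_right)
  have hn0 : ∀ v, v ∉ S₀ → log (nrm (Q.V v) (x n)) = 0 := by
    intro v hv
    obtain ⟨w, hw⟩ := exists_ext_gen (Q.V v) (Q.na v)
    obtain ⟨j1, j2, j3⟩ := hS₀ v hv
    have hok := good_ok hd hf h0 hw (ext_na (Q.na v) hw) j1 j2
    clear k1 k2 hT1 T1 hT T hS S
    induction n with
    | zero => rw [j3, log_one]
    | succ n ih =>
      have h5 := hok.step (F4_vL_ne (hxne n))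
      rw [F4_ev, ← hx, F4_ext_nrm hw, F4_ext_nrm hw, ih] at h5
      linarith
  have e1 : ∑ v ∈ S₀, Q.wt v * log (nrm (Q.V v) (x n)) =
      ∑ v ∈ S, Q.wt v * log (nrm (Q.V v) (x n)) := by
    refine Finset.sum_subset (by rw [hS]; exact Finset.subset_union_left) fun v _ hv => ?_
    rw [hn0 v hv, mul_zero]
  have e2 : ∀ v, log (nrm (Q.V v) (x n)) = log (max 1 (Q.V v (x n 0 / x n 1))) +
      log (Q.V v (x n 1)) := by
    intro v
    have hp : 0 < Q.V v (x n 1) := (Q.V v).pos (hx1 n)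
    have hm : 0 < max 1 (Q.V v (x n 0 / x n 1)) := lt_of_lt_of_le one_pos (le_max_left _ _)
    rw [← log_mul hm.ne' hp.ne']
    congr 1
    unfold nrm
    rw [max_mul_of_nonneg _ _ hp.le, one_mul, map_div₀, div_mul_cancel₀ _ hp.ne', max_comm]
  rw [e1]
  simp_rw [e2, mul_add]
  rw [Finset.sum_add_distrib, k2, add_zero]
  exact k1

end ht

section alg

variable {K₀ : Type v} {K : Type u} [Field K₀] [Field K] [Algebra K₀ K]

/-- polynomials with nonzero coefficients do not vanish at algebraically independent elements -/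
theorem rel_ne {d D : ℕ} (y : Fin d → K) (hind : AlgebraicIndependent K₀ y)
    (c : (Fin d → Fin (D + 1)) → K₀) (hc : c ≠ 0) :
    ∑ e, algebraMap K₀ K (c e) * ∏ b, y b ^ (e b : ℕ) ≠ 0 := by
  classical
  obtain ⟨e₀, he₀⟩ := Function.ne_iff.1 hc
  set P : MvPolynomial (Fin d) K₀ := ∑ e, MvPolynomial.monomial
    (Finsupp.equivFunOnFinite.symm fun b => ((e : Fin d → Fin (D + 1)) b : ℕ)) (c e) with hP
  have h1 : MvPolynomial.aeval y P = ∑ e, algebraMap K₀ K (c e) * ∏ b, y b ^ (e b : ℕ) := by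
    rw [hP, map_sum]
    refine Finset.sum_congr rfl fun e _ => ?_
    rw [MvPolynomial.aeval_monomial, Finsupp.prod_fintype _ _ (by simp)]
    rfl
  have h2 : P.coeff (Finsupp.equivFunOnFinite.symm fun b => (e₀ b : ℕ)) = c e₀ := by
    rw [hP, MvPolynomial.coeff_sum, Finset.sum_eq_single e₀]
    · rw [MvPolynomial.coeff_monomial, if_pos rfl]
    · intro e _ he
      rw [MvPolynomial.coeff_monomial, if_neg]
      intro h
      apply he
      have h3 := Finsupp.equivFunOnFinite.symm.injective h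
      funext b
      exact Fin.ext (congrFun h3 b)
    · intro h
      exact absurd (Finset.mem_univ _) h
  rw [← h1]
  intro h3
  have h4 : P = 0 := hind (by rw [h3, map_zero])
  rw [h4, MvPolynomial.coeff_zero] at h2
  exact he₀ h2.symm

/-- **Cross ratios are algebraic.** -/
theorem cross_alg {N r D : ℕ} (x : Fin N → K) (ι : Fin r → Fin N) (hr : 0 < r)
    (hind : AlgebraicIndependent K₀ (fun b => x (ι b)))
    (htop : IntermediateField.adjoin K₀ (Set.range x) = ⊤)
    (halg : ∀ j, IsAlgebraic (IntermediateField.adjoin K₀ (Set.range fun b => x (ι b))) (x j))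
    {d : ℕ} (hd : 2 ≤ d) {f : Fin 2 → MvPolynomial (Fin 2) K} (hf : ∀ i, (f i).IsHomogeneous d)
    (h0 : rs f d ≠ 0) (X : ℕ → Fin 2 → K) (hX : ∀ n, X (n + 1) = ev f (X n))
    (hXX : ∀ m n, m ≠ n → wd (X m) (X n) ≠ 0) (hX1 : ∀ n, X n 1 ≠ 0)
    (hrel : ∀ n, ∃ c : (Fin r → Fin (D + 1)) × Fin (D + 1) → K₀, c ≠ 0 ∧
      ∑ e, algebraMap K₀ K (c e) * ((∏ b, x (ι b) ^ (e.1 b : ℕ)) *
        (X n 0 / X n 1) ^ (e.2 : ℕ)) = 0)
    {a b c e : ℕ} (h1 : a ≠ b) (h2 : c ≠ e) (h3 : c ≠ a) (h4 : e ≠ b) :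
    IsAlgebraic K₀ ((wd (X a) (X b) * wd (X c) (X e)) / (wd (X c) (X a) * wd (X e) (X b))) := by
  classical
  set Bs : Set K := Set.range fun b => x (ι b) with hBs
  have hinj : Function.Injective fun b => x (ι b) := hind.injective
  have hB : AlgebraicIndependent K₀ ((↑) : Bs → K) := hind.coe_range
  have hne : Bs.Nonempty := ⟨_, ⟨⟨0, hr⟩, rfl⟩⟩
  refine Pool.Agent.Z864.UB.alg_of_all hB hne ?_
  rintro _ ⟨b₀, rfl⟩
  obtain ⟨g1, g2, -⟩ := Pool.Agent.Z864.UB.sub_data (k := K₀) (K := K) (B := Bs) (S := Set.range x)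
    (T := ∅) (b := x (ι b₀)) hB ⟨b₀, rfl⟩ (Set.finite_range x) (by
      rw [eq_top_iff, ← htop]
      exact IntermediateField.adjoin.mono _ _ _ Set.subset_union_right) (by
      rintro _ ⟨j, rfl⟩
      rw [Pool.Agent.Z864.UB.mem_cl]
      exact halg j) (Set.empty_subset _)
  set kb := IntermediateField.adjoin K₀ ((Bs \ {x (ι b₀)}) ∪ ∅) with hkb
  obtain ⟨Q⟩ := exists_PF kb K g1 g2
  obtain ⟨B, hB'⟩ := ht_le Q (x (ι b₀)) D
  have key : IsAlgebraic kb
      ((wd (X a) (X b) * wd (X c) (X e)) / (wd (X c) (X a) * wd (X e) (X b))) := by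
    refine orbit_const' Q hd hf h0 X hX hXX hX1 B (fun n => ?_) h1 h2 h3 h4
    obtain ⟨cc, hc0, hc1⟩ := hrel n
    refine hB' (X n 0 / X n 1) (fun i => ∑ e1 : Fin r → Fin (D + 1),
      algebraMap K₀ K (cc (e1, i)) * ∏ b, x (ι b) ^ (e1 b : ℕ)) ?_ ?_ ?_
    · obtain ⟨⟨e1, i⟩, hei⟩ := Function.ne_iff.1 hc0
      refine ⟨i, rel_ne (fun b => x (ι b)) hind (fun e1 => cc (e1, i)) ?_⟩
      intro h
      exact hei (congrFun h e1)
    · rw [← hc1, Fintype.sum_prod_type_right]
      refine Finset.sum_congr rfl fun i _ => ?_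
      rw [Finset.sum_mul]
      refine Finset.sum_congr rfl fun e1 _ => ?_
      ring
    · intro v i
      have hM1 : (1 : ℝ) ≤ max 1 (Q.V v (x (ι b₀))) := le_max_left _ _
      refine na_sum_le (Q.na v) _ _ (by positivity) fun e1 _ => ?_
      have ht : ∀ z : kb, Q.V v (algebraMap kb K z) ≤ 1 := by
        intro z
        by_cases hz : z = 0
        · rw [hz]; simp
        · exact (Q.triv v z hz).le
      rw [map_mul, map_prod]
      have j1 : Q.V v (algebraMap K₀ K (cc (e1, i))) ≤ 1 :=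
        ht (algebraMap K₀ kb (cc (e1, i)))
      have j2 : ∏ b, Q.V v (x (ι b) ^ (e1 b : ℕ)) ≤ (max 1 (Q.V v (x (ι b₀)))) ^ D := by
        rw [← Finset.mul_prod_erase _ _ (Finset.mem_univ b₀)]
        have j3 : ∏ b ∈ Finset.univ.erase b₀, Q.V v (x (ι b) ^ (e1 b : ℕ)) ≤ 1 := by
          refine Finset.prod_le_one (fun _ _ => (Q.V v).nonneg _) fun b hb => ?_
          rw [map_pow]
          refine pow_le_one₀ ((Q.V v).nonneg _) ?_
          have hmem : x (ι b) ∈ kb := by
            apply IntermediateField.subset_adjoin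
            left
            refine ⟨⟨b, rfl⟩, ?_⟩
            intro h
            exact Finset.ne_of_mem_erase hb (hinj h)
          exact ht ⟨_, hmem⟩
        have j4 : Q.V v (x (ι b₀) ^ (e1 b₀ : ℕ)) ≤ (max 1 (Q.V v (x (ι b₀)))) ^ D := by
          rw [map_pow]
          calc Q.V v (x (ι b₀)) ^ (e1 b₀ : ℕ) ≤ (max 1 (Q.V v (x (ι b₀)))) ^ (e1 b₀ : ℕ) :=
                pow_le_pow_left₀ ((Q.V v).nonneg _) (le_max_right _ _) _
            _ ≤ _ := pow_le_pow_right₀ hM1 (by have := (e1 b₀).2; omega)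
        calc _ ≤ (max 1 (Q.V v (x (ι b₀)))) ^ D * 1 :=
              mul_le_mul j4 j3 (Finset.prod_nonneg fun _ _ => (Q.V v).nonneg _) (by positivity)
          _ = _ := mul_one _
      calc _ ≤ 1 * (max 1 (Q.V v (x (ι b₀)))) ^ D :=
            mul_le_mul j1 j2 (Finset.prod_nonneg fun _ _ => (Q.V v).nonneg _) zero_le_one
        _ = _ := one_mul _
  have h5 := Pool.Agent.Z864.UB.mem_cl.2 key
  rwa [Set.union_empty] at h5

end alg

end Pool.Agent.R323
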