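import Pool.Agent.R323.FN2
import Pool.Agent.R323.Ar2
import Pool.Agent.Y902.GN.Stm

/-!
# The function field of a generic internal set
-/

set_option autoImplicit false

namespace Pool.Agent.R323

open MvPolynomial Pool.Agent.Y902.GN Pool.Agent.H951R3.PB

section

variable {O : Type} [CommRing O] [IsDomain O] {N : ℕ}

/-- substitution into the polynomial ring over a field -/
theorem deriv_sub {E : Type*} [CommRing E] [Algebra O E] {r : ℕ} (y : Fin r → E)
    (P : MvPolynomial (Option (Fin r)) O) :
    Polynomial.derivative (aeval (fun o : Option (Fin r) => o.elim (Polynomial.X : Polynomial E)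
      (fun b => Polynomial.C (y b))) P) =
    aeval (fun o : Option (Fin r) => o.elim (Polynomial.X : Polynomial E)
      (fun b => Polynomial.C (y b))) (pderiv none P) := by
  induction P using MvPolynomial.induction_on with
  | C a =>
    rw [pderiv_C, map_zero, aeval_C, IsScalarTower.algebraMap_apply O E (Polynomial E)]
    exact Polynomial.derivative_C
  | add p q hp hq => rw [map_add, map_add, map_add, map_add, hp, hq]
  | mul_X p o hp =>
    rw [map_mul, aeval_X, Polynomial.derivative_mul, hp, Derivation.leibniz, smul_eq_mul,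
      smul_eq_mul, map_add, map_mul, map_mul, aeval_X]
    cases o with
    | none =>
      rw [pderiv_X_self]
      simp only [Option.elim, Polynomial.derivative_X, map_one]
      ring
    | some b =>
      rw [pderiv_X_of_ne (by simp)]
      simp only [Option.elim, Polynomial.derivative_C, map_zero]
      ring

theorem aux_div {E : Type*} [Field E] {u v w x y : E} (h : v ≠ 0) :
    v * w * (x * (y * (u / v))) = x * (y * (u * w)) := by
  field_simp

theorem gen_alg (J : Ideal (MvPolynomial (Fin N) O)) (hp : J.IsPrime)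
    (hJ : ∀ c : O, c ≠ 0 → C c ∉ J) {r : ℕ} (hr : 0 < r) (ι : Fin r → Fin N)
    (A : MvPolynomial (Fin N) O) (H : MvPolynomial (Option (Fin r)) O)
    (B₀ : MvPolynomial (Fin r) O) (B : Fin N → MvPolynomial (Option (Fin r)) O)
    (ind : ∀ P : MvPolynomial (Fin r) O, rename ι P ∈ J → P = 0)
    (H0 : sb ι A H ∈ J) (HT : sb ι A (pderiv none H) ∉ J) (B00 : B₀ ≠ 0)
    (BX : ∀ i, rename ι B₀ * X i - sb ι A (B i) ∈ J)
    {d : ℕ} (hd : 2 ≤ d) (gc : Fin 2 → Fin (d + 1) → MvPolynomial (Fin N) O)
    (W : ℕ → Fin 2 → MvPolynomial (Fin N) O) (hW : ∀ n, W (n + 1) = ac gc (W n))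
    (hrs : rsZ gc ∉ J) (hwg : ∀ m n, m ≠ n → wg (W m) (W n) ∉ J) (hW1 : ∀ n, W n 1 ∉ J) (D : ℕ)
    (hrel : ∀ n, ∃ c : (Fin r → Fin (D + 1)) × Fin (D + 1) → O, c ≠ 0 ∧
      ∑ e, C (c e) * ((∏ i, X (ι i) ^ (e.1 i : ℕ)) *
        (W n 0 ^ (e.2 : ℕ) * W n 1 ^ (D - (e.2 : ℕ)))) ∈ J)
    {a b c e : ℕ} (h1 : a ≠ b) (h2 : c ≠ e) (h3 : c ≠ a) (h4 : e ≠ b) :
    ∃ p : Polynomial O, p ≠ 0 ∧ he (p.map C) p.natDegree
      ![wg (W a) (W b) * wg (W c) (W e), wg (W c) (W a) * wg (W e) (W b)] ∈ J := by
  classical
  have : J.IsPrime := hp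
  let Qt := MvPolynomial (Fin N) O ⧸ J
  let 𝔽 := FractionRing Qt
  let π : MvPolynomial (Fin N) O →+* 𝔽 := (algebraMap Qt 𝔽).comp (Ideal.Quotient.mk J)
  have hπ : ∀ P, π P = 0 ↔ P ∈ J := by
    intro P
    show algebraMap Qt 𝔽 (Ideal.Quotient.mk J P) = 0 ↔ _
    rw [IsFractionRing.to_map_eq_zero_iff, Ideal.Quotient.eq_zero_iff_mem]
  have hπC : ∀ c : O, algebraMap O 𝔽 c = π (C c) := fun c => rfl
  have hinjO : Function.Injective (algebraMap O 𝔽) := by
    rw [injective_iff_map_eq_zero]
    intro c hc
    by_contra hne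
    rw [hπC, hπ] at hc
    exact hJ c hne hc
  have hfs : FaithfulSMul O 𝔽 := (faithfulSMul_iff_algebraMap_injective O 𝔽).2 hinjO
  let K₀ := FractionRing O
  let _alg : Algebra K₀ 𝔽 := FractionRing.liftAlgebra O 𝔽
  have htow : IsScalarTower O K₀ 𝔽 := FractionRing.isScalarTower_liftAlgebra O 𝔽
  let x : Fin N → 𝔽 := fun j => π (X j)
  have hπx : ∀ P, π P = aeval x P := by
    intro P
    induction P using MvPolynomial.induction_on with
    | C a => rw [aeval_C, hπC]
    | add p q hp hq => rw [map_add, map_add, hp, hq]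
    | mul_X p i hp => rw [map_mul, map_mul, hp, aeval_X]
  have hind0 : AlgebraicIndependent O (fun b => x (ι b)) := by
    rw [algebraicIndependent_iff]
    intro P hP
    apply ind
    rw [← hπ, hπx, aeval_rename]
    exact hP
  have hK₀alg : Algebra.IsAlgebraic O K₀ :=
    ⟨fun z => (IsFractionRing.isAlgebraic_iff O K₀ K₀).2 (isAlgebraic_algebraMap z)⟩
  have hind : AlgebraicIndependent K₀ (fun b => x (ι b)) := hind0.extendScalars K₀
  have hmemC : ∀ (E : IntermediateField K₀ 𝔽) (c : O), algebraMap O 𝔽 c ∈ E := by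
    intro E c
    rw [IsScalarTower.algebraMap_apply O K₀ 𝔽]
    exact E.algebraMap_mem _
  have htop : IntermediateField.adjoin K₀ (Set.range x) = ⊤ := by
    rw [eq_top_iff]
    intro z _
    have hP : ∀ P, π P ∈ IntermediateField.adjoin K₀ (Set.range x) := by
      intro P
      induction P using MvPolynomial.induction_on with
      | C a => rw [← hπC]; exact hmemC _ a
      | add p q hp hq => rw [map_add]; exact add_mem hp hq
      | mul_X p i hp =>
        rw [map_mul]
        exact mul_mem hp (IntermediateField.subset_adjoin _ _ ⟨i, rfl⟩)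
    obtain ⟨u, v, -, huv⟩ := IsFractionRing.div_surjective (A := Qt) z
    obtain ⟨P, rfl⟩ := Ideal.Quotient.mk_surjective u
    obtain ⟨P', rfl⟩ := Ideal.Quotient.mk_surjective v
    rw [← huv]
    exact div_mem (hP P) (hP P')
  -- algebraicity of the coordinates
  have halg : ∀ j, IsAlgebraic (IntermediateField.adjoin K₀ (Set.range fun b => x (ι b)))
      (x j) := by
    intro j
    set E := IntermediateField.adjoin K₀ (Set.range fun b => x (ι b)) with hE
    let yE : Fin r → E := fun b => ⟨x (ι b), IntermediateField.subset_adjoin _ _ ⟨b, rfl⟩⟩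
    let ψ : MvPolynomial (Option (Fin r)) O →ₐ[O] Polynomial E :=
      aeval (fun o : Option (Fin r) => o.elim (Polynomial.X : Polynomial E)
        (fun b => Polynomial.C (yE b)))
    let θ : 𝔽 := π A
    have hψ : ∀ P : MvPolynomial (Option (Fin r)) O, Polynomial.aeval θ (ψ P) = π (sb ι A P) := by
      intro P
      induction P using MvPolynomial.induction_on with
      | C a =>
        have e1 : ψ (C a) = Polynomial.C (algebraMap O E a) := by
          show aeval _ (C a) = _
          rw [aeval_C]
          rfl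
        have e2 : sb ι A (C a) = C a := by
          unfold sb
          rw [aeval_C]
          rfl
        rw [e1, e2, Polynomial.aeval_C, ← hπC]
        rfl
      | add p q hp hq => rw [map_add, map_add, map_add, map_add, hp, hq]
      | mul_X p o hp =>
        rw [map_mul, map_mul, map_mul, map_mul, hp]
        congr 1
        cases o with
        | none =>
          have e1 : ψ (X none) = Polynomial.X := by
            show aeval _ (X none) = _
            rw [aeval_X]
            rfl
          have e2 : sb ι A (X none) = A := by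
            unfold sb
            rw [aeval_X]
            rfl
          rw [e1, e2, Polynomial.aeval_X]
        | some b =>
          have e1 : ψ (X (some b)) = Polynomial.C (yE b) := by
            show aeval _ (X (some b)) = _
            rw [aeval_X]
            rfl
          have e2 : sb ι A (X (some b)) = X (ι b) := by
            unfold sb
            rw [aeval_X]
            rfl
          rw [e1, e2, Polynomial.aeval_C]
          rfl
    have hθ : IsAlgebraic E θ := by
      refine ⟨ψ H, ?_, ?_⟩
      · intro h0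
        apply HT
        rw [← hπ, ← hψ, ← deriv_sub]
        have e : (aeval (fun o : Option (Fin r) => o.elim (Polynomial.X : Polynomial E)
          (fun b => Polynomial.C (yE b)))) H = ψ H := rfl
        rw [e, h0, Polynomial.derivative_zero, map_zero]
      · rw [hψ, hπ]
        exact H0
    have hB0 : π (rename ι B₀) ≠ 0 := by
      intro h
      exact B00 (ind _ ((hπ _).1 h))
    have hmemr : ∀ P : MvPolynomial (Fin r) O, π (rename ι P) ∈ E := by
      intro P
      induction P using MvPolynomial.induction_on with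
      | C a => rw [rename_C, ← hπC]; exact hmemC _ a
      | add p q hp hq => rw [map_add, map_add]; exact add_mem hp hq
      | mul_X p i hp =>
        rw [map_mul, map_mul, rename_X]
        exact mul_mem hp (IntermediateField.subset_adjoin _ _ ⟨i, rfl⟩)
    have hxj : x j = π (sb ι A (B j)) / π (rename ι B₀) := by
      rw [eq_div_iff hB0]
      have h5 := (hπ _).2 (BX j)
      rw [map_sub, map_mul, sub_eq_zero] at h5
      rw [← h5, mul_comm]
    have hint : IsIntegral E θ := hθ.isIntegral
    have hfa : Algebra.IsAlgebraic E (IntermediateField.adjoin E {θ}) :=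
      IntermediateField.isAlgebraic_adjoin_simple hint
    have hmem1 : π (sb ι A (B j)) ∈ IntermediateField.adjoin E {θ} := by
      rw [← hψ]
      have h6 : ∀ q : Polynomial E, Polynomial.aeval θ q ∈ IntermediateField.adjoin E {θ} := by
        intro q
        have h7 := Polynomial.aeval_mem_adjoin_singleton (R := E) (p := q) θ
        exact IntermediateField.algebra_adjoin_le_adjoin E {θ} h7
      exact h6 _
    have hmem2 : π (rename ι B₀) ∈ IntermediateField.adjoin E {θ} := by
      have h6 := IntermediateField.algebraMap_mem (IntermediateField.adjoin E {θ})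
        (⟨π (rename ι B₀), hmemr B₀⟩ : E)
      exact h6
    have hmem : x j ∈ IntermediateField.adjoin E {θ} := by
      rw [hxj]
      exact div_mem hmem1 hmem2
    have h8 := hfa.isAlgebraic ⟨x j, hmem⟩
    exact (IntermediateField.isAlgebraic_iff).1 h8
  -- the map over the function field
  let cf : Fin 2 → Fin (d + 1) → 𝔽 := fun i j => π (gc i j)
  let Xs : ℕ → Fin 2 → 𝔽 := fun n i => π (W n i)
  have hXs : ∀ n, Xs (n + 1) = ev (fm cf) (Xs n) := by
    intro n
    rw [ev_fm]
    have h5 := ac_map π gc (W n)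
    rw [← h5]
    funext i
    show π (W (n + 1) i) = _
    rw [hW]
  have h0 : rs (fm cf) d ≠ 0 := by
    rw [rs_fm]
    have h5 := rsZ_map π gc
    intro h6
    apply hrs
    rw [← hπ, h5]
    exact h6
  have hwgπ : ∀ m n, wd (Xs m) (Xs n) = π (wg (W m) (W n)) := by
    intro m n
    rw [wg_map]
    rfl
  have hXX : ∀ m n, m ≠ n → wd (Xs m) (Xs n) ≠ 0 := by
    intro m n hmn
    rw [hwgπ]
    exact fun h => hwg m n hmn ((hπ _).1 h)
  have hX1 : ∀ n, Xs n 1 ≠ 0 := fun n h => hW1 n ((hπ _).1 h)
  have key := cross_alg (K₀ := K₀) (K := 𝔽) (D := D) x ι hr hind htop halg hd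
    (fun i => fm_hom cf i) h0 Xs hXs hXX hX1 (by
      intro n
      obtain ⟨cc, hcc, hJ'⟩ := hrel n
      refine ⟨fun e => algebraMap O K₀ (cc e), ?_, ?_⟩
      · intro h5
        apply hcc
        funext e
        have h6 := congrFun h5 e
        refine (IsFractionRing.injective O K₀) ?_
        show algebraMap O K₀ (cc e) = algebraMap O K₀ 0
        rw [map_zero]
        exact h6
      · have h5 := (hπ _).2 hJ'
        rw [map_sum] at h5
        have h6 : (Xs n 1) ^ D * ∑ e : (Fin r → Fin (D + 1)) × Fin (D + 1),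
            algebraMap K₀ 𝔽 (algebraMap O K₀ (cc e)) *
            ((∏ b, x (ι b) ^ (e.1 b : ℕ)) * (Xs n 0 / Xs n 1) ^ (e.2 : ℕ)) = 0 := by
          rw [← h5, Finset.mul_sum]
          refine Finset.sum_congr rfl fun e _ => ?_
          have hD : (Xs n 1) ^ D = (Xs n 1) ^ (e.2 : ℕ) * (Xs n 1) ^ (D - (e.2 : ℕ)) := by
            rw [← pow_add]
            congr 1
            have := e.2.2
            omega
          rw [hD, div_pow, ← IsScalarTower.algebraMap_apply O K₀ 𝔽, hπC]
          simp only [map_mul, map_prod, map_pow]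
          have h7 : (Xs n 1) ^ (e.2 : ℕ) ≠ 0 := pow_ne_zero _ (hX1 n)
          show Xs n 1 ^ (e.2 : ℕ) * Xs n 1 ^ (D - (e.2 : ℕ)) * (π (C (cc e)) *
            ((∏ b, x (ι b) ^ (e.1 b : ℕ)) * (Xs n 0 ^ (e.2 : ℕ) / Xs n 1 ^ (e.2 : ℕ)))) =
            π (C (cc e)) * ((∏ b, x (ι b) ^ (e.1 b : ℕ)) *
              (Xs n 0 ^ (e.2 : ℕ) * Xs n 1 ^ (D - (e.2 : ℕ))))
          exact aux_div h7
        exact (mul_eq_zero.1 h6).resolve_left (pow_ne_zero _ (hX1 n))) h1 h2 h3 h4
  have key2 := (IsFractionRing.isAlgebraic_iff O K₀ 𝔽).2 key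
  obtain ⟨p, hp0, hp1⟩ := key2
  refine ⟨p, hp0, ?_⟩
  rw [← hπ, he_map]
  have hQ : π (wg (W c) (W a) * wg (W e) (W b)) ≠ 0 := by
    rw [map_mul]
    refine mul_ne_zero ?_ ?_
    · exact fun h => hwg c a h3 ((hπ _).1 h)
    · exact fun h => hwg e b h4 ((hπ _).1 h)
  have h5 := he_eval (P := (p.map C).map π) (m := p.natDegree)
    (Polynomial.natDegree_map_le.trans Polynomial.natDegree_map_le)
    (fun i => π ((![wg (W a) (W b) * wg (W c) (W e), wg (W c) (W a) * wg (W e) (W b)] :
      Fin 2 → MvPolynomial (Fin N) O) i)) hQ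
  rw [← h5]
  have h6 : Polynomial.eval ((wd (Xs a) (Xs b) * wd (Xs c) (Xs e)) /
      (wd (Xs c) (Xs a) * wd (Xs e) (Xs b))) ((p.map C).map π) = 0 := by
    rw [Polynomial.map_map]
    have e1 : (π.comp C : O →+* 𝔽) = algebraMap O 𝔽 := by
      ext c
      rfl
    rw [e1, Polynomial.eval_map_algebraMap]
    exact hp1
  rw [hwgπ, hwgπ, hwgπ, hwgπ, ← map_mul, ← map_mul] at h6
  simp only [Matrix.cons_val_zero, Matrix.cons_val_one]
  rw [h6, zero_mul]

end

end Pool.Agent.R323
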