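import Pool.Agent.R323.DM2
import Pool.Agent.R323.Fld
import Pool.Agent.R323.Cj
import Pool.Agent.Y902.GN.Seq
import Pool.Agent.Y902.GN.Un

/-!
# Functions with few values on a generic internal set
-/

set_option autoImplicit false

namespace Pool.Agent.R323

open Filter MvPolynomial Pool.Agent.Y902.GN

section

variable {Y : ℕ → ℕ} {N : ℕ} {Om : ℕ → Finset (Fin N → ℤ)}

theorem Re_int {σ : Type*} (P : MvPolynomial σ ℤ) :
    Re (MvPolynomial.map (Int.castRingHom (OO Y)) P) (fun _ => P) := by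
  induction P using MvPolynomial.induction_on with
  | C a =>
    rw [map_C]
    refine Re.C ?_
    rw [eq_intCast, SubringClass.coe_intCast]
    rfl
  | add p q hp hq =>
    rw [map_add]
    exact hp.add hq
  | mul_X p i hp =>
    rw [map_mul, map_X]
    exact hp.mul (Re.X i)

theorem mem_int (P : MvPolynomial (Fin N) ℤ) :
    MvPolynomial.map (Int.castRingHom (OO Y)) P ∈ JI Y Om ↔
      ∀ᶠ ν in (Uf : Filter ℕ), ∀ t ∈ Om ν, eval t P = 0 :=
  mem_JI (Re_int P)

theorem notMem_int (hb : Big Y Om) (P : MvPolynomial (Fin N) ℤ)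
    (h : ∀ᶠ ν in (Uf : Filter ℕ), ∀ t ∈ Om ν, eval t P ≠ 0) :
    MvPolynomial.map (Int.castRingHom (OO Y)) P ∉ JI Y Om := by
  rw [mem_int]
  intro h1
  obtain ⟨ν, h2, h3, t, ht⟩ := (h1.and (h.and hb.nonempty)).exists
  exact h3 t ht (h2 t ht)

/-- large sets have many elements -/
theorem Big.card_large (hY : ∀ m : ℕ, ∀ᶠ ν in (Uf : Filter ℕ), m ≤ Y ν) (hb : Big Y Om) (K : ℕ) :
    ∀ᶠ ν in (Uf : Filter ℕ), K < (Om ν).card := by
  obtain ⟨m, hm⟩ := hb
  filter_upwards [hm, hY (K ^ m)] with ν h1 h2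
  by_contra hcon
  push Not at hcon
  have := Nat.pow_le_pow_left hcon m
  omega

/-- **Few values.** -/
theorem few_vals {P Q : MvPolynomial (Fin N) (OO Y)} {p : Polynomial (OO Y)} (hp : p ≠ 0)
    {m : ℕ} (hm : p.natDegree ≤ m) (h : he (p.map C) m ![P, Q] ∈ JI Y Om)
    {P' Q' : ℕ → MvPolynomial (Fin N) ℤ} (hP : Re P P') (hQ : Re Q Q') :
    ∀ᶠ ν in (Uf : Filter ℕ), ∃ R : Finset ℚ, R.card ≤ m ∧ ∀ t ∈ Om ν, eval t (Q' ν) ≠ 0 →
      (eval t (P' ν) : ℚ) / (eval t (Q' ν) : ℚ) ∈ R := by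
  classical
  choose f hf using fun i => rep_exists (p.coeff i)
  have hre : Re (he (p.map C) m ![P, Q]) (fun ν => ∑ i ∈ Finset.range (m + 1),
      C (f i ν) * P' ν ^ i * Q' ν ^ (m - i)) := by
    unfold he
    refine Re.sum _ fun i _ => ?_
    rw [Polynomial.coeff_map]
    exact ((Re.C (hf i)).mul (Re_pow hP i)).mul (Re_pow hQ (m - i))
  rw [mem_JI hre] at h
  have hne : ∀ᶠ ν in (Uf : Filter ℕ), f p.natDegree ν ≠ 0 := by
    refine ev_ne_zero (c := p.coeff p.natDegree) ?_ (hf _)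
    exact Polynomial.leadingCoeff_ne_zero.2 hp
  filter_upwards [h, hne] with ν h1 h2
  let q : Polynomial ℚ := ∑ i ∈ Finset.range (m + 1), Polynomial.C (f i ν : ℚ) * Polynomial.X ^ i
  have hqc : ∀ j, q.coeff j = if j < m + 1 then (f j ν : ℚ) else 0 := by
    intro j
    show (∑ i ∈ Finset.range (m + 1), Polynomial.C (f i ν : ℚ) * Polynomial.X ^ i).coeff j = _
    rw [Polynomial.finsetSum_coeff]
    simp only [Polynomial.coeff_C_mul, Polynomial.coeff_X_pow, mul_ite, mul_one, mul_zero]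
    rw [Finset.sum_ite_eq]
    simp
  have hqdeg : q.natDegree ≤ m := by
    refine Polynomial.natDegree_sum_le_of_forall_le _ _ fun i hi => ?_
    rw [Finset.mem_range] at hi
    exact (Polynomial.natDegree_C_mul_X_pow_le _ _).trans (by omega)
  have hq0 : q ≠ 0 := by
    intro h0
    have h3 := hqc p.natDegree
    rw [h0, Polynomial.coeff_zero, if_pos (by omega)] at h3
    exact h2 (by exact_mod_cast h3.symm)
  refine ⟨q.roots.toFinset, ?_, fun t ht hQt => ?_⟩
  · exact (Multiset.toFinset_card_le _).trans ((Polynomial.card_roots' _).trans hqdeg)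
  · rw [Multiset.mem_toFinset, Polynomial.mem_roots hq0, Polynomial.IsRoot.def]
    have h3 := h1 t ht
    rw [map_sum] at h3
    simp only [map_mul, map_pow, eval_C] at h3
    have hQ' : (eval t (Q' ν) : ℚ) ≠ 0 := by exact_mod_cast hQt
    have h4 : q.eval ((eval t (P' ν) : ℚ) / (eval t (Q' ν) : ℚ)) * (eval t (Q' ν) : ℚ) ^ m =
        ((∑ i ∈ Finset.range (m + 1), f i ν * eval t (P' ν) ^ i * eval t (Q' ν) ^ (m - i) : ℤ) :
          ℚ) := by
      show (∑ i ∈ Finset.range (m + 1), Polynomial.C (f i ν : ℚ) * Polynomial.X ^ i).eval _ * _ = _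
      rw [Polynomial.eval_finsetSum, Finset.sum_mul]
      push_cast
      refine Finset.sum_congr rfl fun i hi => ?_
      rw [Finset.mem_range] at hi
      rw [Polynomial.eval_mul, Polynomial.eval_C, Polynomial.eval_pow, Polynomial.eval_X, div_pow]
      have e1 : (eval t (Q' ν) : ℚ) ^ m = (eval t (Q' ν) : ℚ) ^ i *
          (eval t (Q' ν) : ℚ) ^ (m - i) := by
        rw [← pow_add]
        congr 1
        omega
      rw [e1]
      field_simp
    rw [h3] at h4
    have h5 : q.eval ((eval t (P' ν) : ℚ) / (eval t (Q' ν) : ℚ)) * (eval t (Q' ν) : ℚ) ^ m = 0 := by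
      rw [h4]
      simp
    exact (mul_eq_zero.1 h5).resolve_right (pow_ne_zero _ hQ')

/-- **Pigeonhole.** -/
theorem two_points (hY : ∀ m : ℕ, ∀ᶠ ν in (Uf : Filter ℕ), m ≤ Y ν) (hb : Big Y Om) {ι : Type}
    [Fintype ι] (P Q : ι → MvPolynomial (Fin N) ℤ) (m : ℕ)
    (hR : ∀ i, ∀ᶠ ν in (Uf : Filter ℕ), ∃ R : Finset ℚ, R.card ≤ m ∧ ∀ t ∈ Om ν,
      (eval t (P i) : ℚ) / (eval t (Q i) : ℚ) ∈ R) :
    ∀ᶠ ν in (Uf : Filter ℕ), ∃ t ∈ Om ν, ∃ t' ∈ Om ν, t ≠ t' ∧
      ∀ i, (eval t (P i) : ℚ) / (eval t (Q i) : ℚ) = (eval t' (P i) : ℚ) / (eval t' (Q i) : ℚ) := by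
  classical
  filter_upwards [Big.card_large hY hb (m ^ Fintype.card ι), Filter.eventually_all.2 hR]
    with ν h1 h2
  choose R hR1 hR2 using h2
  have h3 : (Fintype.piFinset R).card ≤ m ^ Fintype.card ι := by
    rw [Fintype.card_piFinset]
    calc ∏ i, (R i).card ≤ ∏ _i : ι, m := Finset.prod_le_prod (fun _ _ => Nat.zero_le _)
          fun i _ => hR1 i
      _ = _ := by rw [Finset.prod_const, Finset.card_univ]
  obtain ⟨t, ht, t', ht', hne, he⟩ := Finset.exists_ne_map_eq_of_card_lt_of_maps_to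
    (s := Om ν) (t := Fintype.piFinset R)
    (f := fun t i => (eval t (P i) : ℚ) / (eval t (Q i) : ℚ)) (lt_of_le_of_lt h3 h1)
    (fun t ht => Fintype.mem_piFinset.2 fun i => hR2 i t ht)
  exact ⟨t, ht, t', ht', hne, fun i => congrFun he i⟩

end

end Pool.Agent.R323
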