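import Pool.Agent.R323.Core

/-!
# The main theorem over `ℚ`
-/

set_option autoImplicit false

namespace Pool.Agent.R323

open Filter MvPolynomial Pool.Agent.Y902.GN

/-- preperiodic -/
def PreZ {d : ℕ} (c : Fin 2 → Fin (d + 1) → ℤ) (z : Fin 2 → ℤ) : Prop :=
  ∃ m n, m < n ∧ wg ((ac c)^[m] z) ((ac c)^[n] z) = 0

/-- more than `M` preperiodic points -/
def Many {d : ℕ} (M : ℕ) (c : Fin 2 → Fin (d + 1) → ℤ) : Prop :=
  ∃ P : Finset (Fin 2 → ℤ), M < P.card ∧ (∀ z ∈ P, IsCoprime (z 0) (z 1) ∧ PreZ c z) ∧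
    ∀ z ∈ P, ∀ z' ∈ P, z ≠ z' → wg z z' ≠ 0

theorem card_box {d : ℕ} {X : ℕ} (S : Finset (Fin 2 → Fin (d + 1) → ℤ))
    (hS : ∀ c ∈ S, ∀ i j, |c i j| ≤ (X : ℤ)) : S.card ≤ (2 * X + 1) ^ (2 * (d + 1)) := by
  classical
  have h1 : S ⊆ Fintype.piFinset fun _ : Fin 2 => Fintype.piFinset fun _ : Fin (d + 1) =>
      Finset.Icc (-(X : ℤ)) X := by
    intro c hc
    rw [Fintype.mem_piFinset]
    intro i
    rw [Fintype.mem_piFinset]
    intro j
    rw [Finset.mem_Icc]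
    exact abs_le.1 (hS c hc i j)
  refine (Finset.card_le_card h1).trans (le_of_eq ?_)
  rw [Fintype.card_piFinset]
  simp only [Fintype.card_piFinset, Int.card_Icc, Finset.prod_const, Finset.card_univ,
    Fintype.card_fin]
  rw [← pow_mul]
  congr 1
  · omega
  · ring

theorem main (d : ℕ) (hd : 2 ≤ d) (ε : ℝ) (hε : 0 < ε) : ∃ (M : ℕ) (C : ℝ), ∀ X : ℕ, 1 ≤ X →
    ∀ S : Finset (Fin 2 → Fin (d + 1) → ℤ),
      (∀ c ∈ S, (∀ i j, |c i j| ≤ (X : ℤ)) ∧ NZ c ∧ Many M c) →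
      (∀ c ∈ S, ∀ c' ∈ S, c ≠ c' → ¬ CjQ c c') → (S.card : ℝ) ≤ C * (X : ℝ) ^ ε := by
  classical
  by_contra hcon
  push Not at hcon
  obtain ⟨C0, A0, hC0, H0⟩ := pre_orb d hd
  choose X hX1 S hS hcj hcard using fun ν : ℕ =>
    hcon ((ν + 1) * ((ν + 1) * (2 * d ^ ν)) + 1) (ν : ℝ)
  -- the points
  have hz : ∀ ν, ∀ c : Fin 2 → Fin (d + 1) → ℤ, ∃ z : Fin 2 → ℤ, c ∈ S ν →
      IsCoprime (z 0) (z 1) ∧ PreZ c z ∧
      ∀ i j, i < j → j ≤ ν → wg ((ac c)^[i] z) ((ac c)^[j] z) ≠ 0 := by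
    intro ν c
    by_cases hc : c ∈ S ν
    · obtain ⟨-, hNZ, P, hP1, hP2, hP3⟩ := hS ν c hc
      obtain ⟨z, hz, h⟩ := long hd ν hNZ P (fun z hz => (hP2 z hz).1) hP3 hP1
      exact ⟨z, fun _ => ⟨(hP2 z hz).1, (hP2 z hz).2, h⟩⟩
    · exact ⟨0, fun h => absurd h hc⟩
  choose z hz using hz
  let Om : ℕ → Finset (Fin (Nd d) → ℤ) := fun ν => (S ν).image fun c => enc c (z ν c)
  let Y : ℕ → ℕ := fun ν => C0 * (X ν) ^ (A0 + 1)
  have hYX : ∀ ν, X ν ≤ Y ν ∧ C0 * (X ν) ^ A0 ≤ Y ν := by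
    intro ν
    have h1 := hX1 ν
    constructor
    · calc X ν = 1 * (X ν) ^ 1 := by ring
        _ ≤ C0 * (X ν) ^ (A0 + 1) := Nat.mul_le_mul hC0 (Nat.pow_le_pow_right h1 (by omega))
    · exact Nat.mul_le_mul_left _ (Nat.pow_le_pow_right h1 (by omega))
  -- sizes
  have hXbig : ∀ m : ℕ, ∀ᶠ ν in (Uf : Filter ℕ), m ≤ X ν := by
    intro m
    filter_upwards [ev_ge ((2 * m + 1) ^ (2 * (d + 1)) + 1)] with ν hν
    by_contra hlt
    push Not at hlt
    have h1 := card_box (S ν) (fun c hc => (hS ν c hc).1)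
    have h2 : (2 * X ν + 1) ^ (2 * (d + 1)) ≤ (2 * m + 1) ^ (2 * (d + 1)) :=
      Nat.pow_le_pow_left (by omega) _
    have h3 : (ν : ℝ) < ((S ν).card : ℝ) := by
      refine lt_of_le_of_lt ?_ (hcard ν)
      have : (1 : ℝ) ≤ (X ν : ℝ) ^ ε := Real.one_le_rpow (by exact_mod_cast hX1 ν) hε.le
      nlinarith [(Nat.cast_nonneg ν : (0 : ℝ) ≤ (ν : ℝ))]
    have h4 : ν < (S ν).card := by exact_mod_cast h3
    omega
  have hY : ∀ m : ℕ, ∀ᶠ ν in (Uf : Filter ℕ), m ≤ Y ν := by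
    intro m
    filter_upwards [hXbig m] with ν hν
    exact hν.trans (hYX ν).1
  have hinj : ∀ ν, Set.InjOn (fun c => enc c (z ν c)) (S ν : Set _) := by
    intro ν c _ c' _ h
    have := congrArg (cfo (d := d)) h
    simpa only [cfo_enc] using this
  have hbig : Big Y Om := by
    refine big_of_card (ε := ε / (A0 + 1)) (by positivity) (hY 2) ?_
    obtain ⟨m, hm⟩ := exists_nat_gt ((C0 : ℝ) ^ (ε / (A0 + 1)))
    filter_upwards [ev_ge m] with ν hν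
    have e1 : (Om ν).card = (S ν).card := Finset.card_image_of_injOn (hinj ν)
    rw [e1]
    have hX0 : (0 : ℝ) ≤ (X ν : ℝ) := Nat.cast_nonneg _
    have e2 : ((Y ν : ℕ) : ℝ) ^ (ε / (A0 + 1)) = (C0 : ℝ) ^ (ε / (A0 + 1)) * (X ν : ℝ) ^ ε := by
      show ((C0 * (X ν) ^ (A0 + 1) : ℕ) : ℝ) ^ (ε / (A0 + 1)) = _
      push_cast
      rw [Real.mul_rpow (by positivity) (by positivity), ← Real.rpow_natCast (X ν : ℝ),
        ← Real.rpow_mul hX0]
      congr 2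
      push_cast
      field_simp
    rw [e2]
    refine lt_of_le_of_lt ?_ (hcard ν)
    refine mul_le_mul_of_nonneg_right ?_ (by positivity)
    have : (m : ℝ) ≤ (ν : ℝ) := by exact_mod_cast hν
    linarith
  have hmem : ∀ ν, ∀ t ∈ Om ν, cfo t ∈ S ν ∧ zfo t = z ν (cfo t) := by
    intro ν t ht
    obtain ⟨c, hc, rfl⟩ := Finset.mem_image.1 ht
    rw [cfo_enc, zfo_enc]
    exact ⟨hc, rfl⟩
  have horb : ∀ ν, ∀ t ∈ Om ν, ∀ k, ∃ (G : ℤ) (z' : Fin 2 → ℤ), G ≠ 0 ∧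
      IsCoprime (z' 0) (z' 1) ∧ (ac (cfo t))^[k] (zfo t) = G • z' ∧
      ∀ i, |z' i| ≤ (Y ν : ℤ) := by
    intro ν t ht k
    obtain ⟨h1, h2⟩ := hmem ν t ht
    obtain ⟨h3, h4, -⟩ := hz ν (cfo t) h1
    obtain ⟨h5, h6, -⟩ := hS ν (cfo t) h1
    obtain ⟨G, z', hG, hco, he, hm⟩ := H0 (X ν) (hX1 ν) (cfo t) h5 h6 _ h3 h4 k
    refine ⟨G, z', hG, hco, ?_, fun i => (le_mx z' i).trans ?_⟩
    · rw [h2]
      exact he
    · exact_mod_cast hm.trans (hYX ν).2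
  have hb : Bd Y Om := by
    refine Filter.Eventually.of_forall fun ν t ht j => ?_
    obtain ⟨h1, h2⟩ := hmem ν t ht
    obtain ⟨h3, -, -⟩ := hz ν (cfo t) h1
    obtain ⟨h5, h6, -⟩ := hS ν (cfo t) h1
    obtain ⟨q, rfl⟩ := (ee d).surjective j
    cases q with
    | inl k =>
      have := h5 k.1 k.2
      have h7 : t (ee d (Sum.inl k)) = cfo t k.1 k.2 := rfl
      rw [h7]
      exact this.trans (by exact_mod_cast (hYX ν).1)
    | inr i =>
      have h7 : t (ee d (Sum.inr i)) = zfo t i := rfl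
      rw [h7]
      obtain ⟨G, z', hG, hco, he, hm⟩ := horb ν t ht 0
      have h8 : zfo t = G • z' := he
      have h9 : mx (zfo t) = mx z' := by
        refine mx_par (by rw [h2]; exact h3) hco ?_
        rw [h8]
        have := wg_smul G 1 z' z'
        rw [one_smul, wg_self, mul_zero] at this
        exact this
      refine (le_mx _ i).trans ?_
      rw [h9]
      have h10 : mx z' ≤ Y ν := by
        unfold mx
        have a0 := hm 0
        have a1 := hm 1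
        rw [Int.abs_eq_natAbs] at a0 a1
        exact max_le (by exact_mod_cast a0) (by exact_mod_cast a1)
      exact_mod_cast h10
  have hcore := core hd hY hbig hb
    (Filter.Eventually.of_forall fun ν t ht => (hS ν _ (hmem ν t ht).1).2.1)
    (fun L => by
      filter_upwards [ev_ge L] with ν hν t ht i j hij hj
      obtain ⟨h1, h2⟩ := hmem ν t ht
      rw [h2]
      exact (hz ν (cfo t) h1).2.2 i j hij (by omega))
    (fun k => Filter.Eventually.of_forall fun ν t ht => horb ν t ht k)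
  obtain ⟨ν, t, ht, t', ht', hne, hc⟩ := hcore.exists
  obtain ⟨c, hc1, rfl⟩ := Finset.mem_image.1 ht
  obtain ⟨c', hc1', rfl⟩ := Finset.mem_image.1 ht'
  simp only [cfo_enc] at hc
  refine hcj ν c hc1 c' hc1' ?_ hc
  rintro rfl
  exact hne rfl

end Pool.Agent.R323
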